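import Mathlib

/-!
The quantity `m₃(p)`.
-/

namespace MPf414f1

/-- The distances `|a₁a₂a₃/(b₁b₂b₃) - p|` for integers `a_i, b_i` in `{1, …, p - 1}`. -/
def dists (p : ℕ) : Set ℝ :=
  {v | ∃ a b : Fin 3 → ℕ, (∀ i, 1 ≤ a i ∧ a i ≤ p - 1) ∧ (∀ i, 1 ≤ b i ∧ b i ≤ p - 1) ∧
    v = |(∏ i, (a i : ℝ) / (b i : ℝ)) - p|}

/-- The minimum `m₃(p)`. -/
noncomputable def m3 (p : ℕ) : ℝ := sInf (dists p)

end MPf414f1
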