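import Pool.Agent.Work.MP_f414f1_nt.K1
import Pool.Agent.Work.MP_f414f1_nt.K2
import Pool.Agent.Work.MP_f414f1_nt.K3
import Pool.Agent.Work.MP_f414f1_nt.K4
import Pool.Agent.Work.MP_f414f1_nt.K5
import Pool.Agent.Work.MP_f414f1_nt.K6
import Pool.Agent.Work.MP_f414f1_nt.K7

/-! Covering of all residue classes (computer generated). -/

set_option autoImplicit false

namespace MPf414f1.Cov.K

def roots : List (ℕ × ℕ) := [(41, 42), (197, 210), (113, 210), (71, 210), (29, 210), (191, 210), (149, 210), (107, 210), (23, 210), (17, 42), (179, 210), (137, 210), (53, 210), (11, 210), (5, 42), (199, 210), (169, 210), (139, 210), (109, 210), (79, 210), (19, 210), (13, 30), (187, 210), (3517, 3570), (3307, 3570), (3097, 3570), (2887, 3570), (2677, 3570), (2467, 3570), (2257, 3570), (2047, 3570), (1837, 3570), (1627, 3570), (1417, 3570), (997, 3570), (787, 3570), (577, 3570), (367, 3570), (157, 3570), (127, 210), (97, 210), (67, 210), (37, 210), (1, 30)]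

theorem roots_ok : ∀ x ∈ roots, Cls ((3 : ℕ) / (2 : ℕ) : ℝ) x.1 x.2 := by
  unfold roots
  simp only [List.forall_mem_cons]
  refine ⟨b0, b1, b2, b3, b4, b5, b6, b7, b8, b9, b10, b11, b12, b13, b14, b15, b16, b17, b18, b19, b20, b21, b22, b23, b24, b25, b26, b27, b28, b29, b30, b31, b32, b33, b34, b35, b36, b37, b38, b39, b40, b41, b42, b43, ?_⟩
  intro x hx
  exact absurd hx List.not_mem_nil

theorem all : Cls ((3 : ℕ) / (2 : ℕ) : ℝ) 0 1 :=
  top_spec roots_ok (ts := [
  18446744073709551618, 36893488147419168771, 110680464442257637383, 774763251095803855104,
  774763251095803068421, 3873816255479018750208, 3873816255479013245184, 3873816255479010492672,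
  3873816255479007740160, 774763251095802675205, 3873816255479018356992, 3873816255479015604480,
  3873816255479012851968, 3873816255479007346944, 774763251095802282240, 774763251095801888773,
  3873816255479017570560, 3873816255479014818048, 3873816255479009313024, 3873816255479006560512,
  774763251095801495808, 110680464442257375237, 553402322211287793671, 3873816255479018881280,
  3873816255479016915200, 3873816255479014949120, 3873816255479012983040, 3873816255479011016960,
  3873816255479007084800, 553402322211287400704, 553402322211287007239, 3873816255479018094848,
  3873816255479016128529, 65854876343143329759488, 65854876343143315996928, 65854876343143302234368,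
  65854876343143288471808, 65854876343143274709248, 65854876343143260946688,
  65854876343143247184128, 65854876343143233421568, 65854876343143219659008,
  65854876343143205896448, 65854876343143192133888, 65854876343143164608768,
  65854876343143150846208, 65854876343143137083648, 65854876343143123321088,
  65854876343143109558528, 3873816255479014162688, 3873816255479012196608, 3873816255479010230528,
  3873816255479008264448, 553402322211286614272])
  (by decide +kernel)

end MPf414f1.Cov.K
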