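import Mathlib

/-!
Counting the integers of an interval in a residue class and free of given primes.
-/

namespace MPf414f1

open Finset

/-- the `N` in `(a, b]` with `N ≡ c (mod d)` divisible by no member of `S` -/
noncomputable def cnt (a b : ℝ) (d c : ℕ) (S : Finset ℕ) : Finset ℕ :=
  (Ioc ⌊a⌋₊ ⌊b⌋₊).filter (fun N => N ≡ c [MOD d] ∧ ∀ P ∈ S, ¬ P ∣ N)

theorem mem_cnt {a b : ℝ} (ha : 0 ≤ a) (hab : a ≤ b) {d c : ℕ} {S : Finset ℕ} {N : ℕ} :
    N ∈ cnt a b d c S ↔ (a < N ∧ (N : ℝ) ≤ b) ∧ N ≡ c [MOD d] ∧ ∀ P ∈ S, ¬ P ∣ N := by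
  unfold cnt
  rw [mem_filter, mem_Ioc, Nat.floor_lt ha, Nat.le_floor_iff (ha.trans hab)]

theorem floor_aux (b : ℝ) (hb : 0 ≤ b) (d c : ℕ) (hd : 0 < d) :
    ((⌊((⌊b⌋₊ : ℚ) - c) / (d : ℚ)⌋ : ℤ) : ℝ) ≤ (b - c) / d ∧
      (b - c) / d < ((⌊((⌊b⌋₊ : ℚ) - c) / (d : ℚ)⌋ : ℤ) : ℝ) + 1 := by
  set F : ℤ := ⌊((⌊b⌋₊ : ℚ) - c) / (d : ℚ)⌋ with hF
  have hdQ : (0 : ℚ) < d := by exact_mod_cast hd
  have hdR : (0 : ℝ) < d := by exact_mod_cast hd
  have h1 : (F : ℚ) ≤ ((⌊b⌋₊ : ℚ) - c) / (d : ℚ) := Int.floor_le _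
  have h2 : ((⌊b⌋₊ : ℚ) - c) / (d : ℚ) < F + 1 := Int.lt_floor_add_one _
  rw [le_div_iff₀ hdQ] at h1
  rw [div_lt_iff₀ hdQ] at h2
  have h1' : F * (d : ℤ) ≤ (⌊b⌋₊ : ℤ) - c := by exact_mod_cast h1
  have h2' : (⌊b⌋₊ : ℤ) - c < (F + 1) * d := by exact_mod_cast h2
  have h2'' : (⌊b⌋₊ : ℤ) - c + 1 ≤ (F + 1) * d := h2'
  have h3 : ((F : ℝ)) * d ≤ (⌊b⌋₊ : ℝ) - c := by exact_mod_cast h1'
  have h4 : (⌊b⌋₊ : ℝ) - c + 1 ≤ ((F : ℝ) + 1) * d := by exact_mod_cast h2''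
  have h5 : (⌊b⌋₊ : ℝ) ≤ b := Nat.floor_le hb
  have h6 : b < (⌊b⌋₊ : ℝ) + 1 := Nat.lt_floor_add_one b
  constructor
  · rw [le_div_iff₀ hdR]; linarith
  · rw [div_lt_iff₀ hdR]; linarith

theorem card_base (a b : ℝ) (ha : 0 ≤ a) (hab : a ≤ b) (d c : ℕ) (hd : 0 < d) :
    |(((Ioc ⌊a⌋₊ ⌊b⌋₊).filter (fun N => N ≡ c [MOD d])).card : ℝ) - (b - a) / d| ≤ 1 := by
  have h := Nat.Ioc_filter_modEq_card ⌊a⌋₊ ⌊b⌋₊ hd c
  have hR : ((((Ioc ⌊a⌋₊ ⌊b⌋₊).filter (fun N => N ≡ c [MOD d])).card : ℕ) : ℝ) =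
      max (((⌊((⌊b⌋₊ : ℚ) - c) / (d : ℚ)⌋ : ℤ) : ℝ) - ((⌊((⌊a⌋₊ : ℚ) - c) / (d : ℚ)⌋ : ℤ) : ℝ)) 0 := by
    have := congrArg (fun z : ℤ => (z : ℝ)) h
    push_cast at this
    exact this
  obtain ⟨hb1, hb2⟩ := floor_aux b (ha.trans hab) d c hd
  obtain ⟨ha1, ha2⟩ := floor_aux a ha d c hd
  have hdR : (0 : ℝ) < d := by exact_mod_cast hd
  have hsub : (b - a) / d = (b - c) / d - (a - c) / d := by ring
  have hnn : 0 ≤ (b - a) / d := div_nonneg (by linarith) hdR.le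
  rw [hR, abs_le]
  constructor
  · have := le_max_left (((⌊((⌊b⌋₊ : ℚ) - c) / (d : ℚ)⌋ : ℤ) : ℝ) -
      ((⌊((⌊a⌋₊ : ℚ) - c) / (d : ℚ)⌋ : ℤ) : ℝ)) 0
    linarith
  · have : max (((⌊((⌊b⌋₊ : ℚ) - c) / (d : ℚ)⌋ : ℤ) : ℝ) -
      ((⌊((⌊a⌋₊ : ℚ) - c) / (d : ℚ)⌋ : ℤ) : ℝ)) 0 ≤ (b - a) / d + 1 :=
      max_le (by linarith) (by linarith)
    linarith

theorem exists_inv {P d : ℕ} (h : Nat.Coprime P d) (hd : 0 < d) : ∃ P' : ℕ, P * P' ≡ 1 [MOD d] := by
  rcases Nat.lt_or_ge 1 d with h1 | h1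
  · obtain ⟨m, -, hm⟩ := Nat.exists_mul_mod_eq_one_of_coprime h h1
    exact ⟨m, by rw [Nat.ModEq, hm, Nat.mod_eq_of_lt h1]⟩
  · have : d = 1 := by omega
    subst this
    exact ⟨0, Nat.modEq_one⟩

theorem card_cnt (d : ℕ) (hd : 0 < d) (S : Finset ℕ) : ∀ (a b : ℝ) (c : ℕ), 0 ≤ a → a ≤ b →
    (∀ P ∈ S, P.Prime ∧ Nat.Coprime P d) →
    |((cnt a b d c S).card : ℝ) - (b - a) / d * ∏ P ∈ S, (1 - (P : ℝ)⁻¹)| ≤ 2 ^ S.card := by
  induction S using Finset.induction_on with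
  | empty =>
    intro a b c ha hab _
    have h := card_base a b ha hab d c hd
    simpa [cnt] using h
  | insert P S hPS ih =>
    intro a b c ha hab hS
    obtain ⟨hP, hPd⟩ := hS P (mem_insert_self _ _)
    have hS' : ∀ P ∈ S, P.Prime ∧ Nat.Coprime P d := fun R hR => hS R (mem_insert_of_mem hR)
    have hP0 : (0 : ℝ) < P := by exact_mod_cast hP.pos
    obtain ⟨P', hP'⟩ := exists_inv hPd hd
    have h1 : (cnt a b d c S).card = ((cnt a b d c S).filter (fun N => P ∣ N)).card +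
        (cnt a b d c (insert P S)).card := by
      rw [← card_filter_add_card_filter_not (s := cnt a b d c S) (fun N => P ∣ N)]
      congr 2
      ext N
      simp only [cnt, mem_filter, mem_insert, forall_eq_or_imp]
      tauto
    have h2 : ((cnt a b d c S).filter (fun N => P ∣ N)).card =
        (cnt (a / P) (b / P) d (c * P') S).card := by
      symm
      refine card_bij (fun N _ => P * N) ?_ ?_ ?_
      · intro N hN
        rw [mem_cnt (by positivity) (by gcongr)] at hN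
        obtain ⟨⟨h3, h4⟩, h5, h6⟩ := hN
        rw [mem_filter, mem_cnt ha hab]
        refine ⟨⟨⟨?_, ?_⟩, ?_, ?_⟩, dvd_mul_right _ _⟩
        · rw [div_lt_iff₀ hP0] at h3
          push_cast
          linarith
        · rw [le_div_iff₀ hP0] at h4
          push_cast
          linarith
        · calc P * N ≡ P * (c * P') [MOD d] := Nat.ModEq.mul_left _ h5
            _ = c * (P * P') := by ring
            _ ≡ c * 1 [MOD d] := Nat.ModEq.mul_left _ hP'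
            _ = c := mul_one _
        · intro R hR hdvd
          have hRp := (hS' R hR).1
          rcases (Nat.Prime.dvd_mul hRp).1 hdvd with h | h
          · have : R = P := (Nat.prime_dvd_prime_iff_eq hRp hP).1 h
            exact hPS (this ▸ hR)
          · exact h6 R hR h
      · intro N1 _ N2 _ h
        exact Nat.eq_of_mul_eq_mul_left hP.pos h
      · intro N hN
        rw [mem_filter, mem_cnt ha hab] at hN
        obtain ⟨⟨⟨h3, h4⟩, h5, h6⟩, N', rfl⟩ := hN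
        refine ⟨N', ?_, rfl⟩
        rw [mem_cnt (by positivity) (by gcongr)]
        push_cast at h3 h4
        refine ⟨⟨?_, ?_⟩, ?_, ?_⟩
        · rw [div_lt_iff₀ hP0]; linarith
        · rw [le_div_iff₀ hP0]; linarith
        · calc N' = 1 * N' := (one_mul _).symm
            _ ≡ (P * P') * N' [MOD d] := Nat.ModEq.mul_right _ hP'.symm
            _ = (P * N') * P' := by ring
            _ ≡ c * P' [MOD d] := Nat.ModEq.mul_right _ h5
        · intro R hR hdvd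
          exact h6 R hR (hdvd.mul_left _)
    have h3 := ih a b c ha hab hS'
    have h4 := ih (a / P) (b / P) (c * P') (by positivity) (by gcongr) hS'
    have h5 : ((cnt a b d c (insert P S)).card : ℝ) = (cnt a b d c S).card -
        (cnt (a / P) (b / P) d (c * P') S).card := by
      rw [← h2, h1]; push_cast; ring
    rw [h5, prod_insert hPS, card_insert_of_notMem hPS, pow_succ]
    have h6 : (b - a) / d * ((1 - (P : ℝ)⁻¹) * ∏ P ∈ S, (1 - (P : ℝ)⁻¹)) =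
        (b - a) / d * ∏ P ∈ S, (1 - (P : ℝ)⁻¹) -
        (b / P - a / P) / d * ∏ P ∈ S, (1 - (P : ℝ)⁻¹) := by
      field_simp
    rw [h6]
    rw [abs_le] at h3 h4 ⊢
    constructor <;> linarith [h3.1, h3.2, h4.1, h4.2]

/-- the `N` in `(a, b]` prime to `q` -/
noncomputable def Wq (a b : ℝ) (q : ℕ) : Finset ℕ :=
  (Ioc ⌊a⌋₊ ⌊b⌋₊).filter (fun N => N.Coprime q)

theorem mem_Wq {a b : ℝ} (ha : 0 ≤ a) (hab : a ≤ b) {q N : ℕ} :
    N ∈ Wq a b q ↔ (a < N ∧ (N : ℝ) ≤ b) ∧ N.Coprime q := by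
  unfold Wq
  rw [mem_filter, mem_Ioc, Nat.floor_lt ha, Nat.le_floor_iff (ha.trans hab)]

theorem totient_div (q : ℕ) (hq : 0 < q) :
    ∏ P ∈ q.primeFactors, (1 - (P : ℝ)⁻¹) = (q.totient : ℝ) / q := by
  have h := Nat.totient_eq_mul_prod_factors q
  have h' := congrArg (fun z : ℚ => (z : ℝ)) h
  push_cast at h'
  have hq' : (q : ℝ) ≠ 0 := by exact_mod_cast hq.ne'
  rw [h']
  field_simp

theorem coprime_iff {N q : ℕ} (hq : q ≠ 0) :
    N.Coprime q ↔ ∀ P ∈ q.primeFactors, ¬ P ∣ N := by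
  constructor
  · intro h P hP hd
    have hp := Nat.prime_of_mem_primeFactors hP
    exact (Nat.Prime.one_lt hp).ne' (Nat.dvd_one.1 (h ▸ Nat.dvd_gcd hd (Nat.dvd_of_mem_primeFactors hP)))
  · intro h
    refine Nat.Coprime.symm (Nat.coprime_of_dvd ?_)
    intro k hk hkq hkN
    exact h k (Nat.mem_primeFactors.2 ⟨hk, hkq, hq⟩) hkN

theorem Wq_modEq_eq {a b : ℝ} (ha : 0 ≤ a) (hab : a ≤ b) {q d c : ℕ} (hq : 0 < q) (hdq : d ∣ q)
    (hc : c.Coprime d) :
    (Wq a b q).filter (fun N => N ≡ c [MOD d]) = cnt a b d c (q.primeFactors \ d.primeFactors) := by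
  ext N
  rw [mem_filter, mem_Wq ha hab, mem_cnt ha hab, coprime_iff hq.ne']
  constructor
  · rintro ⟨⟨h1, h2⟩, h3⟩
    exact ⟨h1, h3, fun P hP => h2 P (mem_sdiff.1 hP).1⟩
  · rintro ⟨h1, h2, h3⟩
    refine ⟨⟨h1, fun P hP hPN => ?_⟩, h2⟩
    by_cases hPd : P ∈ d.primeFactors
    · have hp := Nat.prime_of_mem_primeFactors hPd
      have hPd' := Nat.dvd_of_mem_primeFactors hPd
      have : P ∣ c := (Nat.ModEq.dvd_iff h2 hPd').1 hPN
      exact (Nat.Prime.one_lt hp).ne' (Nat.dvd_one.1 (hc ▸ Nat.dvd_gcd this hPd'))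
    · exact h3 P (mem_sdiff.2 ⟨hP, hPd⟩) hPN

theorem card_Wq {a b : ℝ} (ha : 0 ≤ a) (hab : a ≤ b) {q : ℕ} (hq : 0 < q) :
    |((Wq a b q).card : ℝ) - (b - a) * (q.totient / q)| ≤ 2 ^ q.primeFactors.card := by
  have h1 : Wq a b q = cnt a b 1 0 q.primeFactors := by
    ext N
    rw [mem_Wq ha hab, mem_cnt ha hab, coprime_iff hq.ne']
    simp [Nat.modEq_one]
  have h2 := card_cnt 1 one_pos q.primeFactors a b 0 ha hab (fun P hP =>
    ⟨Nat.prime_of_mem_primeFactors hP, Nat.coprime_one_right P⟩)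
  rw [totient_div q hq, Nat.cast_one, div_one] at h2
  rw [h1]
  exact h2

theorem card_Wq_modEq {a b : ℝ} (ha : 0 ≤ a) (hab : a ≤ b) {q d c : ℕ} (hq : 0 < q) (hdq : d ∣ q)
    (hc : c.Coprime d) :
    (((Wq a b q).filter (fun N => N ≡ c [MOD d])).card : ℝ) ≤
      (Wq a b q).card / d.totient + 2 * 2 ^ q.primeFactors.card := by
  have hd : 0 < d := Nat.pos_of_dvd_of_pos hdq hq
  rw [Wq_modEq_eq ha hab hq hdq hc]
  have h1 := card_cnt d hd (q.primeFactors \ d.primeFactors) a b c ha hab (fun P hP => by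
    rw [mem_sdiff] at hP
    have hp := Nat.prime_of_mem_primeFactors hP.1
    refine ⟨hp, (Nat.Prime.coprime_iff_not_dvd hp).2 fun h => hP.2 ?_⟩
    exact Nat.mem_primeFactors.2 ⟨hp, h, hd.ne'⟩)
  have h2 := card_Wq ha hab hq
  have hsub : d.primeFactors ⊆ q.primeFactors := Nat.primeFactors_mono hdq hq.ne'
  have h3 : (∏ P ∈ q.primeFactors \ d.primeFactors, (1 - (P : ℝ)⁻¹)) * ((d.totient : ℝ) / d) =
      (q.totient : ℝ) / q := by
    rw [← totient_div d hd, ← totient_div q hq]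
    exact prod_sdiff hsub
  have hφ : (1 : ℝ) ≤ d.totient := by exact_mod_cast Nat.totient_pos.2 hd
  have hφ0 : (0 : ℝ) < d.totient := by linarith
  have hd0 : (0 : ℝ) < d := by exact_mod_cast hd
  have h4 : (b - a) / d * ∏ P ∈ q.primeFactors \ d.primeFactors, (1 - (P : ℝ)⁻¹) =
      (b - a) * ((q.totient : ℝ) / q) / d.totient := by
    rw [← h3]
    field_simp
  rw [h4] at h1
  have h5 : (2 : ℝ) ^ (q.primeFactors \ d.primeFactors).card ≤ 2 ^ q.primeFactors.card :=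
    pow_le_pow_right₀ (by norm_num) (card_le_card sdiff_subset)
  have h6 : (b - a) * ((q.totient : ℝ) / q) / d.totient ≤
      (Wq a b q).card / d.totient + 2 ^ q.primeFactors.card := by
    have h7 : (b - a) * ((q.totient : ℝ) / q) ≤ (Wq a b q).card + 2 ^ q.primeFactors.card := by
      have := (abs_le.1 h2).1
      linarith
    calc (b - a) * ((q.totient : ℝ) / q) / d.totient
        ≤ ((Wq a b q).card + 2 ^ q.primeFactors.card) / d.totient := by gcongr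
      _ = (Wq a b q).card / d.totient + 2 ^ q.primeFactors.card / d.totient := by ring
      _ ≤ (Wq a b q).card / d.totient + 2 ^ q.primeFactors.card := by
          have : (2 : ℝ) ^ q.primeFactors.card / d.totient ≤ 2 ^ q.primeFactors.card :=
            div_le_self (by positivity) hφ
          linarith
  have h7 := (abs_le.1 h1).2
  linarith

end MPf414f1
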