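import Mathlib
import Pool.Agent.Work.MP_f414f1_nt.Count

/-!
A sum of greatest common divisors.
-/

namespace MPf414f1

open Finset

theorem card_class_le (x e c : ℕ) (he : 0 < e) :
    (((Ioc x (2 * x)).filter (fun m => m ≡ c [MOD e])).card : ℝ) ≤ x / e + 1 := by
  have h := card_base (x : ℝ) ((2 * x : ℕ) : ℝ) (Nat.cast_nonneg _) (by push_cast; linarith [Nat.cast_nonneg (α := ℝ) x])
    e c he
  rw [Nat.floor_natCast, Nat.floor_natCast] at h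
  have h2 := (abs_le.1 h).2
  have h3 : (((2 * x : ℕ) : ℝ) - x) / e = x / e := by push_cast; ring
  rw [h3] at h2
  linarith

/-- a fibre of the triple of greatest common divisors -/
theorem fibre_le (x : ℕ) (hx : 1 ≤ x) (I : Finset (ℕ × ℕ))
    (hI : ∀ i ∈ I, i.1 ∈ Ioc x (2 * x) ∧ i.2 ∈ Ioc x (2 * x) ∧ Nat.Coprime i.1 i.2)
    (d1 d2 d3 : ℕ) (h1 : 0 < d1) (h2 : 0 < d2) (h3 : 0 < d3)
    (hd : ∀ i ∈ I, d1 ∣ i.1 ∧ d2 ∣ i.2 ∧ d3 ∣ i.1 + i.2) :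
    (I.card : ℝ) * (d1 * (d2 * d3)) ≤ 27 * (x : ℝ) ^ 3 := by
  classical
  have hx1 : (1 : ℝ) ≤ x := by exact_mod_cast hx
  rcases I.eq_empty_or_nonempty with hne | ⟨i0, hi0⟩
  · rw [hne, card_empty]
    have : 0 ≤ 27 * (x : ℝ) ^ 3 := by positivity
    simpa using this
  -- the size of the divisors
  obtain ⟨h4, h5, h6⟩ := hI i0 hi0
  obtain ⟨h7, h8, h9⟩ := hd i0 hi0
  rw [mem_Ioc] at h4 h5
  have hd1 : (d1 : ℝ) ≤ 2 * x := by
    have : d1 ≤ 2 * x := (Nat.le_of_dvd (by omega) h7).trans h4.2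
    exact_mod_cast this
  have hd2 : (d2 : ℝ) ≤ 2 * x := by
    have : d2 ≤ 2 * x := (Nat.le_of_dvd (by omega) h8).trans h5.2
    exact_mod_cast this
  have hd3 : (d3 : ℝ) ≤ 4 * x := by
    have : d3 ≤ 4 * x := (Nat.le_of_dvd (by omega) h9).trans (by omega)
    exact_mod_cast this
  have hcop : Nat.Coprime d2 d3 := by
    have : Nat.Coprime i0.2 (i0.1 + i0.2) := by
      rw [Nat.coprime_add_self_right]; exact h6.symm
    exact Nat.Coprime.coprime_dvd_left h8 (Nat.Coprime.coprime_dvd_right h9 this)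
  have hd1' : (0 : ℝ) < d1 := by exact_mod_cast h1
  have hd2' : (0 : ℝ) < d2 := by exact_mod_cast h2
  have hd3' : (0 : ℝ) < d3 := by exact_mod_cast h3
  -- the count
  have himg : ((I.image Prod.fst).card : ℝ) ≤ x / d1 + 1 := by
    refine le_trans ?_ (card_class_le x d1 0 h1)
    norm_cast
    refine card_le_card ?_
    intro m hm
    obtain ⟨i, hi, rfl⟩ := mem_image.1 hm
    rw [mem_filter]
    exact ⟨(hI i hi).1, (Nat.modEq_zero_iff_dvd).2 (hd i hi).1⟩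
  have hfib : ∀ m ∈ I.image Prod.fst, ((I.filter (fun i => i.1 = m)).card : ℝ) ≤
      x / ((d2 * d3 : ℕ) : ℝ) + 1 := by
    intro m hm
    obtain ⟨i1, hi1, rfl⟩ := mem_image.1 hm
    refine le_trans ?_ (card_class_le x (d2 * d3) i1.2 (Nat.mul_pos h2 h3))
    norm_cast
    refine card_le_card_of_injOn Prod.snd ?_ ?_
    · intro i hi
      rw [mem_coe, mem_filter] at hi
      rw [mem_coe, mem_filter]
      refine ⟨(hI i hi.1).2.1, ?_⟩
      have e1 : i.2 ≡ i1.2 [MOD d2] :=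
        ((Nat.modEq_zero_iff_dvd).2 (hd i hi.1).2.1).trans
          ((Nat.modEq_zero_iff_dvd).2 (hd i1 hi1).2.1).symm
      have e2 : i.2 ≡ i1.2 [MOD d3] := by
        have e3 : i.1 + i.2 ≡ i1.1 + i1.2 [MOD d3] :=
          ((Nat.modEq_zero_iff_dvd).2 (hd i hi.1).2.2).trans
            ((Nat.modEq_zero_iff_dvd).2 (hd i1 hi1).2.2).symm
        rw [hi.2] at e3
        exact Nat.ModEq.add_left_cancel' _ e3
      exact (Nat.modEq_and_modEq_iff_modEq_mul hcop).1 ⟨e1, e2⟩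
    · intro i hi j hj hij
      rw [mem_coe, mem_filter] at hi hj
      exact Prod.ext (hi.2.trans hj.2.symm) hij
  have hcard : (I.card : ℝ) ≤ (x / d1 + 1) * (x / ((d2 * d3 : ℕ) : ℝ) + 1) := by
    have e1 : (I.card : ℝ) = ∑ m ∈ I.image Prod.fst, ((I.filter (fun i => i.1 = m)).card : ℝ) := by
      exact_mod_cast card_eq_sum_card_image Prod.fst I
    rw [e1]
    calc ∑ m ∈ I.image Prod.fst, ((I.filter (fun i => i.1 = m)).card : ℝ)
        ≤ ∑ m ∈ I.image Prod.fst, ((x : ℝ) / ((d2 * d3 : ℕ) : ℝ) + 1) := sum_le_sum hfib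
      _ = (I.image Prod.fst).card * ((x : ℝ) / ((d2 * d3 : ℕ) : ℝ) + 1) := by
          rw [sum_const, nsmul_eq_mul]
      _ ≤ _ := by gcongr
  calc (I.card : ℝ) * (d1 * (d2 * d3))
      ≤ (x / d1 + 1) * (x / ((d2 * d3 : ℕ) : ℝ) + 1) * (d1 * (d2 * d3)) := by gcongr
    _ = (x + d1) * (x + d2 * d3) := by push_cast; field_simp
    _ ≤ (x + 2 * x) * (x + 2 * x * (4 * x)) := by gcongr
    _ ≤ (x + 2 * x) * (x * x + 2 * x * (4 * x)) := by
        have : (x : ℝ) ≤ x * x := by nlinarith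
        gcongr
    _ = 27 * (x : ℝ) ^ 3 := by ring

theorem sum_gcd_le (x : ℕ) (hx : 1 ≤ x) (I : Finset (ℕ × ℕ))
    (hI : ∀ i ∈ I, i.1 ∈ Ioc x (2 * x) ∧ i.2 ∈ Ioc x (2 * x) ∧ Nat.Coprime i.1 i.2)
    (E : ℕ) (hE : E ≠ 0) :
    ∑ i ∈ I, (Nat.gcd E (i.1 * i.2 * (i.1 + i.2)) : ℝ) ≤
      (E.divisors.card : ℝ) ^ 3 * (27 * (x : ℝ) ^ 3) := by
  classical
  have h1 : ∀ i ∈ I, (Nat.gcd E (i.1 * i.2 * (i.1 + i.2)) : ℝ) ≤
      (Nat.gcd E i.1 : ℝ) * ((Nat.gcd E i.2 : ℝ) * (Nat.gcd E (i.1 + i.2) : ℝ)) := by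
    intro i _
    have e1 : Nat.gcd E (i.1 * i.2 * (i.1 + i.2)) ≤
        Nat.gcd E i.1 * (Nat.gcd E i.2 * Nat.gcd E (i.1 + i.2)) := by
      have hEpos : 0 < E := Nat.pos_of_ne_zero hE
      refine Nat.le_of_dvd ?_ ?_
      · have a1 := Nat.gcd_pos_of_pos_left i.1 hEpos
        have a2 := Nat.gcd_pos_of_pos_left i.2 hEpos
        have a3 := Nat.gcd_pos_of_pos_left (i.1 + i.2) hEpos
        positivity
      · rw [mul_assoc]
        exact (Nat.gcd_mul_right_dvd_mul_gcd _ _ _).trans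
          (Nat.mul_dvd_mul_left _ (Nat.gcd_mul_right_dvd_mul_gcd _ _ _))
    exact_mod_cast e1
  refine (sum_le_sum h1).trans ?_
  set f : ℕ × ℕ → ℕ × ℕ × ℕ := fun i => (Nat.gcd E i.1, Nat.gcd E i.2, Nat.gcd E (i.1 + i.2))
    with hf
  have hmaps : ∀ i ∈ I, f i ∈ E.divisors ×ˢ (E.divisors ×ˢ E.divisors) := by
    intro i _
    simp only [hf, mem_product, Nat.mem_divisors]
    exact ⟨⟨Nat.gcd_dvd_left _ _, hE⟩, ⟨Nat.gcd_dvd_left _ _, hE⟩, ⟨Nat.gcd_dvd_left _ _, hE⟩⟩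
  rw [← sum_fiberwise_of_maps_to hmaps]
  have hb : ∀ d ∈ E.divisors ×ˢ (E.divisors ×ˢ E.divisors),
      ∑ i ∈ I.filter (fun i => f i = d), (Nat.gcd E i.1 : ℝ) *
        ((Nat.gcd E i.2 : ℝ) * (Nat.gcd E (i.1 + i.2) : ℝ)) ≤ 27 * (x : ℝ) ^ 3 := by
    rintro ⟨d1, d2, d3⟩ hd
    simp only [mem_product, Nat.mem_divisors] at hd
    have hEpos : 0 < E := Nat.pos_of_ne_zero hE
    have e1 : ∑ i ∈ I.filter (fun i => f i = (d1, d2, d3)), (Nat.gcd E i.1 : ℝ) *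
        ((Nat.gcd E i.2 : ℝ) * (Nat.gcd E (i.1 + i.2) : ℝ)) =
        ∑ i ∈ I.filter (fun i => f i = (d1, d2, d3)), ((d1 : ℝ) * (d2 * d3)) := by
      refine sum_congr rfl fun i hi => ?_
      have h2 := (mem_filter.1 hi).2
      simp only [hf, Prod.mk.injEq] at h2
      rw [h2.1, h2.2.1, h2.2.2]
    rw [e1, sum_const, nsmul_eq_mul]
    refine fibre_le x hx _ (fun i hi => hI i (mem_filter.1 hi).1) d1 d2 d3
      (Nat.pos_of_dvd_of_pos hd.1.1 hEpos) (Nat.pos_of_dvd_of_pos hd.2.1.1 hEpos)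
      (Nat.pos_of_dvd_of_pos hd.2.2.1 hEpos) ?_
    intro i hi
    have h2 := (mem_filter.1 hi).2
    simp only [hf, Prod.mk.injEq] at h2
    exact ⟨h2.1 ▸ Nat.gcd_dvd_right _ _, h2.2.1 ▸ Nat.gcd_dvd_right _ _,
      h2.2.2 ▸ Nat.gcd_dvd_right _ _⟩
  refine (sum_le_sum hb).trans ?_
  rw [sum_const, nsmul_eq_mul, card_product, card_product]
  push_cast
  apply le_of_eq
  ring

end MPf414f1
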