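import Mathlib
import Pool.Agent.Work.WI.W5

/-!
Means over the primes with weight `log p`, and the second moment of the number of residue classes
hit by a prime.
-/

namespace MPf414f1

open Finset Filter Topology

/-- the sum of `log p * f p` over the primes `p ≤ n` -/
noncomputable def wsum (f : ℕ → ℝ) (n : ℕ) : ℝ :=
  ∑ p ∈ (range (n + 1)).filter Nat.Prime, Real.log p * f p

/-- `f` has mean `c` over the primes -/
def HasMean (f : ℕ → ℝ) (c : ℝ) : Prop :=
  Tendsto (fun n : ℕ => wsum f n / n) atTop (𝓝 c)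

theorem wsum_add (f g : ℕ → ℝ) (n : ℕ) :
    wsum (fun p => f p + g p) n = wsum f n + wsum g n := by
  unfold wsum
  rw [← sum_add_distrib]
  exact sum_congr rfl fun p _ => by ring

theorem wsum_const_mul (c : ℝ) (f : ℕ → ℝ) (n : ℕ) :
    wsum (fun p => c * f p) n = c * wsum f n := by
  unfold wsum
  rw [mul_sum]
  exact sum_congr rfl fun p _ => by ring

theorem wsum_mono {f g : ℕ → ℝ} (n : ℕ) (h : ∀ p, p.Prime → f p ≤ g p) : wsum f n ≤ wsum g n := by
  unfold wsum
  refine sum_le_sum fun p hp => ?_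
  have hp' := (mem_filter.1 hp).2
  exact mul_le_mul_of_nonneg_left (h p hp') (Real.log_natCast_nonneg p)

theorem HasMean.add {f g : ℕ → ℝ} {c d : ℝ} (hf : HasMean f c) (hg : HasMean g d) :
    HasMean (fun p => f p + g p) (c + d) := by
  unfold HasMean at *
  refine (Tendsto.add hf hg).congr fun n => ?_
  rw [wsum_add, add_div]

theorem HasMean.const_mul {f : ℕ → ℝ} {c : ℝ} (a : ℝ) (hf : HasMean f c) :
    HasMean (fun p => a * f p) (a * c) := by
  unfold HasMean at *
  refine (Tendsto.const_mul a hf).congr fun n => ?_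
  rw [wsum_const_mul, mul_div_assoc]

theorem hasMean_zero : HasMean (fun _ => 0) 0 := by
  unfold HasMean wsum
  simp

theorem HasMean.sum {ι : Type*} (T : Finset ι) {f : ι → ℕ → ℝ} {c : ι → ℝ}
    (h : ∀ t ∈ T, HasMean (f t) (c t)) :
    HasMean (fun p => ∑ t ∈ T, f t p) (∑ t ∈ T, c t) := by
  classical
  induction T using Finset.induction_on with
  | empty => simpa using hasMean_zero
  | insert a T ha ih =>
    simp only [sum_insert ha]
    exact (h a (mem_insert_self _ _)).add (ih fun t ht => h t (mem_insert_of_mem ht))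

/-- the indicator of a residue class -/
noncomputable def ind (q r : ℕ) (p : ℕ) : ℝ := if p ≡ r [MOD q] then 1 else 0

theorem ind_zero_or_one (q r p : ℕ) : ind q r p = 0 ∨ ind q r p = 1 := by
  unfold ind
  split_ifs <;> simp

theorem hasMean_ind {q r : ℕ} (hq : 0 < q) (hr : r.Coprime q) :
    HasMean (ind q r) ((q.totient : ℝ)⁻¹) := by
  have : NeZero q := ⟨hq.ne'⟩
  have hu : IsUnit (r : ZMod q) := (ZMod.isUnit_iff_coprime r q).2 hr
  have h := (WI.thetaAP_tendsto hu).comp (tendsto_natCast_atTop_atTop (R := ℝ))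
  unfold HasMean
  refine h.congr fun n => ?_
  simp only [Function.comp]
  congr 1
  unfold WI.thetaAP wsum
  rw [Nat.floor_natCast]
  have h2 : ∀ p : ℕ, Real.log p * ind q r p =
      if (p : ZMod q) = (r : ZMod q) then Real.log p else 0 := by
    intro p
    unfold ind
    by_cases hpr : p ≡ r [MOD q]
    · rw [if_pos hpr, if_pos ((ZMod.natCast_eq_natCast_iff p r q).2 hpr), mul_one]
    · rw [if_neg hpr, if_neg (fun h => hpr ((ZMod.natCast_eq_natCast_iff p r q).1 h)), mul_zero]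
  rw [sum_congr rfl (fun p _ => h2 p), ← sum_filter, filter_filter]
  refine sum_congr ?_ fun _ _ => rfl
  ext p
  simp only [mem_filter, mem_Icc, mem_range]
  constructor
  · rintro ⟨⟨h3, h4⟩, h5, h6⟩
    exact ⟨by omega, h5, h6⟩
  · rintro ⟨h4, h5, h6⟩
    exact ⟨⟨h5.one_lt.le, by omega⟩, h5, h6⟩

theorem hasMean_one : HasMean (fun _ => 1) 1 := by
  have h := hasMean_ind (q := 1) (r := 0) one_pos (by norm_num)
  simp only [Nat.totient_one, Nat.cast_one, inv_one] at h
  have h2 : ind 1 0 = fun _ => 1 := by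
    funext p
    unfold ind
    rw [if_pos (Nat.modEq_one)]
  rwa [h2] at h

/-- the mean of a product of two indicators -/
noncomputable def D (q r q' r' : ℕ) : ℝ :=
  if r ≡ r' [MOD Nat.gcd q q'] then
    ((Nat.gcd q q').totient : ℝ) / ((q.totient : ℝ) * (q'.totient : ℝ)) else 0

theorem totient_gcd_mul_lcm (a b : ℕ) (ha : 0 < a) :
    (Nat.gcd a b).totient * (Nat.lcm a b).totient = a.totient * b.totient := by
  have h1 := Nat.totient_gcd_mul_totient_mul a b
  have h2 : ∀ g l : ℕ, g ∣ l → (g * l).totient = g * l.totient := by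
    intro g l hgl
    rcases Nat.eq_zero_or_pos l with h | h
    · subst h; simp
    · have h3 := Nat.totient_gcd_mul_totient_mul g l
      rw [Nat.gcd_eq_left hgl] at h3
      have hg : 0 < g.totient := Nat.totient_pos.2 (Nat.pos_of_dvd_of_pos hgl h)
      apply Nat.eq_of_mul_eq_mul_left hg
      rw [h3]; ring
  have hg : 0 < Nat.gcd a b := Nat.gcd_pos_of_pos_left _ ha
  rw [← Nat.gcd_mul_lcm a b, h2 _ _ ((Nat.gcd_dvd_left a b).trans (Nat.dvd_lcm_left a b))] at h1
  apply Nat.eq_of_mul_eq_mul_left hg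
  linarith

theorem hasMean_pair {q r q' r' : ℕ} (hq : 0 < q) (hq' : 0 < q') (hr : r.Coprime q)
    (hr' : r'.Coprime q') :
    HasMean (fun p => ind q r p * ind q' r' p) (D q r q' r') := by
  unfold D
  by_cases h : r ≡ r' [MOD Nat.gcd q q']
  · rw [if_pos h]
    obtain ⟨k, hk1, hk2⟩ := Nat.chineseRemainder' h
    have hL : 0 < Nat.lcm q q' := Nat.lcm_pos hq hq'
    have hkc : k.Coprime (Nat.lcm q q') := by
      have h1 : k.Coprime q := by
        have := Nat.ModEq.gcd_eq hk1
        rw [Nat.Coprime, this]; exact hr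
      have h2 : k.Coprime q' := by
        have := Nat.ModEq.gcd_eq hk2
        rw [Nat.Coprime, this]; exact hr'
      exact Nat.Coprime.coprime_dvd_right (Nat.lcm_dvd_mul q q') (Nat.Coprime.mul_right h1 h2)
    have h3 := hasMean_ind hL hkc
    have h4 : ind (Nat.lcm q q') k = fun p => ind q r p * ind q' r' p := by
      funext p
      unfold ind
      by_cases h5 : p ≡ k [MOD Nat.lcm q q']
      · have h6 : p ≡ r [MOD q] := (Nat.ModEq.of_dvd (Nat.dvd_lcm_left q q') h5).trans hk1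
        have h7 : p ≡ r' [MOD q'] := (Nat.ModEq.of_dvd (Nat.dvd_lcm_right q q') h5).trans hk2
        rw [if_pos h5, if_pos h6, if_pos h7, mul_one]
      · rw [if_neg h5]
        by_cases h6 : p ≡ r [MOD q]
        · have h7 : ¬ p ≡ r' [MOD q'] := by
            intro h7
            apply h5
            have h8 : p ≡ k [MOD q] := h6.trans hk1.symm
            have h9 : p ≡ k [MOD q'] := h7.trans hk2.symm
            rw [Nat.modEq_iff_dvd, Int.natCast_dvd] at h8 h9 ⊢
            exact Nat.lcm_dvd h8 h9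
          rw [if_neg h7, mul_zero]
        · rw [if_neg h6, zero_mul]
    rw [h4] at h3
    have h5 : (((Nat.lcm q q').totient : ℝ))⁻¹ =
        ((Nat.gcd q q').totient : ℝ) / ((q.totient : ℝ) * (q'.totient : ℝ)) := by
      have h6 := totient_gcd_mul_lcm q q' hq
      have h7 : ((Nat.gcd q q').totient : ℝ) * ((Nat.lcm q q').totient : ℝ) =
          (q.totient : ℝ) * (q'.totient : ℝ) := by exact_mod_cast h6
      have h8 : (0 : ℝ) < ((Nat.lcm q q').totient : ℝ) := by
        exact_mod_cast Nat.totient_pos.2 hL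
      have h9 : (0 : ℝ) < ((Nat.gcd q q').totient : ℝ) := by
        exact_mod_cast Nat.totient_pos.2 (Nat.gcd_pos_of_pos_left _ hq)
      rw [← h7]
      field_simp
    rw [h5] at h3
    exact h3
  · rw [if_neg h]
    have h4 : (fun p => ind q r p * ind q' r' p) = fun _ => 0 := by
      funext p
      unfold ind
      by_cases h6 : p ≡ r [MOD q]
      · have h7 : ¬ p ≡ r' [MOD q'] := by
          intro h7
          exact h ((Nat.ModEq.of_dvd (Nat.gcd_dvd_left q q') h6).symm.trans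
            (Nat.ModEq.of_dvd (Nat.gcd_dvd_right q q') h7))
        rw [if_neg h7, mul_zero]
      · rw [if_neg h6, zero_mul]
    rw [h4]
    exact hasMean_zero

/-- The second moment. -/
theorem hasMean_variance {ι : Type*} (T : Finset ι) (q r : ι → ℕ) (hq : ∀ t ∈ T, 0 < q t)
    (hr : ∀ t ∈ T, (r t).Coprime (q t)) (μ : ℝ) (hμ : μ = ∑ t ∈ T, ((q t).totient : ℝ)⁻¹) :
    HasMean (fun p => (∑ t ∈ T, ind (q t) (r t) p - μ) ^ 2)
      (∑ t ∈ T, ∑ t' ∈ T, D (q t) (r t) (q t') (r t') - μ ^ 2) := by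
  have h1 : HasMean (fun p => ∑ t ∈ T, ∑ t' ∈ T, ind (q t) (r t) p * ind (q t') (r t') p)
      (∑ t ∈ T, ∑ t' ∈ T, D (q t) (r t) (q t') (r t')) :=
    HasMean.sum T fun t ht => HasMean.sum T fun t' ht' =>
      hasMean_pair (hq t ht) (hq t' ht') (hr t ht) (hr t' ht')
  have h2 : HasMean (fun p => ∑ t ∈ T, ind (q t) (r t) p) μ := by
    rw [hμ]
    exact HasMean.sum T fun t ht => hasMean_ind (hq t ht) (hr t ht)
  have h3 := (h1.add (h2.const_mul (-2 * μ))).add (hasMean_one.const_mul (μ ^ 2))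
  have h4 : (fun p => ∑ t ∈ T, ∑ t' ∈ T, ind (q t) (r t) p * ind (q t') (r t') p +
      -2 * μ * ∑ t ∈ T, ind (q t) (r t) p + μ ^ 2 * 1) =
      fun p => (∑ t ∈ T, ind (q t) (r t) p - μ) ^ 2 := by
    funext p
    rw [← sum_mul_sum]
    ring
  rw [h4] at h3
  convert h3 using 1
  ring

theorem primeCounting_eq (n : ℕ) :
    (Nat.primeCounting n : ℝ) = ((range (n + 1)).filter Nat.Prime).card := by
  rw [Nat.primeCounting, Nat.primeCounting', Nat.count_eq_card_filter_range]

theorem sqrt_log_tendsto :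
    Tendsto (fun n : ℕ => ((n : ℝ).sqrt) * Real.log n / n) atTop (𝓝 0) := by
  have h1 : Tendsto (fun x : ℝ => Real.log x / x) atTop (𝓝 0) := by
    have := Real.tendsto_pow_log_div_mul_add_atTop 1 0 1 one_ne_zero
    simpa using this
  have h2 := ((h1.comp Real.tendsto_sqrt_atTop).comp
    (tendsto_natCast_atTop_atTop (R := ℝ))).const_mul 2
  rw [mul_zero] at h2
  refine h2.congr' ?_
  filter_upwards [eventually_gt_atTop 0] with n hn
  have hn0 : (0 : ℝ) < n := by exact_mod_cast hn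
  simp only [Function.comp]
  rw [Real.log_sqrt hn0.le]
  have h3 : Real.sqrt n * Real.sqrt n = n := Real.mul_self_sqrt hn0.le
  have h4 : 0 < Real.sqrt n := Real.sqrt_pos.2 hn0
  rw [mul_comm (Real.sqrt (n : ℝ)) (Real.log n), mul_div_assoc,
    show Real.sqrt (n : ℝ) / n = 1 / Real.sqrt n by
      rw [div_eq_div_iff hn0.ne' h4.ne', one_mul, h3]]
  field_simp

theorem log_div_tendsto : Tendsto (fun n : ℕ => Real.log n / n) atTop (𝓝 0) := by
  have := Real.tendsto_pow_log_div_mul_add_atTop 1 0 1 one_ne_zero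
  have h2 := this.comp (tendsto_natCast_atTop_atTop (R := ℝ))
  simpa [Function.comp_def] using h2

theorem wsum_one_le (n : ℕ) :
    wsum (fun _ => 1) n ≤ (Nat.primeCounting n : ℝ) * Real.log n := by
  unfold wsum
  rw [primeCounting_eq, ← nsmul_eq_mul]
  refine sum_le_card_nsmul _ _ _ fun p hp => ?_
  rw [mem_filter, mem_range] at hp
  rw [mul_one]
  exact Real.log_le_log (by exact_mod_cast hp.2.pos) (by exact_mod_cast (by omega : p ≤ n))

theorem wsum_one_pos {n : ℕ} (hn : 2 ≤ n) : 0 < wsum (fun _ => 1) n := by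
  unfold wsum
  refine sum_pos' (fun p hp => ?_) ⟨2, ?_, ?_⟩
  · rw [mul_one]; exact Real.log_natCast_nonneg p
  · rw [mem_filter, mem_range]; exact ⟨by omega, Nat.prime_two⟩
  · rw [mul_one]; exact Real.log_pos (by norm_num)

theorem card_large (Bad : ℕ → Prop) [DecidablePred Bad] (F : ℕ → ℝ) (hF0 : ∀ p, 0 ≤ F p)
    (p0 : ℕ) (hp0 : ∀ p : ℕ, p0 ≤ p → p.Prime → Bad p → 1 ≤ F p) (n : ℕ) (hn : 2 ≤ n) :
    (((range (n + 1)).filter
      (fun p => p.Prime ∧ (p0 ≤ p ∧ n < p ^ 2 ∧ Bad p))).card : ℝ) ≤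
      2 / Real.log n * wsum F n := by
  have hn0 : (0 : ℝ) < n := by positivity
  have hn1 : (1 : ℝ) < n := by exact_mod_cast (by omega : 1 < n)
  have hlogn : 0 < Real.log n := Real.log_pos hn1
  have h5 : (((range (n + 1)).filter
    (fun p => p.Prime ∧ (p0 ≤ p ∧ n < p ^ 2 ∧ Bad p))).card : ℝ) =
      ∑ p ∈ ((range (n + 1)).filter Nat.Prime).filter
        (fun p => p0 ≤ p ∧ n < p ^ 2 ∧ Bad p), (1 : ℝ) := by
    rw [filter_filter]; simp
  rw [h5, wsum, mul_sum, sum_filter]
  refine sum_le_sum fun p hp => ?_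
  have hp' := (mem_filter.1 hp).2
  have hlp : 0 ≤ Real.log p := Real.log_natCast_nonneg p
  split_ifs with h6
  · obtain ⟨h7, h8, h9⟩ := h6
    have h10 := hp0 p h7 hp' h9
    have h11 : Real.log n ≤ 2 * Real.log p := by
      have : (n : ℝ) ≤ (p : ℝ) ^ 2 := by exact_mod_cast h8.le
      calc Real.log n ≤ Real.log ((p : ℝ) ^ 2) := Real.log_le_log hn0 this
        _ = 2 * Real.log p := by rw [Real.log_pow]; norm_num
    calc (1 : ℝ) ≤ 2 * Real.log p / Real.log n := by
          rw [le_div_iff₀ hlogn]; linarith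
      _ = 2 / Real.log n * (Real.log p * 1) := by ring
      _ ≤ 2 / Real.log n * (Real.log p * F p) := by gcongr
  · have := hF0 p
    positivity

theorem card_bad_le (Bad : ℕ → Prop) [DecidablePred Bad] (F : ℕ → ℝ) (hF0 : ∀ p, 0 ≤ F p)
    (p0 : ℕ) (hp0 : ∀ p : ℕ, p0 ≤ p → p.Prime → Bad p → 1 ≤ F p) (n : ℕ) (hn : 2 ≤ n) :
    (((range (n + 1)).filter (fun p => p.Prime ∧ Bad p)).card : ℝ) ≤
      p0 + (Real.sqrt n + 1) + 2 / Real.log n * wsum F n := by
  have h1 : (range (n + 1)).filter (fun p => p.Prime ∧ Bad p) ⊆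
      range p0 ∪ (range (Nat.sqrt n + 1) ∪
      (range (n + 1)).filter (fun p => p.Prime ∧ (p0 ≤ p ∧ n < p ^ 2 ∧ Bad p))) := by
    intro p hp
    rw [mem_filter] at hp
    rw [mem_union, mem_union, mem_range, mem_range, mem_filter]
    by_cases h2 : p < p0
    · exact Or.inl h2
    · by_cases h3 : p < Nat.sqrt n + 1
      · exact Or.inr (Or.inl h3)
      · refine Or.inr (Or.inr ⟨hp.1, hp.2.1, by omega, ?_, hp.2.2⟩)
        have := Nat.sqrt_lt'.1 (by omega : Nat.sqrt n < p)
        exact this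
  have h2 := card_le_card h1
  have h3 := h2.trans ((card_union_le _ _).trans (add_le_add_right (card_union_le _ _) _))
  rw [card_range, card_range] at h3
  have h4 := card_large Bad F hF0 p0 hp0 n hn
  have h6 : ((Nat.sqrt n : ℕ) : ℝ) ≤ Real.sqrt n := Real.nat_sqrt_le_real_sqrt
  have h7 : ((((range (n + 1)).filter (fun p => p.Prime ∧ Bad p)).card : ℕ) : ℝ) ≤
      p0 + ((Nat.sqrt n : ℕ) + 1 + (((range (n + 1)).filter
      (fun p => p.Prime ∧ (p0 ≤ p ∧ n < p ^ 2 ∧ Bad p))).card : ℝ)) := by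
    exact_mod_cast h3
  linarith

theorem ratio_le (Bad : ℕ → Prop) [DecidablePred Bad] (F : ℕ → ℝ) (hF0 : ∀ p, 0 ≤ F p)
    (p0 : ℕ) (hp0 : ∀ p : ℕ, p0 ≤ p → p.Prime → Bad p → 1 ≤ F p) (n : ℕ) (hn : 2 ≤ n) :
    (((range (n + 1)).filter (fun p => p.Prime ∧ Bad p)).card : ℝ) / (Nat.primeCounting n : ℝ) ≤
      ((p0 : ℝ) * (Real.log n / n) + (((n : ℝ).sqrt) * Real.log n / n + Real.log n / n) +
        2 * (wsum F n / n)) / (wsum (fun _ => 1) n / n) := by
  have hn0 : (0 : ℝ) < n := by positivity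
  have hn1 : (1 : ℝ) < n := by exact_mod_cast (by omega : 1 < n)
  have hlogn : 0 < Real.log n := Real.log_pos hn1
  have hw1 := wsum_one_le n
  have hw2 := wsum_one_pos hn
  have hcard := card_bad_le Bad F hF0 p0 hp0 n hn
  have hpi0 : 0 < (Nat.primeCounting n : ℝ) := by
    have : 0 < (Nat.primeCounting n : ℝ) * Real.log n := hw2.trans_le hw1
    exact pos_of_mul_pos_left this hlogn.le
  have hwF : 0 ≤ wsum F n := by
    unfold wsum
    exact sum_nonneg fun p _ => mul_nonneg (Real.log_natCast_nonneg p) (hF0 p)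
  have h12 : wsum (fun _ => 1) n / Real.log n ≤ (Nat.primeCounting n : ℝ) := by
    rw [div_le_iff₀ hlogn]; exact hw1
  calc (((range (n + 1)).filter (fun p => p.Prime ∧ Bad p)).card : ℝ) /
        (Nat.primeCounting n : ℝ)
      ≤ (p0 + (Real.sqrt n + 1) + 2 / Real.log n * wsum F n) / (Nat.primeCounting n : ℝ) := by
        gcongr
    _ ≤ (p0 + (Real.sqrt n + 1) + 2 / Real.log n * wsum F n) /
        (wsum (fun _ => 1) n / Real.log n) := by
        gcongr
    _ = _ := by
        field_simp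

/-- From weighted means to counting. -/
theorem count_tendsto (Bad : ℕ → Prop) [DecidablePred Bad]
    (h : ∀ η : ℝ, 0 < η → ∃ F : ℕ → ℝ, (∀ p, 0 ≤ F p) ∧
      (∃ p0 : ℕ, ∀ p : ℕ, p0 ≤ p → p.Prime → Bad p → 1 ≤ F p) ∧ ∃ c < η, HasMean F c) :
    Tendsto (fun n : ℕ => (((range (n + 1)).filter (fun p => p.Prime ∧ Bad p)).card : ℝ) /
      (Nat.primeCounting n : ℝ)) atTop (𝓝 0) := by
  rw [Metric.tendsto_atTop']
  intro η hη
  obtain ⟨F, hF0, ⟨p0, hp0⟩, c, hc, hFc⟩ := h (η / 2) (by linarith)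
  have hlim : Tendsto (fun n : ℕ => ((p0 : ℝ) * (Real.log n / n) + (((n : ℝ).sqrt) * Real.log n / n +
        Real.log n / n) + 2 * (wsum F n / n)) / (wsum (fun _ => 1) n / n)) atTop
        (𝓝 (((p0 : ℝ) * 0 + (0 + 0) + 2 * c) / 1)) :=
    (((log_div_tendsto.const_mul _).add (sqrt_log_tendsto.add log_div_tendsto)).add
      (Tendsto.const_mul 2 hFc)).div (show Tendsto (fun n : ℕ => wsum (fun _ => 1) n / n) atTop
        (𝓝 1) from hasMean_one) one_ne_zero
  have hc2 : ((p0 : ℝ) * 0 + (0 + 0) + 2 * c) / 1 < η := by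
    have : ((p0 : ℝ) * 0 + (0 + 0) + 2 * c) / 1 = 2 * c := by ring
    rw [this]; linarith
  have hev := (hlim.eventually_lt_const hc2).and (eventually_ge_atTop 2)
  obtain ⟨n0, hn0⟩ := eventually_atTop.1 hev
  refine ⟨n0, fun n hn => ?_⟩
  obtain ⟨h1, h2⟩ := hn0 n hn.le
  rw [Real.dist_eq, sub_zero, abs_of_nonneg (by positivity)]
  exact (ratio_le Bad F hF0 p0 hp0 n h2).trans_lt h1

end MPf414f1
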