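import Mathlib
import Pool.Agent.Work.MP_f414f1_nt.Count
import Pool.Agent.Work.MP_f414f1_nt.Mean

/-!
The bound for the second moment.
-/

namespace MPf414f1

open Finset

theorem exists_class {N u q : ℕ} (hq : 0 < q) (hN : N.Coprime q) (hu : u.Coprime q) :
    ∃ r : ℕ, r.Coprime q ∧ N * r ≡ u [MOD q] := by
  obtain ⟨N', hN'⟩ := exists_inv hN hq
  have h1 : Nat.Coprime N' q := by
    have h2 : Nat.gcd (N * N') q = 1 := by rw [Nat.ModEq.gcd_eq hN']; simp
    exact Nat.Coprime.coprime_dvd_left (dvd_mul_left N' N) h2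
  refine ⟨N' * u, Nat.Coprime.mul_left h1 hu, ?_⟩
  calc N * (N' * u) = (N * N') * u := by ring
    _ ≡ 1 * u [MOD q] := Nat.ModEq.mul_right _ hN'
    _ = u := one_mul _

theorem D_nonneg (q r q' r' : ℕ) : 0 ≤ D q r q' r' := by
  unfold D
  split_ifs <;> positivity

theorem inner_le {a b : ℝ} (ha : 0 ≤ a) (hab : a ≤ b) {qi qj ri uj : ℕ} (hqi : 0 < qi)
    (hqj : 0 < qj) (hri : ri.Coprime qi) (huj : uj.Coprime qj) (rj : ℕ → ℕ)
    (hrj : ∀ N ∈ Wq a b qj, N * rj N ≡ uj [MOD qj]) :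
    ∑ N ∈ Wq a b qj, D qi ri qj (rj N) ≤
      (Wq a b qj).card / ((qi.totient : ℝ) * qj.totient) +
      2 * 2 ^ qj.primeFactors.card * ((Nat.gcd qi qj).totient : ℝ) /
        ((qi.totient : ℝ) * qj.totient) := by
  set d := Nat.gcd qi qj with hd
  have hd0 : 0 < d := Nat.gcd_pos_of_pos_left _ hqi
  have hdi : d ∣ qi := Nat.gcd_dvd_left _ _
  have hdj : d ∣ qj := Nat.gcd_dvd_right _ _
  have hrd : ri.Coprime d := Nat.Coprime.coprime_dvd_right hdi hri
  have hud : uj.Coprime d := Nat.Coprime.coprime_dvd_right hdj huj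
  obtain ⟨R, hR⟩ := exists_inv hrd hd0
  have hRd : Nat.Coprime R d := by
    have h2 : Nat.gcd (ri * R) d = 1 := by rw [Nat.ModEq.gcd_eq hR]; simp
    exact Nat.Coprime.coprime_dvd_left (dvd_mul_left R ri) h2
  have hc : Nat.Coprime (uj * R) d := Nat.Coprime.mul_left hud hRd
  have hφd : (0 : ℝ) < (d.totient : ℝ) := by exact_mod_cast Nat.totient_pos.2 hd0
  have hφi : (0 : ℝ) < (qi.totient : ℝ) := by exact_mod_cast Nat.totient_pos.2 hqi
  have hφj : (0 : ℝ) < (qj.totient : ℝ) := by exact_mod_cast Nat.totient_pos.2 hqj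
  have h1 : ∀ N ∈ Wq a b qj, D qi ri qj (rj N) ≤
      if N ≡ uj * R [MOD d] then (d.totient : ℝ) / ((qi.totient : ℝ) * qj.totient) else 0 := by
    intro N hN
    unfold D
    rw [← hd]
    by_cases h2 : ri ≡ rj N [MOD d]
    · have h3 : N * rj N ≡ uj [MOD d] := Nat.ModEq.of_dvd hdj (hrj N hN)
      have h4 : N ≡ uj * R [MOD d] := by
        calc N = N * 1 := (mul_one N).symm
          _ ≡ N * (ri * R) [MOD d] := Nat.ModEq.mul_left _ hR.symm
          _ = N * ri * R := by ring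
          _ ≡ N * rj N * R [MOD d] := Nat.ModEq.mul_right _ (Nat.ModEq.mul_left _ h2)
          _ ≡ uj * R [MOD d] := Nat.ModEq.mul_right _ h3
      rw [if_pos h2, if_pos h4]
    · rw [if_neg h2]
      split_ifs <;> positivity
  refine (sum_le_sum h1).trans ?_
  rw [← sum_filter, sum_const, nsmul_eq_mul]
  have h2 := card_Wq_modEq ha hab hqj hdj hc
  calc (((Wq a b qj).filter (fun N => N ≡ uj * R [MOD d])).card : ℝ) *
        ((d.totient : ℝ) / ((qi.totient : ℝ) * qj.totient))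
      ≤ ((Wq a b qj).card / d.totient + 2 * 2 ^ qj.primeFactors.card) *
        ((d.totient : ℝ) / ((qi.totient : ℝ) * qj.totient)) := by gcongr
    _ = _ := by field_simp

theorem second_le {ι : Type*} (I : Finset ι) (q u : ι → ℕ) (r : ι → ℕ → ℕ) {a b : ℝ}
    (ha : 0 ≤ a) (hab : a ≤ b) (hq : ∀ i ∈ I, 0 < q i) (hu : ∀ i ∈ I, (u i).Coprime (q i))
    (hr : ∀ i ∈ I, ∀ N ∈ Wq a b (q i), (r i N).Coprime (q i) ∧ N * r i N ≡ u i [MOD q i]) :
    ∑ i ∈ I, ∑ N ∈ Wq a b (q i), ∑ j ∈ I, ∑ N' ∈ Wq a b (q j), D (q i) (r i N) (q j) (r j N') ≤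
      (∑ i ∈ I, ((Wq a b (q i)).card : ℝ) / (q i).totient) ^ 2 +
      ∑ i ∈ I, ∑ j ∈ I, (Wq a b (q i)).card * (2 * 2 ^ (q j).primeFactors.card *
        ((Nat.gcd (q i) (q j)).totient : ℝ) / (((q i).totient : ℝ) * (q j).totient)) := by
  have h1 : ∑ i ∈ I, ∑ N ∈ Wq a b (q i), ∑ j ∈ I, ∑ N' ∈ Wq a b (q j),
      D (q i) (r i N) (q j) (r j N') ≤ ∑ i ∈ I, ∑ N ∈ Wq a b (q i), ∑ j ∈ I,
      ((Wq a b (q j)).card / (((q i).totient : ℝ) * (q j).totient) +
      2 * 2 ^ (q j).primeFactors.card * ((Nat.gcd (q i) (q j)).totient : ℝ) /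
        (((q i).totient : ℝ) * (q j).totient)) := by
    refine sum_le_sum fun i hi => sum_le_sum fun N hN => sum_le_sum fun j hj => ?_
    exact inner_le ha hab (hq i hi) (hq j hj) (hr i hi N hN).1 (hu j hj) (r j)
      (fun N' hN' => (hr j hj N' hN').2)
  refine h1.trans (le_of_eq ?_)
  rw [sq, sum_mul_sum, ← sum_add_distrib]
  refine sum_congr rfl fun i hi => ?_
  rw [sum_const, nsmul_eq_mul, mul_sum, ← sum_add_distrib]
  refine sum_congr rfl fun j hj => ?_
  have hφi : (0 : ℝ) < ((q i).totient : ℝ) := by exact_mod_cast Nat.totient_pos.2 (hq i hi)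
  have hφj : (0 : ℝ) < ((q j).totient : ℝ) := by exact_mod_cast Nat.totient_pos.2 (hq j hj)
  field_simp

theorem two_pow_le_divisors {n : ℕ} (hn : n ≠ 0) : 2 ^ n.primeFactors.card ≤ n.divisors.card := by
  rw [Nat.card_divisors hn, ← prod_const]
  refine prod_le_prod' fun p hp => ?_
  have := (Nat.prime_of_mem_primeFactors hp).factorization_pos_of_dvd hn
    (Nat.dvd_of_mem_primeFactors hp)
  omega

theorem self_le_divisors_mul_totient {n : ℕ} (hn : n ≠ 0) :
    n ≤ n.divisors.card * n.totient := by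
  calc n = ∑ d ∈ n.divisors, d.totient := (Nat.sum_totient n).symm
    _ ≤ ∑ d ∈ n.divisors, n.totient := by
        apply Finset.sum_le_sum
        intro d hd
        exact Nat.le_of_dvd (Nat.totient_pos.mpr (Nat.pos_of_ne_zero hn))
          (Nat.totient_dvd_of_dvd (Nat.dvd_of_mem_divisors hd))
    _ = _ := by simp

theorem error_le {ι : Type*} (I : Finset ι) (q : ι → ℕ) {a b : ℝ} {T W m : ℝ} (hm : 0 < m)
    (hq : ∀ i ∈ I, m ≤ q i) (hqT : ∀ i ∈ I, ((q i).divisors.card : ℝ) ≤ T)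
    (hW : ∀ i ∈ I, ((Wq a b (q i)).card : ℝ) ≤ W) :
    ∑ i ∈ I, ∑ j ∈ I, (Wq a b (q i)).card * (2 * 2 ^ (q j).primeFactors.card *
        ((Nat.gcd (q i) (q j)).totient : ℝ) / (((q i).totient : ℝ) * (q j).totient)) ≤
      2 * T ^ 3 * W / m ^ 2 * ∑ i ∈ I, ∑ j ∈ I, (Nat.gcd (q i) (q j) : ℝ) := by
  rw [mul_sum]
  refine sum_le_sum fun i hi => ?_
  rw [mul_sum]
  refine sum_le_sum fun j hj => ?_
  have hpos : ∀ i ∈ I, 0 < q i := by
    intro i hi
    have : (0 : ℝ) < q i := hm.trans_le (hq i hi)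
    exact_mod_cast this
  have hφ : ∀ i ∈ I, m / T ≤ ((q i).totient : ℝ) ∧ 0 < T := by
    intro i hi
    have h1 := self_le_divisors_mul_totient (hpos i hi).ne'
    have h2 : (q i : ℝ) ≤ ((q i).divisors.card : ℝ) * ((q i).totient : ℝ) := by exact_mod_cast h1
    have h3 : (1 : ℝ) ≤ ((q i).divisors.card : ℝ) := by
      exact_mod_cast Finset.card_pos.2 (Nat.nonempty_divisors.2 (hpos i hi).ne')
    have hT0 : 0 < T := by linarith [hqT i hi]
    refine ⟨?_, hT0⟩
    rw [div_le_iff₀ hT0]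
    calc m ≤ q i := hq i hi
      _ ≤ ((q i).divisors.card : ℝ) * ((q i).totient : ℝ) := h2
      _ ≤ T * ((q i).totient : ℝ) := by gcongr; exact hqT i hi
      _ = _ := mul_comm _ _
  obtain ⟨hφi, hT0⟩ := hφ i hi
  obtain ⟨hφj, _⟩ := hφ j hj
  have hmT : 0 < m / T := div_pos hm hT0
  have h2 : (2 : ℝ) ^ (q j).primeFactors.card ≤ T := by
    have : ((2 ^ (q j).primeFactors.card : ℕ) : ℝ) ≤ ((q j).divisors.card : ℝ) := by
      exact_mod_cast two_pow_le_divisors (hpos j hj).ne'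
    push_cast at this
    exact this.trans (hqT j hj)
  have h3 : ((Nat.gcd (q i) (q j)).totient : ℝ) ≤ (Nat.gcd (q i) (q j) : ℝ) := by
    exact_mod_cast Nat.totient_le _
  have hW0 : 0 ≤ W := (Nat.cast_nonneg _).trans (hW i hi)
  calc (Wq a b (q i)).card * (2 * 2 ^ (q j).primeFactors.card *
        ((Nat.gcd (q i) (q j)).totient : ℝ) / (((q i).totient : ℝ) * (q j).totient))
      ≤ W * (2 * T * (Nat.gcd (q i) (q j) : ℝ) / ((m / T) * (m / T))) := by
        gcongr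
        exact hW i hi
    _ = _ := by field_simp

theorem mean_ge {ι : Type*} (I : Finset ι) (q : ι → ℕ) {a b : ℝ} (ha : 0 ≤ a) (hab : a ≤ b)
    {T m c : ℝ} (hc : 0 ≤ c)
    (hq0 : ∀ i ∈ I, 0 < q i) (hq : ∀ i ∈ I, (q i : ℝ) ≤ m)
    (hqT : ∀ i ∈ I, ((q i).divisors.card : ℝ) ≤ T) (hX : c + T ^ 2 ≤ b - a) :
    I.card * (c / m) ≤ ∑ i ∈ I, ((Wq a b (q i)).card : ℝ) / (q i).totient := by
  rw [← nsmul_eq_mul]
  refine card_nsmul_le_sum _ _ _ fun i hi => ?_
  have hqi : (0 : ℝ) < q i := by exact_mod_cast hq0 i hi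
  have hφ : (0 : ℝ) < ((q i).totient : ℝ) := by exact_mod_cast Nat.totient_pos.2 (hq0 i hi)
  have h1 := (abs_le.1 (card_Wq ha hab (hq0 i hi))).1
  have h2 : (2 : ℝ) ^ (q i).primeFactors.card ≤ T := by
    have : ((2 ^ (q i).primeFactors.card : ℕ) : ℝ) ≤ ((q i).divisors.card : ℝ) := by
      exact_mod_cast two_pow_le_divisors (hq0 i hi).ne'
    push_cast at this
    exact this.trans (hqT i hi)
  have hT1 : 1 ≤ T := le_trans (one_le_pow₀ (by norm_num)) h2
  have h3 : (q i : ℝ) ≤ T * ((q i).totient : ℝ) := by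
    have h4 := self_le_divisors_mul_totient (hq0 i hi).ne'
    have h5 : (q i : ℝ) ≤ ((q i).divisors.card : ℝ) * ((q i).totient : ℝ) := by exact_mod_cast h4
    exact h5.trans (by gcongr; exact hqT i hi)
  have h4 : T / (q i).totient ≤ T ^ 2 / q i := by
    rw [div_le_div_iff₀ hφ hqi]
    nlinarith
  have h5 : (b - a) * ((q i).totient / q i) - T ≤ ((Wq a b (q i)).card : ℝ) := by linarith
  calc c / m ≤ c / q i := by gcongr; exact hq i hi
    _ ≤ (b - a - T ^ 2) / q i := by gcongr; linarith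
    _ = (b - a) / q i - T ^ 2 / q i := by ring
    _ ≤ (b - a) / q i - T / (q i).totient := by linarith
    _ = ((b - a) * ((q i).totient / q i) - T) / (q i).totient := by field_simp
    _ ≤ ((Wq a b (q i)).card : ℝ) / (q i).totient := by gcongr

end MPf414f1
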