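import Mathlib
import Pool.Agent.Work.MP_f414f1_nt.Defs

/-!
The quantity `m₃(p)`, its lower bound, and a family of good triples of fractions.
-/

namespace MPf414f1

open Finset

theorem dists_nonempty {p : ℕ} (hp : 2 ≤ p) : (dists p).Nonempty :=
  ⟨_, fun _ => 1, fun _ => 1, fun _ => ⟨le_rfl, Nat.le_sub_one_of_lt hp⟩,
    fun _ => ⟨le_rfl, Nat.le_sub_one_of_lt hp⟩, rfl⟩

theorem dists_bddBelow (p : ℕ) : BddBelow (dists p) :=
  ⟨0, by rintro v ⟨a, b, _, _, rfl⟩; exact abs_nonneg _⟩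

theorem dists_finite (p : ℕ) : (dists p).Finite := by
  have h : dists p ⊆ (fun ab : (Fin 3 → Fin p) × (Fin 3 → Fin p) =>
      |(∏ i, ((ab.1 i : ℕ) : ℝ) / ((ab.2 i : ℕ) : ℝ)) - p|) '' Set.univ := by
    rintro v ⟨a, b, ha, hb, rfl⟩
    refine ⟨(fun i => ⟨a i, ?_⟩, fun i => ⟨b i, ?_⟩), trivial, rfl⟩
    · have := ha i; omega
    · have := hb i; omega
  exact Set.Finite.subset (Set.finite_univ.image _) h

/-- `m₃(p)` is the minimum of the distances. -/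
theorem m3_isLeast {p : ℕ} (hp : 2 ≤ p) : IsLeast (dists p) (m3 p) :=
  ⟨(dists_nonempty hp).csInf_mem (dists_finite p), fun _ hv => csInf_le (dists_bddBelow p) hv⟩

theorem m3_le {p : ℕ} {v : ℝ} (hv : v ∈ dists p) : m3 p ≤ v :=
  csInf_le (dists_bddBelow p) hv

theorem le_dist {p : ℕ} (hp : p.Prime) {v : ℝ} (hv : v ∈ dists p) : 1 / (p : ℝ) ^ 2 ≤ v := by
  obtain ⟨a, b, ha, hb, rfl⟩ := hv
  have hp1 : (1 : ℝ) < p := by exact_mod_cast hp.one_lt
  have hA : ¬ p ∣ ∏ i, a i := by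
    intro h
    obtain ⟨i, _, hi⟩ := (Prime.dvd_finsetProd_iff hp.prime a).1 h
    have := Nat.le_of_dvd (ha i).1 hi
    have := (ha i).2
    have := hp.pos
    omega
  have hB : 0 < ∏ i, b i := prod_pos fun i _ => (hb i).1
  have hB' : (0 : ℝ) < ((∏ i, b i : ℕ) : ℝ) := by exact_mod_cast hB
  have hprod : (∏ i, (a i : ℝ) / (b i : ℝ)) = ((∏ i, a i : ℕ) : ℝ) / ((∏ i, b i : ℕ) : ℝ) := by
    push_cast
    rw [prod_div_distrib]
  rw [hprod]
  set A := ∏ i, a i with hAdef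
  set B := ∏ i, b i with hBdef
  have h1 : (1 : ℝ) ≤ |(A : ℝ) - p * B| := by
    have h2 : ((A : ℤ) - p * B) ≠ 0 := by
      intro h
      apply hA
      have : (A : ℤ) = p * B := by linarith
      exact ⟨B, by exact_mod_cast this⟩
    have h3 : (1 : ℤ) ≤ |(A : ℤ) - p * B| := Int.one_le_abs h2
    exact_mod_cast h3
  have h4 : |(A : ℝ) / B - p| = |(A : ℝ) - p * B| / B := by
    have : (A : ℝ) / B - p = ((A : ℝ) - p * B) / B := by field_simp
    rw [this, abs_div, abs_of_pos hB']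
  rcases le_or_gt 1 |(A : ℝ) / B - p| with h5 | h5
  · refine le_trans ?_ h5
    rw [div_le_one (by positivity)]
    nlinarith
  · have h6 : (p : ℝ) - 1 < (A : ℝ) / B := by
      have := (abs_lt.1 h5).1
      linarith
    rw [lt_div_iff₀ hB'] at h6
    have h7 : (A : ℝ) ≤ ((p : ℝ) - 1) ^ 3 := by
      have h8 : A ≤ (p - 1) ^ 3 := by
        have := Finset.prod_le_pow_card (Finset.univ : Finset (Fin 3)) a (p - 1)
          (fun i _ => (ha i).2)
        simpa using this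
      have h9 : ((p - 1 : ℕ) : ℝ) = (p : ℝ) - 1 := by
        rw [Nat.cast_sub hp.one_lt.le, Nat.cast_one]
      calc (A : ℝ) ≤ (((p - 1) ^ 3 : ℕ) : ℝ) := by exact_mod_cast h8
        _ = ((p : ℝ) - 1) ^ 3 := by rw [Nat.cast_pow, h9]
    have h10 : (B : ℝ) < ((p : ℝ) - 1) ^ 2 := by
      have h11 : ((p : ℝ) - 1) * B < ((p : ℝ) - 1) * ((p : ℝ) - 1) ^ 2 := by nlinarith
      exact lt_of_mul_lt_mul_left h11 (by linarith)
    have h12 : (B : ℝ) ≤ (p : ℝ) ^ 2 := by nlinarith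
    rw [h4]
    calc 1 / (p : ℝ) ^ 2 ≤ 1 / (B : ℝ) := one_div_le_one_div_of_le hB' h12
      _ ≤ |(A : ℝ) - p * B| / B := by gcongr

theorem one_le_m3 {p : ℕ} (hp : p.Prime) : 1 ≤ (p : ℝ) ^ 2 * m3 p := by
  have h := le_dist hp (m3_isLeast hp.two_le).1
  have hp0 : (0 : ℝ) < (p : ℝ) ^ 2 := by have := hp.pos; positivity
  rw [div_le_iff₀ hp0] at h
  linarith

theorem bound1 {p N k g h m1 R Q s : ℕ} (hk : N * p + Q = k * (m1 * R))
    (hs : k * m1 = h * s + 1) (hN : N * g + 1 ≤ R * h) (hp : g * Q < p) : g * s < p := by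
  by_contra hcon
  push Not at hcon
  have h1 : h * p ≤ g * (k * m1) := by
    calc h * p ≤ h * (g * s) := Nat.mul_le_mul_left _ hcon
      _ = g * (h * s) := by ring
      _ ≤ g * (k * m1) := Nat.mul_le_mul_left _ (by omega)
  have h2 : h * p * R ≤ g * (N * p + Q) := by
    calc h * p * R ≤ g * (k * m1) * R := Nat.mul_le_mul_right _ h1
      _ = g * (k * (m1 * R)) := by ring
      _ = g * (N * p + Q) := by rw [hk]
  have h3 : (N * g + 1) * p ≤ R * h * p := Nat.mul_le_mul_right _ hN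
  have h4 : g * (N * p + Q) < (N * g + 1) * p := by
    calc g * (N * p + Q) = N * g * p + g * Q := by ring
      _ < N * g * p + p := by omega
      _ = (N * g + 1) * p := by ring
  have h5 : R * h * p = h * p * R := by ring
  omega

theorem bound3 {p N k G H m3 R Q s : ℕ} (hk : N * p + Q = k * (m3 * R))
    (hs : k * m3 + 1 = G * s) (hN : N * H + 1 ≤ R * G) (hp : H * (Q + R) < p) : H * s < p := by
  by_contra hcon
  push Not at hcon
  have h1 : G * p ≤ H * (k * m3 + 1) := by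
    calc G * p ≤ G * (H * s) := Nat.mul_le_mul_left _ hcon
      _ = H * (G * s) := by ring
      _ = H * (k * m3 + 1) := by rw [hs]
  have h2 : G * p * R ≤ H * (N * p + Q + R) := by
    calc G * p * R ≤ H * (k * m3 + 1) * R := Nat.mul_le_mul_right _ h1
      _ = H * (k * (m3 * R) + R) := by ring
      _ = H * (N * p + Q + R) := by rw [hk]
  have h3 : (N * H + 1) * p ≤ R * G * p := Nat.mul_le_mul_right _ hN
  have h4 : H * (N * p + Q + R) < (N * H + 1) * p := by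
    calc H * (N * p + Q + R) = N * H * p + H * (Q + R) := by ring
      _ < N * H * p + p := by omega
      _ = (N * H + 1) * p := by ring
  have h5 : R * G * p = G * p * R := by ring
  omega

/-- The family. -/
theorem family {p N k g h m1 m2 s1 s2 s3 : ℕ} (hg : 1 ≤ g) (hh : 1 ≤ h) (hN1 : 1 ≤ N)
    (hk1 : 1 ≤ k) (hm1 : 2 ≤ m1) (hm2 : 2 ≤ m2)
    (hk : N * p + (m1 ^ 2 + m1 * m2 + m2 ^ 2) = k * (m1 * m2 * (m1 + m2)))
    (hs1 : k * m1 = h * s1 + 1) (hs2 : k * m2 = h * s2 + 1) (hs3 : k * (m1 + m2) + 1 = g ^ 2 * s3)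
    (hN2 : N * g + 1 ≤ m2 * (m1 + m2) * h) (hN3 : N * g + 1 ≤ m1 * (m1 + m2) * h)
    (hN4 : N * h ^ 2 + 1 ≤ m1 * m2 * g ^ 2) (hN5 : N + 1 ≤ m1 * m2 * (m1 + m2))
    (hp1 : g * (m1 ^ 2 + m1 * m2 + m2 ^ 2) < p)
    (hp2 : h ^ 2 * (m1 ^ 2 + m1 * m2 + m2 ^ 2 + m1 * m2) < p) (hp3 : N < p) :
    (p : ℝ) ^ 2 * m3 p ≤ ((m1 * m2 * (m1 + m2) : ℕ) : ℝ) ^ 2 / (N : ℝ) ^ 3 := by
  have hQp : m1 ^ 2 + m1 * m2 + m2 ^ 2 < p :=
    lt_of_le_of_lt (Nat.le_mul_of_pos_left _ hg) hp1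
  have ha1 : g * s1 < p := bound1 (R := m2 * (m1 + m2)) (by rw [hk]; ring) hs1 hN2 hp1
  have ha2 : g * s2 < p := bound1 (R := m1 * (m1 + m2)) (by rw [hk]; ring) hs2 hN3 hp1
  have ha3 : h ^ 2 * s3 < p := bound3 (R := m1 * m2) (by rw [hk]; ring) hs3 hN4 hp2
  have hkp : k < p := by
    by_contra hcon
    push Not at hcon
    have h1 : p * (m1 * m2 * (m1 + m2)) ≤ N * p + (m1 ^ 2 + m1 * m2 + m2 ^ 2) := by
      rw [hk]; exact Nat.mul_le_mul_right _ hcon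
    have h2 : (N + 1) * p ≤ m1 * m2 * (m1 + m2) * p := Nat.mul_le_mul_right _ hN5
    have h3 : (N + 1) * p = N * p + p := by ring
    have h4 : p * (m1 * m2 * (m1 + m2)) = m1 * m2 * (m1 + m2) * p := by ring
    omega
  have hkm1 : 2 ≤ k * m1 := by nlinarith
  have hkm2 : 2 ≤ k * m2 := by nlinarith
  have hs1' : 1 ≤ s1 := by
    rcases Nat.eq_zero_or_pos s1 with h0 | h0
    · rw [h0] at hs1; omega
    · exact h0
  have hs2' : 1 ≤ s2 := by
    rcases Nat.eq_zero_or_pos s2 with h0 | h0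
    · rw [h0] at hs2; omega
    · exact h0
  have hs3' : 1 ≤ s3 := by
    rcases Nat.eq_zero_or_pos s3 with h0 | h0
    · rw [h0] at hs3; omega
    · exact h0
  have hN0 : (0 : ℝ) < N := by exact_mod_cast hN1
  have hk0 : (0 : ℝ) < k := by exact_mod_cast hk1
  have hmem : 1 / ((N : ℝ) * (k : ℝ) ^ 2) ∈ dists p := by
    refine ⟨![g * s1, g * s2, h ^ 2 * s3], ![k, k, N], ?_, ?_, ?_⟩
    · intro i
      have h1 : 1 ≤ g * s1 := Nat.mul_pos hg hs1'
      have h2 : 1 ≤ g * s2 := Nat.mul_pos hg hs2'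
      have h3 : 1 ≤ h ^ 2 * s3 := Nat.mul_pos (by positivity) hs3'
      fin_cases i <;> simp only [Fin.zero_eta, Fin.mk_one, Fin.reduceFinMk, Matrix.cons_val] <;>
        omega
    · intro i
      fin_cases i <;> simp only [Fin.zero_eta, Fin.mk_one, Fin.reduceFinMk, Matrix.cons_val] <;>
        omega
    · have e1 : (k : ℝ) * m1 - 1 = h * s1 := by
        have : (k : ℝ) * m1 = h * s1 + 1 := by exact_mod_cast hs1
        linarith
      have e2 : (k : ℝ) * m2 - 1 = h * s2 := by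
        have : (k : ℝ) * m2 = h * s2 + 1 := by exact_mod_cast hs2
        linarith
      have e3 : (k : ℝ) * (m1 + m2) + 1 = g ^ 2 * s3 := by exact_mod_cast hs3
      have e4 : (N : ℝ) * p + (m1 ^ 2 + m1 * m2 + m2 ^ 2) = k * (m1 * m2 * (m1 + m2)) := by
        exact_mod_cast hk
      have e5 : ((g : ℝ) * s1) * (g * s2) * (h ^ 2 * s3) = p * N * k ^ 2 + 1 := by
        calc ((g : ℝ) * s1) * (g * s2) * (h ^ 2 * s3) = (h * s1) * (h * s2) * (g ^ 2 * s3) := by ring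
          _ = ((k : ℝ) * m1 - 1) * ((k : ℝ) * m2 - 1) * ((k : ℝ) * (m1 + m2) + 1) := by
              rw [e1, e2, e3]
          _ = k ^ 2 * (k * (m1 * m2 * (m1 + m2)) - (m1 ^ 2 + m1 * m2 + m2 ^ 2)) + 1 := by ring
          _ = k ^ 2 * (N * p) + 1 := by rw [← e4]; ring
          _ = p * N * k ^ 2 + 1 := by ring
      rw [Fin.prod_univ_three]
      simp only [Matrix.cons_val]
      push_cast
      have e6 : (g : ℝ) * s1 / k * (g * s2 / k) * (h ^ 2 * s3 / N) =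
          ((g : ℝ) * s1) * (g * s2) * (h ^ 2 * s3) / (N * k ^ 2) := by
        field_simp
      rw [e6, e5]
      have e7 : ((p : ℝ) * N * k ^ 2 + 1) / (N * k ^ 2) - p = 1 / (N * k ^ 2) := by
        field_simp
        ring
      rw [e7, abs_of_pos (by positivity)]
  have h1 := m3_le hmem
  have h2 : (N : ℝ) * p ≤ k * ((m1 * m2 * (m1 + m2) : ℕ) : ℝ) := by
    have : N * p ≤ k * (m1 * m2 * (m1 + m2)) := by omega
    exact_mod_cast this
  have hp0 : (0 : ℝ) ≤ p := Nat.cast_nonneg p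
  calc (p : ℝ) ^ 2 * m3 p ≤ (p : ℝ) ^ 2 * (1 / ((N : ℝ) * (k : ℝ) ^ 2)) := by gcongr
    _ = ((N : ℝ) * p) ^ 2 / ((N : ℝ) ^ 3 * k ^ 2) := by field_simp
    _ ≤ ((k : ℝ) * ((m1 * m2 * (m1 + m2) : ℕ) : ℝ)) ^ 2 / ((N : ℝ) ^ 3 * k ^ 2) := by gcongr
    _ = ((m1 * m2 * (m1 + m2) : ℕ) : ℝ) ^ 2 / (N : ℝ) ^ 3 := by field_simp

end MPf414f1
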