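import Mathlib
import Pool.Agent.Work.MP_f414f1_nt.Count
import Pool.Agent.Work.MP_f414f1_nt.Family

/-!
The events: residue classes in which a prime has a good triple of fractions.
-/

namespace MPf414f1

open Finset

/-- the product of the three numbers -/
def MM (i : ℕ × ℕ) : ℕ := i.1 * i.2 * (i.1 + i.2)

/-- the quadratic form -/
def QQ (i : ℕ × ℕ) : ℕ := i.1 ^ 2 + i.1 * i.2 + i.2 ^ 2

/-- the parameters -/
structure Par where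
  g : ℕ
  h : ℕ
  c : ℕ
  δ : ℝ
  hg : 1 ≤ g
  hh : 1 ≤ h
  hδ0 : 0 < δ
  hδ1 : δ ≤ 1
  hcop : Nat.Coprime h (g ^ 2)
  hc1 : c ≡ 1 [MOD h]
  hc2 : c + 2 ≡ 0 [MOD g ^ 2]
  hρ1 : 2 / (1 + δ) < ((g : ℝ) / h) ^ 3
  hρ2 : ((g : ℝ) / h) ^ 3 < 2

namespace Par

variable (P : Par)

/-- the modulus of the first numbers -/
def G : ℕ := P.h * P.g ^ 2

/-- the end of the range -/
noncomputable def top (x : ℕ) : ℕ := ⌊(1 + P.δ) * x⌋₊

/-- the prime members -/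
noncomputable def S1 (x : ℕ) : Finset ℕ :=
  (Ioc x (P.top x)).filter (fun l => l.Prime ∧ l ≡ 1 [MOD P.G])

/-- the second members -/
noncomputable def A2 (x : ℕ) : Finset ℕ :=
  (Ioc x (P.top x)).filter (fun m => m ≡ P.c [MOD P.G])

/-- the pairs -/
noncomputable def I (x : ℕ) : Finset (ℕ × ℕ) :=
  (P.S1 x ×ˢ P.A2 x).filter (fun i => i.1 ≠ i.2)

/-- lower end of the window -/
noncomputable def lo (x : ℕ) : ℝ := ((P.g : ℝ) / P.h) ^ 2 * (x : ℝ) ^ 2 / (1 + P.δ)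

/-- upper end of the window -/
noncomputable def hi (x : ℕ) : ℝ := ((P.g : ℝ) / P.h) ^ 2 * (x : ℝ) ^ 2

theorem G_pos : 0 < P.G := Nat.mul_pos P.hh (by have := P.hg; positivity)

theorem h_lt_g : P.h < P.g := by
  have h1 := P.hρ1
  have hδ := P.hδ0
  have hδ' := P.hδ1
  by_contra hcon
  push Not at hcon
  have hh0 : (0 : ℝ) < P.h := by exact_mod_cast P.hh
  have h2 : (P.g : ℝ) / P.h ≤ 1 := by
    rw [div_le_one hh0]; exact_mod_cast hcon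
  have h3 : ((P.g : ℝ) / P.h) ^ 3 ≤ 1 := pow_le_one₀ (by positivity) h2
  have h4 : 1 ≤ 2 / (1 + P.δ) := by
    rw [le_div_iff₀ (by linarith)]; linarith
  linarith

theorem g_cube_lt : P.g ^ 3 < 2 * P.h ^ 3 := by
  have h1 := P.hρ2
  have hh0 : (0 : ℝ) < P.h := by exact_mod_cast P.hh
  rw [div_pow, div_lt_iff₀ (by positivity)] at h1
  exact_mod_cast h1

theorem lo_nonneg (x : ℕ) : 0 ≤ P.lo x := by
  unfold lo
  have := P.hδ0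
  positivity

theorem lo_le_hi (x : ℕ) : P.lo x ≤ P.hi x := by
  unfold lo hi
  have := P.hδ0
  exact div_le_self (by positivity) (by linarith)

variable {P}

theorem mem_I {x : ℕ} {i : ℕ × ℕ} (hi : i ∈ P.I x) :
    x < i.1 ∧ i.1 ≤ 2 * x ∧ x < i.2 ∧ i.2 ≤ 2 * x ∧ Nat.Coprime i.1 i.2 ∧
    (i.1 : ℝ) ≤ (1 + P.δ) * x ∧ (i.2 : ℝ) ≤ (1 + P.δ) * x ∧ i.1 ≡ 1 [MOD P.G] ∧
    i.2 ≡ P.c [MOD P.G] ∧ i.1.Prime := by
  have hδ := P.hδ0
  have hδ' := P.hδ1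
  simp only [I, S1, A2, mem_filter, mem_product, mem_Ioc] at hi
  obtain ⟨⟨⟨⟨h1, h2⟩, h3, h4⟩, ⟨h5, h6⟩, h7⟩, h8⟩ := hi
  have hnn : (0 : ℝ) ≤ (1 + P.δ) * x := by positivity
  have h2' : (i.1 : ℝ) ≤ (1 + P.δ) * x := (Nat.le_floor_iff hnn).1 h2
  have h6' : (i.2 : ℝ) ≤ (1 + P.δ) * x := (Nat.le_floor_iff hnn).1 h6
  have hx0 : (0 : ℝ) ≤ x := Nat.cast_nonneg x
  have hb : (1 + P.δ) * x ≤ 2 * x := by nlinarith
  have h2'' : i.1 ≤ 2 * x := by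
    have : (i.1 : ℝ) ≤ ((2 * x : ℕ) : ℝ) := by push_cast; linarith
    exact_mod_cast this
  have h6'' : i.2 ≤ 2 * x := by
    have : (i.2 : ℝ) ≤ ((2 * x : ℕ) : ℝ) := by push_cast; linarith
    exact_mod_cast this
  refine ⟨h1, h2'', h5, h6'', ?_, h2', h6', h4, h7, h3⟩
  rw [Nat.Prime.coprime_iff_not_dvd h3]
  rintro ⟨k, hk⟩
  have hk2 : k < 2 := by
    by_contra hcon
    push Not at hcon
    have : i.1 * 2 ≤ i.1 * k := Nat.mul_le_mul_left _ hcon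
    omega
  have hk1 : k = 1 := by
    rcases Nat.eq_zero_or_pos k with h0 | h0
    · subst h0; omega
    · omega
  rw [hk1, mul_one] at hk
  exact h8 hk.symm

theorem QQ_le_MM {i : ℕ × ℕ} (h1 : 2 ≤ i.1) (h2 : 2 ≤ i.2) : QQ i + 3 ≤ MM i := by
  obtain ⟨a, ha⟩ := Nat.exists_eq_add_of_le h1
  obtain ⟨b, hb⟩ := Nat.exists_eq_add_of_le h2
  unfold QQ MM
  rw [ha, hb]
  nlinarith [Nat.zero_le (a * b), Nat.zero_le (a ^ 2 * b), Nat.zero_le (a * b ^ 2),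
    Nat.zero_le (a ^ 2), Nat.zero_le (b ^ 2)]

theorem h_dvd {x : ℕ} {i : ℕ × ℕ} (hi : i ∈ P.I x) :
    (∃ e, i.1 = 1 + P.h * P.g ^ 2 * e) ∧ (∃ e, i.2 = 1 + P.h * e) ∧
      ∃ f, i.2 + 2 = P.g ^ 2 * f := by
  obtain ⟨h1, h2, h3, h4, h5, h6, h7, h8, h9, h10⟩ := mem_I hi
  refine ⟨?_, ?_, ?_⟩
  · have h11 : P.G ∣ i.1 - 1 := (Nat.modEq_iff_dvd' (by omega)).1 h8.symm
    obtain ⟨e, he⟩ := h11
    refine ⟨e, ?_⟩
    have : i.1 - 1 = P.h * P.g ^ 2 * e := he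
    omega
  · have h12 : i.2 ≡ 1 [MOD P.h] := (Nat.ModEq.of_dvd (dvd_mul_right _ _) h9).trans P.hc1
    have h11 : P.h ∣ i.2 - 1 := (Nat.modEq_iff_dvd' (by omega)).1 h12.symm
    obtain ⟨e, he⟩ := h11
    exact ⟨e, by omega⟩
  · have h12 : i.2 + 2 ≡ 0 [MOD P.g ^ 2] :=
      (Nat.ModEq.add_right 2 (Nat.ModEq.of_dvd (dvd_mul_left _ _) h9)).trans P.hc2
    exact (Nat.modEq_zero_iff_dvd).1 h12

/-- the residue -/
def uu (i : ℕ × ℕ) : ℕ := MM i - QQ i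

theorem uu_succ {i : ℕ × ℕ} (h1 : 2 ≤ i.1) (h2 : 2 ≤ i.2) :
    uu i + 1 = (i.1 - 1) * (i.2 - 1) * (i.1 + i.2 + 1) := by
  have h := QQ_le_MM h1 h2
  obtain ⟨a, ha⟩ := Nat.exists_eq_add_of_le h1
  obtain ⟨b, hb⟩ := Nat.exists_eq_add_of_le h2
  unfold uu
  have h3 : MM i + 1 = (i.1 - 1) * (i.2 - 1) * (i.1 + i.2 + 1) + QQ i := by
    unfold MM QQ
    rw [ha, hb]
    have e1 : 2 + a - 1 = 1 + a := by omega
    have e2 : 2 + b - 1 = 1 + b := by omega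
    rw [e1, e2]
    ring
  omega

theorem uu_coprime {x : ℕ} (hx : 1 ≤ x) {i : ℕ × ℕ} (hi : i ∈ P.I x) :
    (uu i).Coprime (P.G * MM i) := by
  obtain ⟨h1, h2, h3, h4, h5, h6, h7, h8, h9, h10⟩ := mem_I hi
  obtain ⟨⟨e, he⟩, ⟨e', he'⟩, f, hf⟩ := h_dvd hi
  have h11 : 2 ≤ i.1 := by omega
  have h12 : 2 ≤ i.2 := by omega
  have hs := uu_succ h11 h12
  have hle := QQ_le_MM h11 h12
  -- a number `v` with `v + 1` a multiple of `y` is prime to `y`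
  have key : ∀ v y : ℕ, y ∣ v + 1 → Nat.Coprime v y := by
    intro v y hy
    have h13 : Nat.gcd v y ∣ v := Nat.gcd_dvd_left _ _
    have h14 : Nat.gcd v y ∣ v + 1 := (Nat.gcd_dvd_right _ _).trans hy
    exact Nat.dvd_one.1 ((Nat.dvd_add_right h13).1 h14)
  have hh : Nat.Coprime (uu i) P.h := by
    apply key
    rw [hs]
    refine Dvd.dvd.mul_right (Dvd.dvd.mul_right ?_ _) _
    exact ⟨P.g ^ 2 * e, by rw [he]; simp [mul_assoc]⟩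
  have hg : Nat.Coprime (uu i) (P.g ^ 2) := by
    apply key
    rw [hs]
    refine Dvd.dvd.mul_left ?_ _
    exact ⟨P.h * e + f, by rw [mul_add, ← hf, he]; ring⟩
  have hM : Nat.Coprime (uu i) (MM i) := by
    -- `gcd (u, M) ∣ Q` and `gcd (Q, M) = 1`
    have hQM : Nat.Coprime (QQ i) (MM i) := by
      have a1 : Nat.Coprime (QQ i) i.1 := by
        have : QQ i = i.2 ^ 2 + i.1 * (i.1 + i.2) := by unfold QQ; ring
        rw [this, Nat.coprime_add_mul_left_left]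
        exact Nat.Coprime.pow_left 2 h5.symm
      have a2 : Nat.Coprime (QQ i) i.2 := by
        have : QQ i = i.1 ^ 2 + i.2 * (i.1 + i.2) := by unfold QQ; ring
        rw [this, Nat.coprime_add_mul_left_left]
        exact Nat.Coprime.pow_left 2 h5
      have a3 : Nat.Coprime (QQ i) (i.1 + i.2) := by
        have : QQ i = i.1 ^ 2 + (i.1 + i.2) * i.2 := by unfold QQ; ring
        rw [this, Nat.coprime_add_mul_left_left]
        refine Nat.Coprime.pow_left 2 ?_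
        rw [Nat.coprime_self_add_right]
        exact h5
      unfold MM
      exact Nat.Coprime.mul_right (Nat.Coprime.mul_right a1 a2) a3
    have h13 : Nat.gcd (uu i) (MM i) ∣ QQ i := by
      have h14 : MM i = uu i + QQ i := by unfold uu; omega
      have h15 : Nat.gcd (uu i) (MM i) ∣ uu i + QQ i := h14 ▸ Nat.gcd_dvd_right _ _
      exact (Nat.dvd_add_right (Nat.gcd_dvd_left _ _)).1 h15
    have h16 : Nat.gcd (uu i) (MM i) ∣ Nat.gcd (QQ i) (MM i) :=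
      Nat.dvd_gcd h13 (Nat.gcd_dvd_right _ _)
    rw [hQM] at h16
    exact Nat.dvd_one.1 h16
  exact Nat.Coprime.mul_right (Nat.Coprime.mul_right hh hg) hM

theorem MM_bounds {x : ℕ} {i : ℕ × ℕ} (hi : i ∈ P.I x) :
    2 * x ^ 3 ≤ MM i ∧ MM i ≤ 16 * x ^ 3 ∧ QQ i ≤ 12 * x ^ 2 ∧
      (MM i : ℝ) ≤ 2 * (1 + P.δ) ^ 3 * (x : ℝ) ^ 3 := by
  obtain ⟨h1, h2, h3, h4, h5, h6, h7, h8, h9, h10⟩ := mem_I hi
  have hδ := P.hδ0
  refine ⟨?_, ?_, ?_, ?_⟩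
  · unfold MM
    calc 2 * x ^ 3 = x * x * (x + x) := by ring
      _ ≤ i.1 * i.2 * (i.1 + i.2) := by gcongr
  · unfold MM
    calc i.1 * i.2 * (i.1 + i.2) ≤ (2 * x) * (2 * x) * (2 * x + 2 * x) := by gcongr
      _ = 16 * x ^ 3 := by ring
  · unfold QQ
    calc i.1 ^ 2 + i.1 * i.2 + i.2 ^ 2 ≤ (2 * x) ^ 2 + (2 * x) * (2 * x) + (2 * x) ^ 2 := by gcongr
      _ = 12 * x ^ 2 := by ring
  · unfold MM
    push_cast
    calc (i.1 : ℝ) * i.2 * (i.1 + i.2)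
        ≤ ((1 + P.δ) * x) * ((1 + P.δ) * x) * ((1 + P.δ) * x + (1 + P.δ) * x) := by gcongr
      _ = _ := by ring

theorem window {x N : ℕ} (hx : 1 ≤ x) {q : ℕ} (hN : N ∈ Wq (P.lo x) (P.hi x) q) :
    1 ≤ N ∧ N * P.h ^ 2 ≤ P.g ^ 2 * x ^ 2 ∧ N * P.g < 2 * P.h * x ^ 2 ∧ N < 2 * x ^ 2 ∧
      4 * (x : ℝ) ^ 6 ≤ (1 + P.δ) ^ 5 * (N : ℝ) ^ 3 := by
  rw [mem_Wq (P.lo_nonneg x) (P.lo_le_hi x)] at hN
  obtain ⟨⟨h1, h2⟩, -⟩ := hN
  have hh0 : (0 : ℝ) < P.h := by exact_mod_cast P.hh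
  have hx0 : (0 : ℝ) < x := by exact_mod_cast hx
  have hδ := P.hδ0
  have hN0 : 1 ≤ N := by
    have : (0 : ℝ) < N := (P.lo_nonneg x).trans_lt h1
    exact_mod_cast this
  have h3 : N * P.h ^ 2 ≤ P.g ^ 2 * x ^ 2 := by
    unfold hi at h2
    rw [div_pow, div_mul_eq_mul_div, le_div_iff₀ (by positivity)] at h2
    exact_mod_cast h2
  have h4 : N * P.g < 2 * P.h * x ^ 2 := by
    have h5 : P.h ^ 2 * (N * P.g) < P.h ^ 2 * (2 * P.h * x ^ 2) := by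
      calc P.h ^ 2 * (N * P.g) = (N * P.h ^ 2) * P.g := by ring
        _ ≤ (P.g ^ 2 * x ^ 2) * P.g := Nat.mul_le_mul_right _ h3
        _ = P.g ^ 3 * x ^ 2 := by ring
        _ < 2 * P.h ^ 3 * x ^ 2 := Nat.mul_lt_mul_of_pos_right P.g_cube_lt (by positivity)
        _ = P.h ^ 2 * (2 * P.h * x ^ 2) := by ring
    exact Nat.lt_of_mul_lt_mul_left h5
  have h5 : N < 2 * x ^ 2 := by
    have h6 : N * P.g < 2 * x ^ 2 * P.g := by
      calc N * P.g < 2 * P.h * x ^ 2 := h4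
        _ = 2 * x ^ 2 * P.h := by ring
        _ ≤ 2 * x ^ 2 * P.g := Nat.mul_le_mul_left _ P.h_lt_g.le
    exact Nat.lt_of_mul_lt_mul_right h6
  refine ⟨hN0, h3, h4, h5, ?_⟩
  unfold lo at h1
  have hρ := P.hρ1
  have h6 : ((P.g : ℝ) / P.h) ^ 2 * (x : ℝ) ^ 2 < (1 + P.δ) * N := by
    rw [div_lt_iff₀ (by linarith)] at h1
    linarith
  have h7 : (((P.g : ℝ) / P.h) ^ 2 * (x : ℝ) ^ 2) ^ 3 ≤ ((1 + P.δ) * N) ^ 3 :=
    pow_le_pow_left₀ (by positivity) h6.le 3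
  have h8 : (2 / (1 + P.δ)) ^ 2 ≤ (((P.g : ℝ) / P.h) ^ 3) ^ 2 :=
    pow_le_pow_left₀ (by positivity) hρ.le 2
  have h9 : 4 * (x : ℝ) ^ 6 = (1 + P.δ) ^ 2 * ((2 / (1 + P.δ)) ^ 2 * (x : ℝ) ^ 6) := by
    field_simp
    norm_num
  rw [h9]
  calc (1 + P.δ) ^ 2 * ((2 / (1 + P.δ)) ^ 2 * (x : ℝ) ^ 6)
      ≤ (1 + P.δ) ^ 2 * ((((P.g : ℝ) / P.h) ^ 3) ^ 2 * (x : ℝ) ^ 6) := by gcongr
    _ = (1 + P.δ) ^ 2 * (((P.g : ℝ) / P.h) ^ 2 * (x : ℝ) ^ 2) ^ 3 := by ring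
    _ ≤ (1 + P.δ) ^ 2 * ((1 + P.δ) * N) ^ 3 := by gcongr
    _ = _ := by ring

/-- In an event the prime has a good triple of fractions. -/
theorem event_good {x : ℕ} (hx : 1 ≤ x) {i : ℕ × ℕ} (hi : i ∈ P.I x) {N : ℕ}
    (hN : N ∈ Wq (P.lo x) (P.hi x) (P.G * MM i)) {p : ℕ}
    (hp : 16 * (P.g + P.h ^ 2 + 1) * x ^ 3 < p) (hev : N * p ≡ uu i [MOD P.G * MM i]) :
    (p : ℝ) ^ 2 * m3 p ≤ (1 + P.δ) ^ 11 := by
  obtain ⟨h1, h2, h3, h4, h5, h6, h7, h8, h9, h10⟩ := mem_I hi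
  obtain ⟨hN1, hN2, hN3, hN4, hN5⟩ := window hx hN
  obtain ⟨hM1, hM2, hQ, hMR⟩ := MM_bounds hi
  obtain ⟨⟨e, he⟩, ⟨e', he'⟩, f, hf⟩ := h_dvd hi
  have h11 : 2 ≤ i.1 := by omega
  have h12 : 2 ≤ i.2 := by omega
  have hle := QQ_le_MM h11 h12
  have hδ := P.hδ0
  have hx23 : x ^ 2 ≤ x ^ 3 := Nat.pow_le_pow_right hx (by norm_num)
  have hp' : 16 * (P.g * x ^ 3) + 16 * (P.h ^ 2 * x ^ 3) + 16 * x ^ 3 < p := by
    calc 16 * (P.g * x ^ 3) + 16 * (P.h ^ 2 * x ^ 3) + 16 * x ^ 3 =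
        16 * (P.g + P.h ^ 2 + 1) * x ^ 3 := by ring
      _ < p := hp
  have hNp : MM i ≤ N * p := by
    calc MM i ≤ 16 * x ^ 3 := hM2
      _ ≤ p := by omega
      _ = 1 * p := (one_mul p).symm
      _ ≤ N * p := Nat.mul_le_mul_right _ hN1
  have huu : uu i + QQ i = MM i := by unfold uu; omega
  obtain ⟨j, hj⟩ := (Nat.modEq_iff_dvd' (by omega : uu i ≤ N * p)).1 hev.symm
  have hk : N * p + QQ i = (1 + P.h * P.g ^ 2 * j) * MM i := by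
    have h13 : N * p = uu i + P.G * MM i * j := by omega
    have h14 : N * p + QQ i = MM i + P.G * MM i * j := by omega
    rw [h14]
    unfold G
    ring
  have hres := family (p := p) (N := N) (k := 1 + P.h * P.g ^ 2 * j) (g := P.g) (h := P.h)
    (m1 := i.1) (m2 := i.2) (s1 := P.g ^ 2 * (j + e + P.h * P.g ^ 2 * j * e))
    (s2 := e' + P.g ^ 2 * j + P.h * P.g ^ 2 * j * e')
    (s3 := P.h * e + f + P.h * j * (i.1 + i.2)) P.hg P.hh hN1 (by omega) h11 h12 hk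
    (by rw [he]; ring) (by rw [he']; ring)
    (by
      have : i.1 + i.2 + 1 = P.g ^ 2 * (P.h * e + f) := by
        rw [mul_add, ← hf, he]; ring
      calc (1 + P.h * P.g ^ 2 * j) * (i.1 + i.2) + 1 =
          (i.1 + i.2 + 1) + P.g ^ 2 * (P.h * j * (i.1 + i.2)) := by ring
        _ = P.g ^ 2 * (P.h * e + f) + P.g ^ 2 * (P.h * j * (i.1 + i.2)) := by rw [this]
        _ = _ := by ring)
    (by
      calc N * P.g + 1 ≤ 2 * P.h * x ^ 2 := hN3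
        _ = x * (x + x) * P.h := by ring
        _ ≤ i.2 * (i.1 + i.2) * P.h := by gcongr)
    (by
      calc N * P.g + 1 ≤ 2 * P.h * x ^ 2 := hN3
        _ = x * (x + x) * P.h := by ring
        _ ≤ i.1 * (i.1 + i.2) * P.h := by gcongr)
    (by
      have h14 : x ^ 2 + 1 ≤ i.1 * i.2 := by
        calc x ^ 2 + 1 ≤ (x + 1) * (x + 1) := by nlinarith
          _ ≤ i.1 * i.2 := Nat.mul_le_mul h1 h3
      have h15 : 1 ≤ P.g ^ 2 := Nat.one_le_pow _ _ P.hg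
      calc N * P.h ^ 2 + 1 ≤ P.g ^ 2 * x ^ 2 + P.g ^ 2 := by omega
        _ = (x ^ 2 + 1) * P.g ^ 2 := by ring
        _ ≤ i.1 * i.2 * P.g ^ 2 := Nat.mul_le_mul_right _ h14)
    (by
      calc N + 1 ≤ 2 * x ^ 2 := hN4
        _ ≤ 2 * x ^ 3 := by omega
        _ ≤ MM i := hM1)
    (by
      calc P.g * (i.1 ^ 2 + i.1 * i.2 + i.2 ^ 2) ≤ P.g * (12 * x ^ 2) := Nat.mul_le_mul_left _ hQ
        _ ≤ P.g * (16 * x ^ 3) := Nat.mul_le_mul_left _ (by omega)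
        _ = 16 * (P.g * x ^ 3) := by ring
        _ < p := by omega)
    (by
      have h14 : i.1 * i.2 ≤ 4 * x ^ 2 := by
        calc i.1 * i.2 ≤ (2 * x) * (2 * x) := Nat.mul_le_mul h2 h4
          _ = 4 * x ^ 2 := by ring
      have hQ' : i.1 ^ 2 + i.1 * i.2 + i.2 ^ 2 ≤ 12 * x ^ 2 := hQ
      calc P.h ^ 2 * (i.1 ^ 2 + i.1 * i.2 + i.2 ^ 2 + i.1 * i.2) ≤ P.h ^ 2 * (16 * x ^ 3) :=
            Nat.mul_le_mul_left _ (by omega)
        _ = 16 * (P.h ^ 2 * x ^ 3) := by ring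
        _ < p := by omega)
    (by
      calc N < 2 * x ^ 2 := hN4
        _ ≤ 16 * x ^ 3 := by omega
        _ ≤ p := by omega)
  refine hres.trans ?_
  have hN0 : (0 : ℝ) < N := by exact_mod_cast hN1
  rw [div_le_iff₀ (by positivity)]
  have hM0 : (0 : ℝ) ≤ (MM i : ℝ) := Nat.cast_nonneg _
  calc ((i.1 * i.2 * (i.1 + i.2) : ℕ) : ℝ) ^ 2 = (MM i : ℝ) ^ 2 := rfl
    _ ≤ (2 * (1 + P.δ) ^ 3 * (x : ℝ) ^ 3) ^ 2 := by gcongr
    _ = (1 + P.δ) ^ 6 * (4 * (x : ℝ) ^ 6) := by ring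
    _ ≤ (1 + P.δ) ^ 6 * ((1 + P.δ) ^ 5 * (N : ℝ) ^ 3) := by gcongr
    _ = _ := by ring

end Par

end MPf414f1
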