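import Mathlib
import Pool.Agent.Work.WI.W5
import Pool.Agent.Work.MP_f414f1_nt.Event

/-!
Sizes of the index sets.
-/

namespace MPf414f1

open Finset Filter Topology

namespace Par

variable (P : Par)

theorem theta_diff_le (x : ℕ) (hx : 1 ≤ x) :
    WI.thetaAP (1 : ZMod P.G) ((1 + P.δ) * x) - WI.thetaAP (1 : ZMod P.G) x ≤
      (P.S1 x).card * Real.log ((1 + P.δ) * x) := by
  have hδ := P.hδ0
  have hx0 : (0 : ℝ) < x := by exact_mod_cast hx
  have hxx : (x : ℝ) ≤ (1 + P.δ) * x := by nlinarith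
  have h1 : WI.thetaAP (1 : ZMod P.G) ((1 + P.δ) * x) ≤ WI.thetaAP (1 : ZMod P.G) x +
      ∑ p ∈ P.S1 x, Real.log (p : ℝ) := by
    unfold WI.thetaAP
    rw [Nat.floor_natCast]
    have hsub : (Icc 1 ⌊(1 + P.δ) * (x : ℝ)⌋₊).filter
        (fun p : ℕ => p.Prime ∧ (p : ZMod P.G) = 1) ⊆
        (Icc 1 x).filter (fun p : ℕ => p.Prime ∧ (p : ZMod P.G) = 1) ∪ P.S1 x := by
      intro p hp
      rw [mem_filter, mem_Icc] at hp
      rw [mem_union, mem_filter, mem_Icc, S1, mem_filter, mem_Ioc]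
      by_cases h : p ≤ x
      · exact Or.inl ⟨⟨hp.1.1, h⟩, hp.2⟩
      · refine Or.inr ⟨⟨by omega, hp.1.2⟩, hp.2.1, ?_⟩
        have := hp.2.2
        have h3 : ((p : ℕ) : ZMod P.G) = ((1 : ℕ) : ZMod P.G) := by rw [this]; simp
        exact (ZMod.natCast_eq_natCast_iff _ _ _).1 h3
    have hnn : ∀ p : ℕ, 0 ≤ Real.log (p : ℝ) := fun p => Real.log_natCast_nonneg p
    refine (sum_le_sum_of_subset_of_nonneg hsub fun p _ _ => hnn p).trans ?_
    rw [← sum_union_inter]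
    have : 0 ≤ ∑ p ∈ (Icc 1 x).filter (fun p : ℕ => p.Prime ∧ (p : ZMod P.G) = 1) ∩ P.S1 x,
      Real.log (p : ℝ) := sum_nonneg fun p _ => hnn p
    linarith
  have h2 : ∑ p ∈ P.S1 x, Real.log (p : ℝ) ≤ (P.S1 x).card * Real.log ((1 + P.δ) * x) := by
    rw [← nsmul_eq_mul]
    refine sum_le_card_nsmul _ _ _ fun p hp => ?_
    rw [S1, mem_filter, mem_Ioc] at hp
    have h3 : (p : ℝ) ≤ (1 + P.δ) * x := (Nat.le_floor_iff (by positivity)).1 hp.1.2
    exact Real.log_le_log (by exact_mod_cast hp.2.1.pos) h3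
  linarith

theorem card_S1_ge : ∀ᶠ x : ℕ in atTop, Real.sqrt x ≤ (P.S1 x).card := by
  have hδ := P.hδ0
  have hδ1 := P.hδ1
  have : NeZero P.G := ⟨P.G_pos.ne'⟩
  have hφ : 0 < (((P.G).totient : ℝ)⁻¹) := by
    have : 0 < (P.G).totient := Nat.totient_pos.2 P.G_pos
    positivity
  have h1 := WI.thetaAP_tendsto (q := P.G) (a := 1) isUnit_one
  have h2 : Tendsto (fun x : ℝ => WI.thetaAP (1 : ZMod P.G) ((1 + P.δ) * x) / x) atTop
      (𝓝 ((1 + P.δ) * ((P.G).totient : ℝ)⁻¹)) := by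
    have h3 : Tendsto (fun x : ℝ => (1 + P.δ) * x) atTop atTop :=
      tendsto_id.const_mul_atTop (by linarith)
    have h4 := (h1.comp h3).const_mul (1 + P.δ)
    refine h4.congr' ?_
    filter_upwards [eventually_gt_atTop 0] with x hx
    simp only [Function.comp]
    have : (1 + P.δ) ≠ 0 := by linarith
    field_simp
  have h5 := (h2.sub h1).comp (tendsto_natCast_atTop_atTop (R := ℝ))
  have hc : P.δ / 2 * ((P.G).totient : ℝ)⁻¹ <
      (1 + P.δ) * ((P.G).totient : ℝ)⁻¹ - ((P.G).totient : ℝ)⁻¹ := by nlinarith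
  -- `log (2x) / √x → 0`
  have h6 : Tendsto (fun x : ℕ => Real.log ((1 + P.δ) * x) / Real.sqrt x) atTop (𝓝 0) := by
    have e1 : Tendsto (fun y : ℝ => Real.log y / y) atTop (𝓝 0) := by
      have := Real.tendsto_pow_log_div_mul_add_atTop 1 0 1 one_ne_zero
      simpa using this
    have e2 := ((e1.comp Real.tendsto_sqrt_atTop).comp
      (tendsto_natCast_atTop_atTop (R := ℝ))).const_mul 2
    have e3 : Tendsto (fun x : ℕ => Real.log (1 + P.δ) / Real.sqrt x) atTop (𝓝 0) :=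
      (Real.tendsto_sqrt_atTop.comp (tendsto_natCast_atTop_atTop (R := ℝ))).const_div_atTop _
    have e4 := e2.add e3
    rw [mul_zero, add_zero] at e4
    refine e4.congr' ?_
    filter_upwards [eventually_gt_atTop 0] with x hx
    have hx0 : (0 : ℝ) < x := by exact_mod_cast hx
    simp only [Function.comp]
    rw [Real.log_sqrt hx0.le, Real.log_mul (by linarith) hx0.ne']
    ring
  have hκ : 0 < P.δ / 2 * ((P.G).totient : ℝ)⁻¹ := by positivity
  filter_upwards [h5.eventually_const_lt hc, h6.eventually_lt_const hκ, eventually_ge_atTop 2]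
    with x hx1 hx2 hx3
  have hx0 : (0 : ℝ) < x := by positivity
  have hx2' : (1 : ℝ) < x := by exact_mod_cast (by omega : 1 < x)
  simp only [Function.comp] at hx1
  rw [← sub_div, lt_div_iff₀ hx0] at hx1
  have h7 := P.theta_diff_le x (by omega)
  have hs : 0 < Real.sqrt x := Real.sqrt_pos.2 hx0
  have hss : Real.sqrt x * Real.sqrt x = x := Real.mul_self_sqrt hx0.le
  rw [div_lt_iff₀ hs] at hx2
  have hL : 0 < Real.log ((1 + P.δ) * x) := Real.log_pos (by nlinarith)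
  have h8 : Real.sqrt x * Real.log ((1 + P.δ) * x) <
      (P.S1 x).card * Real.log ((1 + P.δ) * x) := by
    calc Real.sqrt x * Real.log ((1 + P.δ) * x)
        ≤ Real.sqrt x * (P.δ / 2 * ((P.G).totient : ℝ)⁻¹ * Real.sqrt x) := by gcongr
      _ = P.δ / 2 * ((P.G).totient : ℝ)⁻¹ * (Real.sqrt x * Real.sqrt x) := by ring
      _ = P.δ / 2 * ((P.G).totient : ℝ)⁻¹ * x := by rw [hss]
      _ < _ := hx1.trans_le h7
  exact (lt_of_mul_lt_mul_right h8 hL.le).le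

theorem card_A2_ge (x : ℕ) : P.δ * x / P.G - 1 ≤ (P.A2 x).card := by
  have hδ := P.hδ0
  have h := card_base (x : ℝ) ((1 + P.δ) * x) (Nat.cast_nonneg _)
    (by nlinarith [Nat.cast_nonneg (α := ℝ) x]) P.G P.c P.G_pos
  rw [Nat.floor_natCast] at h
  have h2 := (abs_le.1 h).1
  have h3 : ((1 + P.δ) * x - x) / P.G = P.δ * x / P.G := by ring
  rw [h3] at h2
  have h4 : ((P.A2 x).card : ℝ) = (((Ioc x ⌊(1 + P.δ) * (x : ℝ)⌋₊).filter
    (fun N => N ≡ P.c [MOD P.G])).card : ℝ) := rfl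
  rw [h4]
  linarith

theorem card_I_ge (x : ℕ) : ((P.S1 x).card : ℝ) * (P.δ * x / P.G - 2) ≤ (P.I x).card := by
  classical
  have h1 : (P.S1 x ×ˢ P.A2 x).card ≤ (P.I x).card + (P.S1 x).card := by
    have h2 : P.S1 x ×ˢ P.A2 x ⊆ P.I x ∪ (P.S1 x).image (fun l => (l, l)) := by
      intro i hi
      rw [mem_union, I, mem_filter, mem_image]
      by_cases h : i.1 = i.2
      · exact Or.inr ⟨i.1, (mem_product.1 hi).1, Prod.ext rfl h⟩
      · exact Or.inl ⟨hi, h⟩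
    exact (card_le_card h2).trans ((card_union_le _ _).trans
      (Nat.add_le_add_left card_image_le _))
  rw [card_product] at h1
  have h3 : ((P.S1 x).card : ℝ) * (P.A2 x).card ≤ (P.I x).card + (P.S1 x).card := by
    exact_mod_cast h1
  have h4 := P.card_A2_ge x
  have h5 : (0 : ℝ) ≤ (P.S1 x).card := Nat.cast_nonneg _
  nlinarith

theorem window_length {x : ℕ} (hx : 1 ≤ x) : P.δ / 2 * (x : ℝ) ^ 2 ≤ P.hi x - P.lo x := by
  have hδ := P.hδ0
  have hδ1 := P.hδ1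
  have hh0 : (0 : ℝ) < P.h := by exact_mod_cast P.hh
  have h1 : (1 : ℝ) ≤ ((P.g : ℝ) / P.h) ^ 2 := by
    refine one_le_pow₀ ?_
    rw [one_le_div hh0]
    exact_mod_cast P.h_lt_g.le
  unfold hi lo
  have h2 : ((P.g : ℝ) / P.h) ^ 2 * (x : ℝ) ^ 2 - ((P.g : ℝ) / P.h) ^ 2 * (x : ℝ) ^ 2 / (1 + P.δ) =
      ((P.g : ℝ) / P.h) ^ 2 * (P.δ / (1 + P.δ)) * (x : ℝ) ^ 2 := by
    field_simp
    ring
  rw [h2]
  have h3 : P.δ / 2 ≤ P.δ / (1 + P.δ) := by gcongr; linarith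
  have h4 : 0 ≤ P.δ / (1 + P.δ) := by positivity
  calc P.δ / 2 * (x : ℝ) ^ 2 ≤ 1 * (P.δ / (1 + P.δ)) * (x : ℝ) ^ 2 := by
        rw [one_mul]; gcongr
    _ ≤ _ := by gcongr

variable {P}

theorem card_Wq_le {x : ℕ} (hx : 1 ≤ x) (q : ℕ) :
    ((Wq (P.lo x) (P.hi x) q).card : ℝ) ≤ 2 * (x : ℝ) ^ 2 := by
  have h1 : Wq (P.lo x) (P.hi x) q ⊆ Icc 1 (2 * x ^ 2) := by
    intro N hN
    obtain ⟨h2, -, -, h3, -⟩ := window hx hN
    rw [mem_Icc]
    exact ⟨h2, h3.le⟩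
  have h2 := card_le_card h1
  rw [Nat.card_Icc] at h2
  have h3 : (Wq (P.lo x) (P.hi x) q).card ≤ 2 * x ^ 2 := by omega
  exact_mod_cast h3

end Par

end MPf414f1
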