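import Mathlib
import Pool.Agent.Work.MP_e0aece_nt.DivisorBound
import Pool.Agent.Work.MP_f414f1_nt.Gcd
import Pool.Agent.Work.MP_f414f1_nt.Second
import Pool.Agent.Work.MP_f414f1_nt.Size

/-!
Assembly.
-/

namespace MPf414f1

open Finset Filter Topology

namespace Par

variable (P : Par)

/-- the moduli -/
def qq (i : ℕ × ℕ) : ℕ := P.G * MM i

variable {P}

theorem qq_bounds {x : ℕ} (hx : 1 ≤ x) {i : ℕ × ℕ} (hi : i ∈ P.I x) :
    0 < P.qq i ∧ 2 * (P.G : ℝ) * (x : ℝ) ^ 3 ≤ P.qq i ∧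
      (P.qq i : ℝ) ≤ 16 * P.G * (x : ℝ) ^ 3 := by
  obtain ⟨h1, h2, -, -⟩ := MM_bounds hi
  have hG := P.G_pos
  have hx3 : 1 ≤ x ^ 3 := Nat.one_le_pow _ _ hx
  have h1' : 2 * (x : ℝ) ^ 3 ≤ MM i := by exact_mod_cast h1
  have h2' : (MM i : ℝ) ≤ 16 * (x : ℝ) ^ 3 := by exact_mod_cast h2
  have hG' : (0 : ℝ) < P.G := by exact_mod_cast hG
  unfold qq
  refine ⟨Nat.mul_pos hG (by omega), ?_, ?_⟩
  · push_cast
    calc 2 * (P.G : ℝ) * (x : ℝ) ^ 3 = (P.G : ℝ) * (2 * (x : ℝ) ^ 3) := by ring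
      _ ≤ (P.G : ℝ) * (MM i : ℝ) := by gcongr
  · push_cast
    calc (P.G : ℝ) * (MM i : ℝ) ≤ (P.G : ℝ) * (16 * (x : ℝ) ^ 3) := by gcongr
      _ = _ := by ring

/-- the sum of the greatest common divisors of the moduli -/
theorem sum_gcd_qq_le {x : ℕ} (hx : 1 ≤ x) {T : ℝ}
    (hT : ∀ i ∈ P.I x, ((P.qq i).divisors.card : ℝ) ≤ T) :
    ∑ i ∈ P.I x, ∑ j ∈ P.I x, (Nat.gcd (P.qq i) (P.qq j) : ℝ) ≤
      (P.I x).card * (P.G * (T ^ 3 * (27 * (x : ℝ) ^ 3))) := by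
  rw [← nsmul_eq_mul]
  refine sum_le_card_nsmul _ _ _ fun i hi => ?_
  have h1 : ∀ j ∈ P.I x, (Nat.gcd (P.qq i) (P.qq j) : ℝ) =
      P.G * (Nat.gcd (MM i) (j.1 * j.2 * (j.1 + j.2)) : ℝ) := by
    intro j _
    unfold qq
    rw [Nat.gcd_mul_left]
    push_cast
    rfl
  rw [sum_congr rfl h1, ← mul_sum]
  have hG' : (0 : ℝ) < P.G := by exact_mod_cast P.G_pos
  obtain ⟨h2, -, -, -⟩ := MM_bounds hi
  have hx3 : 1 ≤ x ^ 3 := Nat.one_le_pow _ _ hx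
  have hM0 : MM i ≠ 0 := by omega
  have h3 := sum_gcd_le x hx (P.I x) (fun j hj => by
    obtain ⟨a1, a2, a3, a4, a5, -⟩ := mem_I hj
    exact ⟨mem_Ioc.2 ⟨a1, a2⟩, mem_Ioc.2 ⟨a3, a4⟩, a5⟩) (MM i) hM0
  have h4 : ((MM i).divisors.card : ℝ) ≤ T := by
    refine le_trans ?_ (hT i hi)
    have : (MM i).divisors ⊆ (P.qq i).divisors :=
      Nat.divisors_subset_of_dvd (qq_bounds hx hi).1.ne' (dvd_mul_left _ _)
    exact_mod_cast card_le_card this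
  have h5 : (0 : ℝ) ≤ ((MM i).divisors.card : ℝ) := Nat.cast_nonneg _
  calc (P.G : ℝ) * ∑ j ∈ P.I x, (Nat.gcd (MM i) (j.1 * j.2 * (j.1 + j.2)) : ℝ)
      ≤ P.G * (((MM i).divisors.card : ℝ) ^ 3 * (27 * (x : ℝ) ^ 3)) := by gcongr
    _ ≤ P.G * (T ^ 3 * (27 * (x : ℝ) ^ 3)) := by gcongr

/-- For each size of the parameters a function which is at least `1` on the bad primes and whose
mean is small. -/
theorem exists_F {x : ℕ} (hx : 1 ≤ x) {T : ℝ} (hT0 : 0 < T)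
    (hT : ∀ i ∈ P.I x, ((P.qq i).divisors.card : ℝ) ≤ T)
    (hT2 : T ^ 2 ≤ P.δ / 4 * (x : ℝ) ^ 2) (hI : 0 < (P.I x).card) :
    ∃ F : ℕ → ℝ, (∀ p, 0 ≤ F p) ∧
      (∀ p : ℕ, 16 * (P.g + P.h ^ 2 + 1) * x ^ 3 < p →
        (1 + P.δ) ^ 11 < (p : ℝ) ^ 2 * m3 p → 1 ≤ F p) ∧
      ∃ c ≤ 27 * 4096 * P.G * x * T ^ 6 / (P.δ ^ 2 * (P.I x).card), HasMean F c := by
  classical
  have hδ := P.hδ0
  have hx0 : (0 : ℝ) < x := by exact_mod_cast hx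
  have hG' : (0 : ℝ) < P.G := by exact_mod_cast P.G_pos
  have hlo := P.lo_nonneg x
  have hlh := P.lo_le_hi x
  have hq0 : ∀ i ∈ P.I x, 0 < P.qq i := fun i hi => (qq_bounds hx hi).1
  have huc : ∀ i ∈ P.I x, (uu i).Coprime (P.qq i) := fun i hi => uu_coprime hx hi
  have hex : ∀ i ∈ P.I x, ∀ N ∈ Wq (P.lo x) (P.hi x) (P.qq i),
      ∃ r : ℕ, r.Coprime (P.qq i) ∧ N * r ≡ uu i [MOD P.qq i] := by
    intro i hi N hN
    exact exists_class (hq0 i hi) ((mem_Wq hlo hlh).1 hN).2 (huc i hi)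
  choose! r hr using hex
  set W : ℕ → Finset ℕ := fun q => Wq (P.lo x) (P.hi x) q with hW
  set TT : Finset (Σ _ : ℕ × ℕ, ℕ) := (P.I x).sigma (fun i => W (P.qq i)) with hTT
  set μ : ℝ := ∑ t ∈ TT, ((P.qq t.1).totient : ℝ)⁻¹ with hμ
  have hμ2 : μ = ∑ i ∈ P.I x, ((Wq (P.lo x) (P.hi x) (P.qq i)).card : ℝ) / (P.qq i).totient := by
    rw [hμ, hTT, sum_sigma]
    refine sum_congr rfl fun i _ => ?_
    show ∑ _s ∈ Wq (P.lo x) (P.hi x) (P.qq i), (((P.qq i).totient : ℝ))⁻¹ = _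
    rw [sum_const, nsmul_eq_mul, div_eq_mul_inv]
  have hvar := hasMean_variance TT (fun t => P.qq t.1) (fun t => r t.1 t.2)
    (fun t ht => hq0 t.1 (mem_sigma.1 ht).1)
    (fun t ht => (hr t.1 (mem_sigma.1 ht).1 t.2 (mem_sigma.1 ht).2).1) μ hμ
  have hsec := second_le (P.I x) P.qq uu r hlo hlh hq0 huc hr
  rw [← hμ2] at hsec
  have hDD : ∑ t ∈ TT, ∑ t' ∈ TT, D (P.qq t.1) (r t.1 t.2) (P.qq t'.1) (r t'.1 t'.2) =
      ∑ i ∈ P.I x, ∑ N ∈ Wq (P.lo x) (P.hi x) (P.qq i), ∑ j ∈ P.I x,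
        ∑ N' ∈ Wq (P.lo x) (P.hi x) (P.qq j), D (P.qq i) (r i N) (P.qq j) (r j N') := by
    rw [hTT, sum_sigma]
    refine sum_congr rfl fun i _ => sum_congr rfl fun N _ => ?_
    rw [sum_sigma]
  have herr := error_le (P.I x) P.qq (a := P.lo x) (b := P.hi x) (T := T)
    (W := 2 * (x : ℝ) ^ 2) (m := 2 * (P.G : ℝ) * (x : ℝ) ^ 3) (by positivity)
    (fun i hi => (qq_bounds hx hi).2.1) hT (fun i _ => card_Wq_le hx _)
  have hgcd := sum_gcd_qq_le hx hT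
  have hmean := mean_ge (P.I x) P.qq hlo hlh (T := T) (m := 16 * P.G * (x : ℝ) ^ 3)
    (c := P.δ / 4 * (x : ℝ) ^ 2) (by positivity) hq0 (fun i hi => (qq_bounds hx hi).2.2) hT
    (by have := P.window_length hx; linarith)
  rw [← hμ2] at hmean
  have hIc : (0 : ℝ) < (P.I x).card := by exact_mod_cast hI
  set ν : ℝ := (P.I x).card * (P.δ / (64 * P.G * x)) with hν
  have hν0 : 0 < ν := by positivity
  have hνμ : ν ≤ μ := by
    refine le_trans (le_of_eq ?_) hmean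
    rw [hν]
    field_simp
    norm_num
  have hμ0 : 0 < μ := hν0.trans_le hνμ
  refine ⟨fun p => (1 / μ ^ 2) * (∑ t ∈ TT, ind (P.qq t.1) (r t.1 t.2) p - μ) ^ 2,
    fun p => by positivity, ?_, ?_⟩
  · intro p hp hbad
    have h0 : ∑ t ∈ TT, ind (P.qq t.1) (r t.1 t.2) p = 0 := by
      refine sum_eq_zero fun t ht => ?_
      rcases ind_zero_or_one (P.qq t.1) (r t.1 t.2) p with h | h
      · exact h
      · exfalso
        have h1 : p ≡ r t.1 t.2 [MOD P.qq t.1] := by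
          by_contra hcon
          unfold ind at h
          rw [if_neg hcon] at h
          exact zero_ne_one h
        have h2 := hr t.1 (mem_sigma.1 ht).1 t.2 (mem_sigma.1 ht).2
        have h3 : t.2 * p ≡ uu t.1 [MOD P.qq t.1] := (Nat.ModEq.mul_left _ h1).trans h2.2
        have h4 := event_good hx (mem_sigma.1 ht).1 (mem_sigma.1 ht).2 hp h3
        linarith
    show 1 ≤ (1 / μ ^ 2) * (∑ t ∈ TT, ind (P.qq t.1) (r t.1 t.2) p - μ) ^ 2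
    rw [h0]
    apply le_of_eq
    field_simp
    ring
  · refine ⟨_, ?_, hvar.const_mul (1 / μ ^ 2)⟩
    have h1 : ∑ t ∈ TT, ∑ t' ∈ TT, D (P.qq t.1) (r t.1 t.2) (P.qq t'.1) (r t'.1 t'.2) - μ ^ 2 ≤
        27 * T ^ 6 * (P.I x).card / (P.G * x) := by
      rw [hDD]
      have h2 : 2 * T ^ 3 * (2 * (x : ℝ) ^ 2) / (2 * (P.G : ℝ) * (x : ℝ) ^ 3) ^ 2 *
          ∑ i ∈ P.I x, ∑ j ∈ P.I x, (Nat.gcd (P.qq i) (P.qq j) : ℝ) ≤
          27 * T ^ 6 * (P.I x).card / (P.G * x) := by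
        calc _ ≤ 2 * T ^ 3 * (2 * (x : ℝ) ^ 2) / (2 * (P.G : ℝ) * (x : ℝ) ^ 3) ^ 2 *
              ((P.I x).card * (P.G * (T ^ 3 * (27 * (x : ℝ) ^ 3)))) := by gcongr
          _ = _ := by field_simp
      linarith
    calc 1 / μ ^ 2 * (∑ t ∈ TT, ∑ t' ∈ TT, D (P.qq t.1) (r t.1 t.2) (P.qq t'.1) (r t'.1 t'.2) -
          μ ^ 2) ≤ 1 / μ ^ 2 * (27 * T ^ 6 * (P.I x).card / (P.G * x)) := by gcongr
      _ ≤ 1 / ν ^ 2 * (27 * T ^ 6 * (P.I x).card / (P.G * x)) := by gcongr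
      _ = _ := by
          rw [hν]
          field_simp
          norm_num

end Par

end MPf414f1
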