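import Mathlib
import Pool.Agent.Work.MP_f414f1_nt.Final

/-!
The limit over the size of the parameters, and the choice of the parameters.
-/

namespace MPf414f1

open Finset Filter Topology

namespace Par

variable (P : Par)

theorem exists_small_F (η : ℝ) (hη : 0 < η) :
    ∃ F : ℕ → ℝ, (∀ p, 0 ≤ F p) ∧
      (∃ p0 : ℕ, ∀ p : ℕ, p0 ≤ p → (1 + P.δ) ^ 11 < (p : ℝ) ^ 2 * m3 p → 1 ≤ F p) ∧
      ∃ c < η, HasMean F c := by
  have hδ := P.hδ0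
  have hG' : (0 : ℝ) < P.G := by exact_mod_cast P.G_pos
  obtain ⟨C, hC, hdiv⟩ := Pool.Agent.Work.MP_e0aece_nt.exists_divisor_bound (1 / 72) (by norm_num)
  set K6 : ℝ := C ^ 6 * (16 * P.G : ℝ) ^ (1 / 12 : ℝ) with hK6
  set K2 : ℝ := C ^ 2 * (16 * P.G : ℝ) ^ (1 / 36 : ℝ) with hK2
  have hK6p : 0 < K6 := by positivity
  have hK2p : 0 < K2 := by positivity
  set K : ℝ := 27 * 4096 * P.G * K6 * (2 * P.G) / P.δ ^ 3 with hK
  have hKp : 0 < K := by positivity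
  have hlim : Tendsto (fun x : ℕ => K * (x : ℝ) ^ (-(1 / 4) : ℝ)) atTop (𝓝 0) := by
    have h1 := ((tendsto_rpow_neg_atTop (y := 1 / 4) (by norm_num)).comp
      (tendsto_natCast_atTop_atTop (R := ℝ))).const_mul K
    rw [mul_zero] at h1
    exact h1
  have hbig : Tendsto (fun x : ℕ => (x : ℝ)) atTop atTop := tendsto_natCast_atTop_atTop
  obtain ⟨x, hx1, hx2, hx3, hx4, hx5⟩ := ((hlim.eventually_lt_const hη).and
    ((P.card_S1_ge).and ((hbig.eventually_ge_atTop (K2 * 4 / P.δ)).and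
    ((hbig.eventually_ge_atTop (4 * P.G / P.δ)).and (eventually_ge_atTop 1))))).exists
  have hx0 : (0 : ℝ) < x := by exact_mod_cast hx5
  have hx1' : (1 : ℝ) ≤ x := by exact_mod_cast hx5
  set T : ℝ := C * (16 * P.G * (x : ℝ) ^ 3) ^ (1 / 72 : ℝ) with hTdef
  have hT0 : 0 < T := by positivity
  have hT : ∀ i ∈ P.I x, ((P.qq i).divisors.card : ℝ) ≤ T := by
    intro i hi
    obtain ⟨h1, -, h3⟩ := qq_bounds hx5 hi
    refine (hdiv _ h1).trans ?_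
    rw [hTdef]
    gcongr
  have hT6 : T ^ 6 = K6 * (x : ℝ) ^ (1 / 4 : ℝ) := by
    rw [hTdef, hK6, mul_pow, ← Real.rpow_natCast ((16 * P.G * (x : ℝ) ^ 3) ^ (1 / 72 : ℝ)) 6,
      ← Real.rpow_mul (by positivity), Real.mul_rpow (by positivity) (by positivity),
      ← Real.rpow_natCast (x : ℝ) 3, ← Real.rpow_mul hx0.le]
    norm_num
    ring
  have hT2 : T ^ 2 ≤ P.δ / 4 * (x : ℝ) ^ 2 := by
    have e1 : T ^ 2 = K2 * (x : ℝ) ^ (1 / 12 : ℝ) := by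
      rw [hTdef, hK2, mul_pow, ← Real.rpow_natCast ((16 * P.G * (x : ℝ) ^ 3) ^ (1 / 72 : ℝ)) 2,
        ← Real.rpow_mul (by positivity), Real.mul_rpow (by positivity) (by positivity),
        ← Real.rpow_natCast (x : ℝ) 3, ← Real.rpow_mul hx0.le]
      norm_num
      ring
    have e2 : (x : ℝ) ^ (1 / 12 : ℝ) ≤ x := by
      calc (x : ℝ) ^ (1 / 12 : ℝ) ≤ (x : ℝ) ^ (1 : ℝ) :=
            Real.rpow_le_rpow_of_exponent_le hx1' (by norm_num)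
        _ = x := Real.rpow_one _
    have e3 : K2 ≤ P.δ / 4 * x := by
      rw [div_le_iff₀ hδ] at hx3
      linarith
    rw [e1]
    calc K2 * (x : ℝ) ^ (1 / 12 : ℝ) ≤ (P.δ / 4 * x) * x := by gcongr
      _ = _ := by ring
  have hs : 0 < Real.sqrt x := Real.sqrt_pos.2 hx0
  have hIc : Real.sqrt x * (P.δ * x / (2 * P.G)) ≤ (P.I x).card := by
    refine le_trans ?_ (P.card_I_ge x)
    have e1 : P.δ * x / (2 * P.G) ≤ P.δ * x / P.G - 2 := by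
      have : 2 ≤ P.δ * x / (2 * P.G) := by
        rw [le_div_iff₀ (by positivity)]
        rw [div_le_iff₀ hδ] at hx4
        linarith
      have e2 : P.δ * x / P.G = 2 * (P.δ * x / (2 * P.G)) := by field_simp
      linarith
    have e3 : 0 ≤ P.δ * x / (2 * P.G) := by positivity
    gcongr
  have hI0 : (0 : ℝ) < (P.I x).card := lt_of_lt_of_le (by positivity) hIc
  obtain ⟨F, hF0, hF1, c, hc, hFc⟩ := exists_F hx5 hT0 hT hT2 (by exact_mod_cast hI0)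
  refine ⟨F, hF0, ⟨16 * (P.g + P.h ^ 2 + 1) * x ^ 3 + 1, fun p hp hb => hF1 p (by omega) hb⟩,
    c, ?_, hFc⟩
  refine lt_of_le_of_lt (hc.trans ?_) hx1
  have hx4' : (x : ℝ) ^ (1 / 4 : ℝ) = Real.sqrt x * (x : ℝ) ^ (-(1 / 4) : ℝ) := by
    rw [Real.sqrt_eq_rpow, ← Real.rpow_add hx0]
    norm_num
  calc 27 * 4096 * P.G * x * T ^ 6 / (P.δ ^ 2 * (P.I x).card)
      ≤ 27 * 4096 * P.G * x * T ^ 6 / (P.δ ^ 2 * (Real.sqrt x * (P.δ * x / (2 * P.G)))) := by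
        gcongr
    _ = K * (x : ℝ) ^ (-(1 / 4) : ℝ) := by
        rw [hT6, hx4', hK]
        field_simp

end Par

theorem exists_par (ε : ℝ) (hε : 0 < ε) : ∃ P : Par, (1 + P.δ) ^ 11 < 1 + ε := by
  -- choose `δ`
  have hcont : Tendsto (fun δ : ℝ => (1 + δ) ^ 11) (𝓝[>] 0) (𝓝 ((1 + 0) ^ 11)) :=
    ((continuous_const.add continuous_id).pow 11).continuousAt.tendsto.mono_left
      nhdsWithin_le_nhds
  have h1 : ∀ᶠ δ : ℝ in 𝓝[>] 0, (1 + δ) ^ 11 < 1 + ε :=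
    hcont.eventually_lt_const (by norm_num; exact hε)
  have h2 : ∀ᶠ δ : ℝ in 𝓝[>] 0, δ ∈ Set.Ioc (0 : ℝ) 1 := Ioc_mem_nhdsGT one_pos
  obtain ⟨δ, hδ, hδ0, hδ1⟩ := (h1.and h2).exists
  -- choose `g / h`
  have h3 : 2 / (1 + δ) < 2 := by
    rw [div_lt_iff₀ (by linarith)]; linarith
  obtain ⟨ρ, hρ0, hρ1, hρ2⟩ := exists_rat_pow_btwn (K := ℝ) (n := 3) (by norm_num) h3 (by norm_num)
  have hnum : 0 < ρ.num := Rat.num_pos.2 hρ0
  have hρ : ((ρ.num.natAbs : ℝ)) / (ρ.den : ℝ) = (ρ : ℝ) := by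
    have e1 : ((ρ.num.natAbs : ℤ)) = ρ.num := Int.natAbs_of_nonneg hnum.le
    have e2 : ((ρ.num.natAbs : ℕ) : ℝ) = (ρ.num : ℝ) := by
      rw [← Int.cast_natCast (R := ℝ) ρ.num.natAbs, e1]
    rw [e2]
    exact_mod_cast (Rat.num_div_den ρ)
  have hcop : Nat.Coprime ρ.den (ρ.num.natAbs ^ 2) := Nat.Coprime.pow_right 2 ρ.reduced.symm
  set g := ρ.num.natAbs with hg
  set h := ρ.den with hh
  have hg1 : 1 ≤ g := Int.natAbs_pos.2 hnum.ne'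
  have hh1 : 1 ≤ h := ρ.den_pos
  obtain ⟨b, hb⟩ : ∃ b : ℕ, b + 2 ≡ 0 [MOD g ^ 2] := by
    have : 1 ≤ g ^ 2 := Nat.one_le_pow _ _ hg1
    refine ⟨2 * g ^ 2 - 2, (Nat.modEq_zero_iff_dvd).2 ?_⟩
    have : 2 * g ^ 2 - 2 + 2 = 2 * g ^ 2 := by omega
    rw [this]
    exact dvd_mul_left _ _
  obtain ⟨c, hc1, hc2⟩ := Nat.chineseRemainder hcop 1 b
  refine ⟨⟨g, h, c, δ, hg1, hh1, hδ0, hδ1, hcop, hc1, (Nat.ModEq.add_right 2 hc2).trans hb,
    ?_, ?_⟩, hδ⟩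
  · rw [hρ]; exact hρ1
  · rw [hρ]; exact hρ2

/-- For almost all primes `p` one has `|p² m₃(p) - 1| < ε`. -/
theorem almost_all (ε : ℝ) (hε : 0 < ε) :
    Tendsto (fun n : ℕ => (((Finset.range (n + 1)).filter
      (fun p : ℕ => p.Prime ∧ ε ≤ |(p : ℝ) ^ 2 * m3 p - 1|)).card : ℝ) /
      (Nat.primeCounting n : ℝ)) atTop (𝓝 0) := by
  obtain ⟨P, hP⟩ := exists_par ε hε
  refine count_tendsto (fun p : ℕ => ε ≤ |(p : ℝ) ^ 2 * m3 p - 1|) fun η hη => ?_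
  obtain ⟨F, hF0, ⟨p0, hp0⟩, hc⟩ := P.exists_small_F η hη
  refine ⟨F, hF0, ⟨p0, fun p hp hprime hbad => hp0 p hp ?_⟩, hc⟩
  have h1 := one_le_m3 hprime
  rw [abs_of_nonneg (by linarith)] at hbad
  linarith

end MPf414f1
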