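import Pool.Agent.Work.MP_f414f1_nt.Cov

/-!
Covering of the residue classes by polynomial identities: the verified checker.

An identity is encoded by the natural number with the digits
`s₁ t₁ s₂ t₂ s₃ t₃` (8 bits each), `u₁ u₂ u₃` (18 bits each, shifted by `2 ^ 17`),
`x₁ y₁ x₂ y₂` (28 bits each, the `y` are shifted by `2 ^ 27`).
-/

set_option autoImplicit false

namespace MPf414f1.Cov

def s1 (c : ℕ) : ℕ := c % 256
def t1 (c : ℕ) : ℕ := c / 2 ^ 8 % 256
def s2 (c : ℕ) : ℕ := c / 2 ^ 16 % 256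
def t2 (c : ℕ) : ℕ := c / 2 ^ 24 % 256
def s3 (c : ℕ) : ℕ := c / 2 ^ 32 % 256
def t3 (c : ℕ) : ℕ := c / 2 ^ 40 % 256
def v1 (c : ℕ) : ℕ := c / 2 ^ 48 % 262144
def v2 (c : ℕ) : ℕ := c / 2 ^ 66 % 262144
def v3 (c : ℕ) : ℕ := c / 2 ^ 84 % 262144
def x1 (c : ℕ) : ℕ := c / 2 ^ 102 % 268435456
def z1 (c : ℕ) : ℕ := c / 2 ^ 130 % 268435456
def x2 (c : ℕ) : ℕ := c / 2 ^ 158 % 268435456
def z2 (c : ℕ) : ℕ := c / 2 ^ 186 % 268435456

/-- conditions on one linear form, `v` is shifted by `o` -/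
def fOK (o s t v : ℕ) : Bool := Nat.blt 0 s && Nat.ble s t && (Nat.blt s t || Nat.blt o v)

/-- the polynomial identity -/
def pOK (S T g x1 x2 : ℕ) (s1 s2 s3 u1 u2 u3 y1 y2 : ℤ) : Bool :=
  Nat.beq (g * (x1 * x2)) S &&
  decide ((g : ℤ) * (x1 * y2 + x2 * y1) = u1 * (s2 * s3) + u2 * (s1 * s3) + u3 * (s1 * s2)) &&
  decide ((g : ℤ) * (y1 * y2) = u1 * u2 * s3 + u1 * u3 * s2 + u2 * u3 * s1) &&
  Nat.beq (u1 * u2 * u3).natAbs T

def S (c : ℕ) : ℕ := s1 c * s2 c * s3 c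
def T (c : ℕ) : ℕ := t1 c * t2 c * t3 c
def g (c : ℕ) : ℕ := S c / (x1 c * x2 c)

/-- check of an identity; the bound is `A / B` -/
def idOK (A B c : ℕ) : Bool :=
  fOK 131072 (s1 c) (t1 c) (v1 c) && fOK 131072 (s2 c) (t2 c) (v2 c) &&
  fOK 131072 (s3 c) (t3 c) (v3 c) && Nat.blt 0 (x1 c) && Nat.blt 0 (x2 c) &&
  Nat.ble (B * T c) (A * S c) &&
  pOK (S c) (T c) (g c) (x1 c) (x2 c) (s1 c) (s2 c) (s3 c) ((v1 c : ℤ) - 131072)
    ((v2 c : ℤ) - 131072) ((v3 c : ℤ) - 131072) ((z1 c : ℤ) - 134217728)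
    ((z2 c : ℤ) - 134217728)

/-- `t` divides `m` and `s r - (v - o)` -/
def dOK (o s t v r m : ℕ) : Bool :=
  Nat.beq (m % t) 0 && Nat.beq ((s * r + (o + t * o) - v) % t) 0 && Nat.ble v (o + t * o)

/-- the denominator `w` -/
def ww (o x z r m : ℕ) : ℕ := Nat.gcd ((x * r + o - z) + (z - (x * r + o))) m

def lOKw (c w1 w2 : ℕ) : Bool :=
  fOK 134217728 (x1 c) w1 (z1 c) && fOK 134217728 (x2 c) w2 (z2 c) &&
  Nat.beq (g c * (w1 * w2) % T c) 0 && Nat.ble (T c) (g c * (w1 * w2))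

/-- check of a leaf -/
def lOK (c r m : ℕ) : Bool :=
  dOK 131072 (s1 c) (t1 c) (v1 c) r m && dOK 131072 (s2 c) (t2 c) (v2 c) r m &&
  dOK 131072 (s3 c) (t3 c) (v3 c) r m &&
  lOKw c (ww 134217728 (x1 c) (z1 c) r m) (ww 134217728 (x2 c) (z2 c) r m)

theorem fOK_spec {o s t v : ℕ} (h : fOK o s t v = true) :
    0 < s ∧ s ≤ t ∧ (s = t → 0 < (v : ℤ) - o) := by
  simp only [fOK, Bool.and_eq_true, Bool.or_eq_true, Nat.blt_eq, Nat.ble_eq] at h
  refine ⟨h.1.1, h.1.2, ?_⟩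
  intro h1
  rcases h.2 with h2 | h2
  · omega
  · omega

theorem dOK_spec {o s t v r m : ℕ} (h : dOK o s t v r m = true) :
    t ∣ m ∧ (t : ℤ) ∣ s * r - ((v : ℤ) - o) := by
  simp only [dOK, Bool.and_eq_true, Nat.beq_eq, Nat.ble_eq] at h
  refine ⟨Nat.dvd_of_mod_eq_zero h.1.1, ?_⟩
  have h1 : t ∣ s * r + (o + t * o) - v := Nat.dvd_of_mod_eq_zero h.1.2
  have h2 : (t : ℤ) ∣ ((s * r + (o + t * o) - v : ℕ) : ℤ) := Int.natCast_dvd_natCast.2 h1
  rw [Nat.cast_sub (by omega)] at h2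
  push_cast at h2
  have h3 : (s : ℤ) * r - ((v : ℤ) - o) = (s * r + (o + t * o) - v) - t * o := by ring
  rw [h3]
  exact dvd_sub h2 (Dvd.intro _ rfl)

theorem ww_spec (o x z r m : ℕ) :
    ww o x z r m ∣ m ∧ ((ww o x z r m : ℕ) : ℤ) ∣ x * r - ((z : ℤ) - o) := by
  refine ⟨Nat.gcd_dvd_right _ _, ?_⟩
  have h1 : ww o x z r m ∣ (x * r + o - z) + (z - (x * r + o)) := Nat.gcd_dvd_left _ _
  have h2 := Int.natCast_dvd_natCast.2 h1
  rcases Nat.le_total z (x * r + o) with h | h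
  · have h3 : (((x * r + o - z) + (z - (x * r + o)) : ℕ) : ℤ) = x * r - ((z : ℤ) - o) := by
      rw [Nat.sub_eq_zero_of_le h, add_zero, Nat.cast_sub h]; push_cast; ring
    rwa [h3] at h2
  · have h3 : (((x * r + o - z) + (z - (x * r + o)) : ℕ) : ℤ) = -(x * r - ((z : ℤ) - o)) := by
      rw [Nat.sub_eq_zero_of_le h, zero_add, Nat.cast_sub h]; push_cast; ring
    rw [h3, dvd_neg] at h2
    exact h2

theorem lOK_spec {A B c r m : ℕ} (hB : 0 < B) (h1 : idOK A B c = true) (h2 : lOK c r m = true) :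
    Cls ((A : ℝ) / B) r m := by
  simp only [idOK, pOK, Bool.and_eq_true, Nat.beq_eq, Nat.ble_eq, Nat.blt_eq,
    decide_eq_true_eq] at h1
  simp only [lOK, lOKw, Bool.and_eq_true, Nat.beq_eq, Nat.ble_eq] at h2
  obtain ⟨⟨⟨⟨⟨⟨a1, a2⟩, a3⟩, a4⟩, a5⟩, a6⟩, ⟨⟨a7, a8⟩, a9⟩, a10⟩ := h1
  obtain ⟨⟨⟨b1, b2⟩, b3⟩, ⟨⟨b4, b5⟩, b6⟩, b7⟩ := h2
  have hT : 0 < T c := Nat.mul_pos (Nat.mul_pos (by have := fOK_spec a1; omega)
    (by have := fOK_spec a2; omega)) (by have := fOK_spec a3; omega)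
  have hc : 0 < g c * (ww 134217728 (x1 c) (z1 c) r m * ww 134217728 (x2 c) (z2 c) r m) / T c :=
    Nat.div_pos b7 hT
  refine leaf (c := g c * (ww 134217728 (x1 c) (z1 c) r m * ww 134217728 (x2 c) (z2 c) r m) / T c)
    (g := g c) (fOK_spec a1) (fOK_spec a2) (fOK_spec a3) (fOK_spec b4) (fOK_spec b5) hc
    (dOK_spec b1).1 (dOK_spec b2).1 (dOK_spec b3).1 (ww_spec _ _ _ _ _).1 (ww_spec _ _ _ _ _).1
    (dOK_spec b1).2 (dOK_spec b2).2 (dOK_spec b3).2 (ww_spec _ _ _ _ _).2 (ww_spec _ _ _ _ _).2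
    ?_ a7 a8 a9 a10 ?_
  · exact Nat.div_mul_cancel (Nat.dvd_of_mod_eq_zero b6)
  · rw [div_mul_eq_mul_div, le_div_iff₀ (by exact_mod_cast hB), mul_comm]
    exact_mod_cast a6

/-- the children of a residue class -/
def kids (q r m : ℕ) : ℕ → List (ℕ × ℕ)
  | 0 => []
  | j + 1 => bif Nat.beq ((r + j * m) % q) 0 then kids q r m j else
      (r + j * m, m * q) :: kids q r m j

theorem kids_spec {P : ℕ → ℕ → Prop} {q r m : ℕ} (hq : q ≠ 1) (n : ℕ)
    (h : ∀ x ∈ kids q r m n, P x.1 x.2) :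
    ∀ j < n, (q ∣ r + j * m ∧ q ≠ 1) ∨ P (r + j * m) (m * q) := by
  induction n with
  | zero => intro j hj; omega
  | succ n ih =>
    intro j hj
    simp only [kids, cond_eq_ite, Nat.beq_eq] at h
    split_ifs at h with h1
    · rcases Nat.lt_succ_iff_lt_or_eq.1 hj with h2 | h2
      · exact ih h j h2
      · subst h2; exact Or.inl ⟨Nat.dvd_of_mod_eq_zero h1, hq⟩
    · rcases Nat.lt_succ_iff_lt_or_eq.1 hj with h2 | h2
      · exact ih (fun x hx => h x (List.mem_cons_of_mem _ hx)) j h2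
      · subst h2; exact Or.inr (h _ List.mem_cons_self)

/-- the checker: a stack of residue classes is covered according to a list of instructions -/
def run (ok : ℕ → ℕ → ℕ → Bool) : List ℕ → List (ℕ × ℕ) → Bool
  | [], st => st.isEmpty
  | _ :: _, [] => false
  | t :: ts, (r, m) :: st =>
    Nat.beq r (t / 65536 % 281474976710656) && Nat.beq m (t / 2 ^ 64) &&
    bif Nat.blt (t % 65536) 256 then
      Nat.blt 1 (t % 65536) && run ok ts (kids (t % 65536) (t / 65536 % 281474976710656)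
        (t / 2 ^ 64) (t % 65536) ++ st)
    else ok (t % 65536 - 256) (t / 65536 % 281474976710656) (t / 2 ^ 64) && run ok ts st

theorem run_spec {P : ℕ → ℕ → Prop}
    (hsp : ∀ r m q, 1 < q → q < 256 →
      (∀ j < q, (q ∣ r + j * m ∧ q ≠ 1) ∨ P (r + j * m) (m * q)) → P r m)
    {ok : ℕ → ℕ → ℕ → Bool} (hok : ∀ k r m, ok k r m = true → P r m) (ts : List ℕ) :
    ∀ st : List (ℕ × ℕ), run ok ts st = true → ∀ x ∈ st, P x.1 x.2 := by
  induction ts with
  | nil =>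
    intro st h x hx
    rw [run, List.isEmpty_iff] at h
    rw [h] at hx
    exact absurd hx List.not_mem_nil
  | cons t ts ih =>
    intro st h
    rcases st with _ | ⟨⟨r, m⟩, st⟩
    · intro x hx; exact absurd hx List.not_mem_nil
    · rw [run, Bool.and_eq_true, Bool.and_eq_true, cond_eq_ite, Nat.beq_eq, Nat.beq_eq] at h
      obtain ⟨⟨h1, h2⟩, h3⟩ := h
      split_ifs at h3 with h4
      · rw [Bool.and_eq_true, Nat.blt_eq] at h3
        have h5 := ih _ h3.2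
        rw [← h1, ← h2] at h5
        intro x hx
        rcases List.mem_cons.1 hx with h6 | h6
        · subst h6
          rw [Nat.blt_eq] at h4
          refine hsp r m (t % 65536) h3.1 h4 (kids_spec (by omega) _ ?_)
          intro x hx
          exact h5 x (List.mem_append.2 (Or.inl hx))
        · exact h5 x (List.mem_append.2 (Or.inr h6))
      · rw [Bool.and_eq_true, ← h1, ← h2] at h3
        intro x hx
        rcases List.mem_cons.1 hx with h6 | h6
        · subst h6; exact hok _ _ _ h3.1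
        · exact ih _ h3.2 x h6

/-- the entry `i` of the table `D` -/
def ent (D i : ℕ) : ℕ := D / 2 ^ (214 * i) % 2 ^ 214

/-- check of the first `n` entries of the table -/
def tabOK (A B D : ℕ) : ℕ → Bool
  | 0 => true
  | n + 1 => idOK A B (ent D n) && tabOK A B D n

theorem tabOK_spec {A B D : ℕ} {n : ℕ} (h : tabOK A B D n = true) :
    ∀ i < n, idOK A B (ent D i) = true := by
  induction n with
  | zero => intro i hi; omega
  | succ n ih =>
    rw [tabOK, Bool.and_eq_true] at h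
    intro i hi
    rcases Nat.lt_succ_iff_lt_or_eq.1 hi with h2 | h2
    · exact ih h.2 i h2
    · subst h2; exact h.1

/-- check of a block: table `D` with `n` entries, instructions `ts`, residue class `r` mod `m` -/
def blk (A B D n : ℕ) (ts : List ℕ) (r m : ℕ) : Bool :=
  tabOK A B D n && run (fun k r m => Nat.blt k n && lOK (ent D k) r m) ts [(r, m)]

theorem blk_spec {A B D n : ℕ} {ts : List ℕ} {r m : ℕ} (hB : 0 < B)
    (h : blk A B D n ts r m = true) : Cls ((A : ℝ) / B) r m := by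
  rw [blk, Bool.and_eq_true] at h
  refine run_spec (P := Cls ((A : ℝ) / B)) (fun r m q h1 _ h => split (by omega) h) ?_ ts _ h.2
    (r, m) List.mem_cons_self
  intro k r m h1
  rw [Bool.and_eq_true, Nat.blt_eq] at h1
  exact lOK_spec hB (tabOK_spec h.1 k h1.1) h1.2

/-- check of the top of the tree, `L` is the list of the blocks -/
def top (L : List (ℕ × ℕ)) (ts : List ℕ) (r m : ℕ) : Bool :=
  run (fun _ r m => L.any (fun x => Nat.beq x.1 r && Nat.beq x.2 m)) ts [(r, m)]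

theorem top_spec {C : ℝ} {L : List (ℕ × ℕ)} (hL : ∀ x ∈ L, Cls C x.1 x.2) {ts : List ℕ}
    {r m : ℕ} (h : top L ts r m = true) : Cls C r m := by
  refine run_spec (P := Cls C) (fun r m q h1 _ h => split (by omega) h) ?_ ts _ h
    (r, m) List.mem_cons_self
  intro _ r m h1
  rw [List.any_eq_true] at h1
  obtain ⟨x, hx, h2⟩ := h1
  rw [Bool.and_eq_true, Nat.beq_eq, Nat.beq_eq] at h2
  have h3 := hL x hx
  rwa [h2.1, h2.2] at h3

theorem final {C : ℝ} (h : Cls C 0 1) (ε : ℝ) (hε : 0 < ε) :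
    ∀ᶠ p : ℕ in Filter.atTop, p.Prime → (p : ℝ) ^ 2 * m3 p ≤ C + ε := by
  filter_upwards [h ε hε] with p hp hpp
  exact hp hpp (by rw [Nat.mod_one, Nat.mod_one])

end MPf414f1.Cov
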