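import Pool.Agent.Work.MP_f414f1_nt.Defs

/-!
Covering of the residue classes by polynomial identities: the analytic part.
-/

set_option autoImplicit false

open Filter Topology

namespace MPf414f1.Cov

/-- all large primes `p` in the residue class of `r` modulo `m` satisfy `p² m₃(p) ≤ c + ε` -/
def Cls (c : ℝ) (r m : ℕ) : Prop :=
  ∀ ε : ℝ, 0 < ε → ∀ᶠ p : ℕ in atTop, p.Prime → p % m = r % m → (p : ℝ) ^ 2 * m3 p ≤ c + ε

theorem m3_le {p : ℕ} (a b : Fin 3 → ℕ) (ha : ∀ i, 1 ≤ a i ∧ a i ≤ p - 1)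
    (hb : ∀ i, 1 ≤ b i ∧ b i ≤ p - 1) : m3 p ≤ |(∏ i, (a i : ℝ) / (b i : ℝ)) - p| := by
  refine csInf_le ⟨0, ?_⟩ ⟨a, b, ha, hb, rfl⟩
  rintro v ⟨_, _, _, _, rfl⟩
  exact abs_nonneg _

/-- a linear form `(s p - u) / t` with `0 < s ≤ t` which is integral at `p`: its value lies
between `1` and `p - 1` when `p` is large -/
theorem form_mem {s t : ℕ} {u : ℤ} (hs : 0 < s) (hst : s ≤ t) (hu : s = t → 0 < u) :
    ∀ᶠ p : ℕ in atTop, (t : ℤ) ∣ s * p - u →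
      ∃ a : ℕ, 1 ≤ a ∧ a ≤ p - 1 ∧ (a : ℤ) * t = s * p - u := by
  filter_upwards [eventually_ge_atTop (t + u.natAbs + 1)] with p hp hd
  obtain ⟨k, hk⟩ := hd
  have ht : 0 < t := lt_of_lt_of_le hs hst
  have hab : |u| = (u.natAbs : ℤ) := Int.abs_eq_natAbs u
  have h1 : u ≤ u.natAbs := by rw [← hab]; exact le_abs_self u
  have h2 : -u ≤ u.natAbs := by rw [← hab]; exact neg_le_abs u
  have hp' : (t : ℤ) + u.natAbs + 1 ≤ p := by exact_mod_cast hp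
  have ht' : (0 : ℤ) < t := by exact_mod_cast ht
  have hs' : (1 : ℤ) ≤ s := by exact_mod_cast hs
  have hst' : (s : ℤ) ≤ t := by exact_mod_cast hst
  have hsp : (p : ℤ) ≤ s * p := by nlinarith
  have hk0 : 0 < k := by
    by_contra hcon
    have : (t : ℤ) * k ≤ 0 := by nlinarith
    omega
  have hkp : k < p := by
    by_contra hcon
    have h3 : (t : ℤ) * p ≤ t * k := by nlinarith
    rcases Nat.lt_or_ge s t with h4 | h4
    · have h5 : (s : ℤ) + 1 ≤ t := by exact_mod_cast h4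
      have h6 : (s : ℤ) * p + p ≤ t * p := by nlinarith
      omega
    · have h5 : s = t := le_antisymm hst h4
      have h6 := hu h5
      rw [h5] at hk
      omega
  refine ⟨k.toNat, ?_, ?_, ?_⟩
  · omega
  · omega
  · rw [Int.toNat_of_nonneg hk0.le, hk]; ring

theorem ratio_lim {x w : ℕ} {y : ℤ} (hx : 0 < x) (hw : 0 < w) :
    Tendsto (fun p : ℕ => (p : ℝ) / (((x : ℝ) * p - y) / w)) atTop (𝓝 ((w : ℝ) / x)) := by
  have h0 : Tendsto (fun p : ℕ => (y : ℝ) / (p : ℝ)) atTop (𝓝 0) :=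
    tendsto_const_div_atTop_nhds_zero_nat (y : ℝ)
  have hx' : (x : ℝ) ≠ 0 := by exact_mod_cast hx.ne'
  have h1 : Tendsto (fun p : ℕ => (w : ℝ) / ((x : ℝ) - (y : ℝ) / (p : ℝ))) atTop
      (𝓝 ((w : ℝ) / ((x : ℝ) - 0))) := by
    refine Tendsto.div tendsto_const_nhds (tendsto_const_nhds.sub h0) ?_
    rw [sub_zero]; exact hx'
  rw [sub_zero] at h1
  refine h1.congr' ?_
  filter_upwards [eventually_gt_atTop 0] with p hp
  have hp' : (p : ℝ) ≠ 0 := by exact_mod_cast hp.ne'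
  have e : (x : ℝ) - (y : ℝ) / (p : ℝ) = ((x : ℝ) * p - y) / p := by
    field_simp
  rw [e, div_div_eq_mul_div, div_div_eq_mul_div, mul_comm]

/-- a polynomial identity gives a bound in a residue class -/
theorem leaf {m r : ℕ} {s1 t1 s2 t2 s3 t3 x1 w1 x2 w2 c g : ℕ} {u1 u2 u3 y1 y2 : ℤ} {C : ℝ}
    (hs1 : 0 < s1 ∧ s1 ≤ t1 ∧ (s1 = t1 → 0 < u1)) (hs2 : 0 < s2 ∧ s2 ≤ t2 ∧ (s2 = t2 → 0 < u2))
    (hs3 : 0 < s3 ∧ s3 ≤ t3 ∧ (s3 = t3 → 0 < u3)) (hx1 : 0 < x1 ∧ x1 ≤ w1 ∧ (x1 = w1 → 0 < y1))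
    (hx2 : 0 < x2 ∧ x2 ≤ w2 ∧ (x2 = w2 → 0 < y2)) (hc : 0 < c)
    (hm1 : t1 ∣ m) (hm2 : t2 ∣ m) (hm3 : t3 ∣ m) (hn1 : w1 ∣ m) (hn2 : w2 ∣ m)
    (hr1 : (t1 : ℤ) ∣ s1 * r - u1) (hr2 : (t2 : ℤ) ∣ s2 * r - u2) (hr3 : (t3 : ℤ) ∣ s3 * r - u3)
    (hq1 : (w1 : ℤ) ∣ x1 * r - y1) (hq2 : (w2 : ℤ) ∣ x2 * r - y2)
    (hg : c * (t1 * t2 * t3) = g * (w1 * w2))
    (e3 : g * (x1 * x2) = s1 * s2 * s3)
    (e2 : (g : ℤ) * (x1 * y2 + x2 * y1) = u1 * (s2 * s3) + u2 * (s1 * s3) + u3 * (s1 * s2))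
    (e1 : (g : ℤ) * (y1 * y2) = u1 * u2 * s3 + u1 * u3 * s2 + u2 * u3 * s1)
    (e0 : (u1 * u2 * u3).natAbs = t1 * t2 * t3)
    (hC : ((t1 * t2 * t3 : ℕ) : ℝ) ≤ C * ((s1 * s2 * s3 : ℕ) : ℝ)) : Cls C r m := by
  intro ε hε
  have key : ∀ (p : ℕ) (t s : ℕ) (u : ℤ), t ∣ m → (t : ℤ) ∣ s * r - u → p % m = r % m →
      (t : ℤ) ∣ s * p - u := by
    intro p t s u h1 h2 h3
    have h4 : (m : ℤ) ∣ (p : ℤ) - r := (Nat.modEq_iff_dvd.1 (show r ≡ p [MOD m] from h3.symm))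
    have h5 : (t : ℤ) ∣ (p : ℤ) - r := (Int.natCast_dvd_natCast.2 h1).trans h4
    have h6 : (s : ℤ) * p - u = (s * r - u) + s * (p - r) := by ring
    rw [h6]
    exact dvd_add h2 (h5.mul_left _)
  have hT : 0 < t1 * t2 * t3 := Nat.mul_pos (Nat.mul_pos (by omega) (by omega)) (by omega)
  have hS : 0 < s1 * s2 * s3 := Nat.mul_pos (Nat.mul_pos hs1.1 hs2.1) hs3.1
  have hw1 : 0 < w1 := by omega
  have hw2 : 0 < w2 := by omega
  have hlim : Tendsto (fun p : ℕ => (p : ℝ) / (((x1 : ℝ) * p - y1) / w1) *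
      ((p : ℝ) / (((x2 : ℝ) * p - y2) / w2)) / c) atTop
      (𝓝 ((w1 : ℝ) / x1 * ((w2 : ℝ) / x2) / c)) :=
    ((ratio_lim hx1.1 hw1).mul (ratio_lim hx2.1 hw2)).div_const _
  have hval : (w1 : ℝ) / x1 * ((w2 : ℝ) / x2) / c ≤ C := by
    have hx1' : (0 : ℝ) < x1 := by exact_mod_cast hx1.1
    have hx2' : (0 : ℝ) < x2 := by exact_mod_cast hx2.1
    have hc' : (0 : ℝ) < c := by exact_mod_cast hc
    have hg' : (c : ℝ) * ((t1 * t2 * t3 : ℕ) : ℝ) = g * (w1 * w2) := by exact_mod_cast hg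
    have he3 : (g : ℝ) * (x1 * x2) = ((s1 * s2 * s3 : ℕ) : ℝ) := by exact_mod_cast e3
    have hg0 : (0 : ℝ) < g := by
      rcases Nat.eq_zero_or_pos g with h | h
      · rw [h, zero_mul] at e3; omega
      · exact_mod_cast h
    have e : (w1 : ℝ) / x1 * ((w2 : ℝ) / x2) / c =
        ((t1 * t2 * t3 : ℕ) : ℝ) / ((s1 * s2 * s3 : ℕ) : ℝ) := by
      rw [← he3, div_mul_div_comm, div_div, div_eq_div_iff (by positivity) (by positivity)]
      linear_combination (-(x1 : ℝ) * x2) * hg'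
    rw [e, div_le_iff₀ (by exact_mod_cast hS)]
    exact hC
  have hev : ∀ᶠ p : ℕ in atTop, (p : ℝ) / (((x1 : ℝ) * p - y1) / w1) *
      ((p : ℝ) / (((x2 : ℝ) * p - y2) / w2)) / c ≤ C + ε := by
    refine (hlim.eventually (ge_mem_nhds (lt_of_le_of_lt hval (lt_add_of_pos_right C hε)))).mono ?_
    intro p hp; exact hp
  filter_upwards [hev, form_mem hs1.1 hs1.2.1 hs1.2.2, form_mem hs2.1 hs2.2.1 hs2.2.2,
    form_mem hs3.1 hs3.2.1 hs3.2.2, form_mem hx1.1 hx1.2.1 hx1.2.2,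
    form_mem hx2.1 hx2.2.1 hx2.2.2, eventually_ge_atTop (c + 1)] with p h0 h1 h2 h3 h4 h5 h6 _ hp
  obtain ⟨a1, ha1, ha1', ha1''⟩ := h1 (key p t1 s1 u1 hm1 hr1 hp)
  obtain ⟨a2, ha2, ha2', ha2''⟩ := h2 (key p t2 s2 u2 hm2 hr2 hp)
  obtain ⟨a3, ha3, ha3', ha3''⟩ := h3 (key p t3 s3 u3 hm3 hr3 hp)
  obtain ⟨b1, hb1, hb1', hb1''⟩ := h4 (key p w1 x1 y1 hn1 hq1 hp)
  obtain ⟨b2, hb2, hb2', hb2''⟩ := h5 (key p w2 x2 y2 hn2 hq2 hp)
  have hm := m3_le (p := p) ![a1, a2, a3] ![b1, b2, c] (by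
      intro i; fin_cases i
      · exact ⟨ha1, ha1'⟩
      · exact ⟨ha2, ha2'⟩
      · exact ⟨ha3, ha3'⟩) (by
      intro i; fin_cases i
      · exact ⟨hb1, hb1'⟩
      · exact ⟨hb2, hb2'⟩
      · exact ⟨hc, by show c ≤ p - 1; omega⟩)
  have hint : ((a1 * a2 * a3 - p * (b1 * b2 * c) : ℤ) * (t1 * t2 * t3)).natAbs =
      t1 * t2 * t3 := by
    have hgz : (c : ℤ) * (t1 * t2 * t3) = g * (w1 * w2) := by exact_mod_cast hg
    have he3 : (g : ℤ) * (x1 * x2) = s1 * s2 * s3 := by exact_mod_cast e3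
    have e : (a1 * a2 * a3 - p * (b1 * b2 * c) : ℤ) * (t1 * t2 * t3) = - (u1 * u2 * u3) := by
      have h7 : (a1 * a2 * a3 : ℤ) * (t1 * t2 * t3) =
          (s1 * p - u1) * (s2 * p - u2) * (s3 * p - u3) := by
        rw [← ha1'', ← ha2'', ← ha3'']; ring
      have h8 : (p * (b1 * b2 * c) : ℤ) * (t1 * t2 * t3) =
          p * (g * ((x1 * p - y1) * (x2 * p - y2))) := by
        rw [← hb1'', ← hb2'']
        linear_combination ((p : ℤ) * b1 * b2) * hgz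
      rw [sub_mul, h7, h8]
      linear_combination (-(p : ℤ) ^ 3) * he3 + (p : ℤ) ^ 2 * e2 - (p : ℤ) * e1
    rw [e, Int.natAbs_neg, e0]
  have hone : ((a1 * a2 * a3 - p * (b1 * b2 * c) : ℤ)).natAbs = 1 := by
    rw [Int.natAbs_mul] at hint
    have h9 : ((t1 : ℤ) * t2 * t3).natAbs = t1 * t2 * t3 := by
      rw [Int.natAbs_mul, Int.natAbs_mul]; rfl
    rw [h9] at hint
    exact Nat.eq_of_mul_eq_mul_right hT (by rw [hint, one_mul])
  have hb1p : (0 : ℝ) < b1 := by exact_mod_cast hb1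
  have hb2p : (0 : ℝ) < b2 := by exact_mod_cast hb2
  have hcp : (0 : ℝ) < c := by exact_mod_cast hc
  have hdist : |(∏ i, ((![a1, a2, a3] : Fin 3 → ℕ) i : ℝ) / ((![b1, b2, c] : Fin 3 → ℕ) i : ℝ)) -
      p| = 1 / (b1 * b2 * c) := by
    have e4 : (∏ i, ((![a1, a2, a3] : Fin 3 → ℕ) i : ℝ) / ((![b1, b2, c] : Fin 3 → ℕ) i : ℝ)) - p
        = (a1 * a2 * a3 - p * (b1 * b2 * c)) / (b1 * b2 * c) := by
      rw [Fin.prod_univ_three]
      show (a1 : ℝ) / b1 * ((a2 : ℝ) / b2) * ((a3 : ℝ) / c) - p = _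
      field_simp
    have e5 : |((a1 * a2 * a3 - p * (b1 * b2 * c) : ℤ) : ℝ)| = 1 := by
      rw [← Int.cast_abs, Int.abs_eq_natAbs, hone]; norm_num
    have e6 : ((a1 : ℝ) * a2 * a3 - p * (b1 * b2 * c)) =
        ((a1 * a2 * a3 - p * (b1 * b2 * c) : ℤ) : ℝ) := by push_cast; ring
    rw [e4, abs_div, e6, e5, abs_of_pos (by positivity)]
  rw [hdist] at hm
  have hb1r : ((x1 : ℝ) * p - y1) / w1 = b1 := by
    rw [div_eq_iff (by exact_mod_cast hw1.ne')]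
    exact_mod_cast hb1''.symm
  have hb2r : ((x2 : ℝ) * p - y2) / w2 = b2 := by
    rw [div_eq_iff (by exact_mod_cast hw2.ne')]
    exact_mod_cast hb2''.symm
  rw [hb1r, hb2r] at h0
  calc (p : ℝ) ^ 2 * m3 p ≤ (p : ℝ) ^ 2 * (1 / (b1 * b2 * c)) :=
        mul_le_mul_of_nonneg_left hm (by positivity)
    _ = (p : ℝ) / b1 * (p / b2) / c := by field_simp
    _ ≤ C + ε := h0

/-- splitting of a residue class -/
theorem split {C : ℝ} {r m q : ℕ} (hq : 0 < q)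
    (h : ∀ j < q, (q ∣ r + j * m ∧ q ≠ 1) ∨ Cls C (r + j * m) (m * q)) : Cls C r m := by
  intro ε hε
  have h1 : ∀ j : ℕ, ∀ᶠ p : ℕ in atTop, j < q → p.Prime → p % (m * q) = (r + j * m) % (m * q) →
      (p : ℝ) ^ 2 * m3 p ≤ C + ε := by
    intro j
    by_cases hj : j < q
    · rcases h j hj with h2 | h2
      · filter_upwards [eventually_gt_atTop q] with p hp _ hpp hpm
        exfalso
        have h3 : q ∣ p := by
          have h4 : p % q = (r + j * m) % q := by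
            have := congrArg (· % q) hpm
            simpa [Nat.mod_mul_left_mod] using this
          rw [Nat.dvd_iff_mod_eq_zero, h4]
          exact Nat.mod_eq_zero_of_dvd h2.1
        rcases (Nat.dvd_prime hpp).1 h3 with h5 | h5
        · exact h2.2 h5
        · omega
      · filter_upwards [h2 ε hε] with p hp _ using hp
    · exact Eventually.of_forall fun p h3 => absurd h3 hj
  have h2 : ∀ᶠ p : ℕ in atTop, ∀ j ∈ Finset.range q, j < q → p.Prime →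
      p % (m * q) = (r + j * m) % (m * q) → (p : ℝ) ^ 2 * m3 p ≤ C + ε :=
    (Finset.eventually_all _).2 fun j _ => h1 j
  filter_upwards [h2, eventually_ge_atTop r] with p hp hpr hpp hpm
  have h3 : m ∣ p - r := (Nat.modEq_iff_dvd' hpr).1 hpm.symm
  obtain ⟨k, hk⟩ := h3
  have h4 : k % q < q := Nat.mod_lt _ hq
  refine hp (k % q) (Finset.mem_range.2 h4) h4 hpp ?_
  have h5 : p = r + m * k := by omega
  have h6 : p = (r + (k % q) * m) + (m * q) * (k / q) := by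
    rw [h5]
    have := Nat.div_add_mod k q
    calc r + m * k = r + m * (q * (k / q) + k % q) := by rw [this]
      _ = _ := by ring
  rw [h6, Nat.add_mul_mod_self_left]

end MPf414f1.Cov
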