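import Pool.Agent.Work.MP_f414f1_nt.Check

/-!
`m₃(p)` is the reciprocal of an integer: criteria.
-/

set_option autoImplicit false

namespace MPf414f1.Rec

open MPf414f1.Cov

/-- there is a solution with `|a₁a₂a₃ - p b₁b₂b₃| = 1` and a large denominator -/
def HasGood (p : ℕ) : Prop :=
  ∃ a b : Fin 3 → ℕ, (∀ i, 1 ≤ a i ∧ a i ≤ p - 1) ∧ (∀ i, 1 ≤ b i ∧ b i ≤ p - 1) ∧
    ((∏ i, (a i : ℤ)) - p * ∏ i, (b i : ℤ)).natAbs = 1 ∧
    (p - 1) ^ 3 + 2 ≤ 2 * (p * ∏ i, b i)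

theorem dist_eq {p : ℕ} {a b : Fin 3 → ℕ} (hb : ∀ i, 1 ≤ b i) :
    |(∏ i, (a i : ℝ) / (b i : ℝ)) - p| =
      ((((∏ i, (a i : ℤ)) - p * ∏ i, (b i : ℤ)).natAbs : ℕ) : ℝ) / ((∏ i, b i : ℕ) : ℝ) := by
  have hB : (0 : ℝ) < ((∏ i, b i : ℕ) : ℝ) := by
    exact_mod_cast Finset.prod_pos fun i _ => hb i
  have e1 : (∏ i, (a i : ℝ) / (b i : ℝ)) - p =
      (((∏ i, (a i : ℤ)) - p * ∏ i, (b i : ℤ) : ℤ) : ℝ) / ((∏ i, b i : ℕ) : ℝ) := by
    rw [Finset.prod_div_distrib, eq_div_iff hB.ne', sub_mul]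
    push_cast
    rw [div_mul_cancel₀]
    have := hB.ne'
    push_cast at this
    exact this
  rw [e1, abs_div, abs_of_pos hB, ← Int.cast_abs, Int.abs_eq_natAbs]
  simp

theorem prod_le {p : ℕ} {a : Fin 3 → ℕ} (ha : ∀ i, 1 ≤ a i ∧ a i ≤ p - 1) :
    ∏ i, a i ≤ (p - 1) ^ 3 := by
  have h := Finset.prod_le_prod (s := Finset.univ) (f := a) (g := fun _ => p - 1)
    (fun i _ => Nat.zero_le _) (fun i _ => (ha i).2)
  simpa using h

theorem recip_of {p N : ℕ} (hN0 : 1 ≤ N) {a b : Fin 3 → ℕ} (ha : ∀ i, 1 ≤ a i ∧ a i ≤ p - 1)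
    (hb : ∀ i, 1 ≤ b i ∧ b i ≤ p - 1)
    (h1 : ((∏ i, (a i : ℤ)) - p * ∏ i, (b i : ℤ)).natAbs = 1) (hN : ∏ i, b i = N)
    (hmin : ∀ a b : Fin 3 → ℕ, (∀ i, 1 ≤ a i ∧ a i ≤ p - 1) → (∀ i, 1 ≤ b i ∧ b i ≤ p - 1) →
      ∏ i, b i ≤ ((∏ i, (a i : ℤ)) - p * ∏ i, (b i : ℤ)).natAbs * N) :
    m3 p = 1 / (N : ℝ) := by
  apply le_antisymm
  · have h2 := m3_le a b ha hb
    rw [dist_eq fun i => (hb i).1, h1, hN, Nat.cast_one] at h2
    exact h2
  · refine le_csInf ⟨_, a, b, ha, hb, rfl⟩ ?_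
    rintro v ⟨a', b', ha', hb', rfl⟩
    rw [dist_eq fun i => (hb' i).1]
    have hB : (0 : ℝ) < ((∏ i, b' i : ℕ) : ℝ) := by
      exact_mod_cast Finset.prod_pos fun i _ => (hb' i).1
    have hN' : (0 : ℝ) < N := by exact_mod_cast hN0
    rw [div_le_div_iff₀ hN' hB, one_mul]
    exact_mod_cast hmin a' b' ha' hb'

theorem recip_of_good {p : ℕ} (hp : p.Prime) (h : HasGood p) :
    ∃ N : ℕ, 1 ≤ N ∧ (p - 1) ^ 3 + 2 ≤ 2 * (p * N) ∧ m3 p = 1 / (N : ℝ) := by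
  obtain ⟨a0, b0, ha0, hb0, h0, hB0⟩ := h
  obtain ⟨S, hS⟩ : ∃ S : Set ℕ, S = {B | ∃ a b : Fin 3 → ℕ, (∀ i, 1 ≤ a i ∧ a i ≤ p - 1) ∧
    (∀ i, 1 ≤ b i ∧ b i ≤ p - 1) ∧ ((∏ i, (a i : ℤ)) - p * ∏ i, (b i : ℤ)).natAbs = 1 ∧
    ∏ i, b i = B} := ⟨_, rfl⟩
  have hne : S.Nonempty := by rw [hS]; exact ⟨_, a0, b0, ha0, hb0, h0, rfl⟩
  have hbd : BddAbove S := by
    refine ⟨(p - 1) ^ 3, ?_⟩
    rw [hS]
    rintro B ⟨a, b, ha, hb, -, rfl⟩
    exact prod_le hb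
  have hmem := Nat.sSup_mem hne hbd
  have hmax : ∀ B ∈ S, B ≤ sSup S := fun B hB => le_csSup hbd hB
  set N := sSup S with hN
  rw [hS] at hmem
  obtain ⟨a, b, ha, hb, h1, hbN⟩ := hmem
  have hN1 : 1 ≤ N := by
    rw [← hbN]
    exact Nat.succ_le_of_lt (Finset.prod_pos fun i _ => Nat.lt_of_lt_of_le Nat.zero_lt_one (hb i).1)
  have hB0N : ∏ i, b0 i ≤ N := hmax _ (by rw [hS]; exact ⟨a0, b0, ha0, hb0, h0, rfl⟩)
  refine ⟨N, hN1, ?_, recip_of hN1 ha hb h1 hbN ?_⟩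
  · calc (p - 1) ^ 3 + 2 ≤ 2 * (p * ∏ i, b0 i) := hB0
      _ ≤ 2 * (p * N) := Nat.mul_le_mul_left _ (Nat.mul_le_mul_left _ hB0N)
  intro a' b' ha' hb'
  set k := ((∏ i, (a' i : ℤ)) - p * ∏ i, (b' i : ℤ)).natAbs with hk
  rcases Nat.lt_or_ge k 2 with hk2 | hk2
  · rcases Nat.lt_or_ge k 1 with hk1 | hk1
    · exfalso
      have hk0 : (∏ i, (a' i : ℤ)) - p * ∏ i, (b' i : ℤ) = 0 := by
        rw [← Int.natAbs_eq_zero]; omega
      have h2 : (p : ℤ) ∣ ∏ i, (a' i : ℤ) := ⟨∏ i, (b' i : ℤ), by linarith⟩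
      rw [Prime.dvd_finsetProd_iff (Nat.prime_iff_prime_int.1 hp)] at h2
      obtain ⟨i, -, h3⟩ := h2
      have h4 : p ∣ a' i := Int.natCast_dvd_natCast.1 h3
      have h5 := Nat.le_of_dvd (by have := (ha' i).1; omega) h4
      have h6 := (ha' i).2
      have h7 := hp.two_le
      omega
    · have hk1' : k = 1 := by omega
      rw [hk1', one_mul]
      exact hmax _ (by rw [hS]; exact ⟨a', b', ha', hb', hk1', rfl⟩)
  · by_contra hcon
    push Not at hcon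
    have hA : ∏ i, a' i ≤ (p - 1) ^ 3 := prod_le ha'
    have e1 : ((∏ i, a' i : ℕ) : ℤ) = ∏ i, (a' i : ℤ) := by push_cast; rfl
    have e2 : ((∏ i, b' i : ℕ) : ℤ) = ∏ i, (b' i : ℤ) := by push_cast; rfl
    have h2 : -(((∏ i, (a' i : ℤ)) - p * ∏ i, (b' i : ℤ))) ≤ (k : ℤ) := by
      rw [hk, ← Int.abs_eq_natAbs]
      exact neg_le_abs _
    rw [← e1, ← e2] at h2
    set A := ∏ i, a' i with hAdef
    set B := ∏ i, b' i with hBdef
    set X := (p - 1) ^ 3 with hX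
    have hpN : (X : ℤ) + 2 ≤ 2 * (p * N) := by
      have h3 : X + 2 ≤ 2 * (p * N) := hB0.trans
        (Nat.mul_le_mul_left _ (Nat.mul_le_mul_left _ hB0N))
      exact_mod_cast h3
    have h4 : (k : ℤ) * N + 1 ≤ B := by exact_mod_cast hcon
    have h5 : (2 : ℤ) ≤ k := by exact_mod_cast hk2
    have h6 : (A : ℤ) ≤ X := by exact_mod_cast hA
    have h7 : (1 : ℤ) ≤ N := by exact_mod_cast hN1
    have h8 : (0 : ℤ) ≤ X := by positivity
    have h9 : (0 : ℤ) ≤ B := by positivity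
    -- `2 A N ≥ 2 p B N - 2 k N ≥ B (X + 2) - 2 B + 2`
    have h10 : 2 * (A : ℤ) * N ≥ 2 * (p * B - k) * N := by
      apply mul_le_mul_of_nonneg_right _ (by linarith)
      linarith
    have h11 : (B : ℤ) * (X + 2) ≤ B * (2 * (p * N)) := mul_le_mul_of_nonneg_left hpN h9
    have h12 : (2 : ℤ) * N * X ≤ k * N * X :=
      mul_le_mul_of_nonneg_right (mul_le_mul_of_nonneg_right h5 (by linarith)) h8
    have h13 : (k : ℤ) * N * X ≤ B * X := mul_le_mul_of_nonneg_right (by linarith) h8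
    have h14 : 2 * (A : ℤ) * N ≤ 2 * X * N :=
      mul_le_mul_of_nonneg_right (by linarith) (by linarith)
    have h15 : 2 * (p * (B : ℤ) - k) * N = B * (2 * (p * N)) - 2 * (k * N) := by ring
    have h16 : (B : ℤ) * (X + 2) = B * X + 2 * B := by ring
    linarith

/-! ### Large primes -/

/-- all primes `p ≥ P` in the residue class of `r` modulo `m` are good -/
def PE (P r m : ℕ) : Prop := ∀ p : ℕ, p.Prime → P ≤ p → p % m = r % m → HasGood p

theorem form_mem {s t P : ℕ} {u : ℤ} (hs : 0 < s) (hst : s ≤ t)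
    (h1 : 0 < ((t : ℤ) - s) * P + u) (h2 : u < s * P) {p : ℕ} (hp : P ≤ p)
    (hd : (t : ℤ) ∣ s * p - u) : ∃ a : ℕ, 1 ≤ a ∧ a ≤ p - 1 ∧ (a : ℤ) * t = s * p - u := by
  obtain ⟨k, hk⟩ := hd
  have ht : (0 : ℤ) < t := by exact_mod_cast lt_of_lt_of_le hs hst
  have hs' : (0 : ℤ) ≤ s := by positivity
  have hst0 : (s : ℤ) ≤ t := by exact_mod_cast hst
  have hst' : (0 : ℤ) ≤ (t : ℤ) - s := by linarith
  have hp' : (P : ℤ) ≤ p := by exact_mod_cast hp
  have h3 : (s : ℤ) * P ≤ s * p := mul_le_mul_of_nonneg_left hp' hs'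
  have h4 : ((t : ℤ) - s) * P ≤ (t - s) * p := mul_le_mul_of_nonneg_left hp' hst'
  have hk0 : 0 < k := by
    by_contra hcon
    push Not at hcon
    have : (t : ℤ) * k ≤ 0 := mul_nonpos_of_nonneg_of_nonpos ht.le hcon
    linarith
  have hkp : k < p := by
    by_contra hcon
    push Not at hcon
    have h5 : (t : ℤ) * p ≤ t * k := mul_le_mul_of_nonneg_left hcon ht.le
    have h6 : ((t : ℤ) - s) * p = t * p - s * p := by ring
    linarith
  refine ⟨k.toNat, ?_, ?_, ?_⟩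
  · omega
  · omega
  · rw [Int.toNat_of_nonneg hk0.le, hk]; ring

theorem leafE {m r P : ℕ} {s1 t1 s2 t2 s3 t3 x1 w1 x2 w2 c g : ℕ} {u1 u2 u3 y1 y2 : ℤ}
    (hs1 : 0 < s1 ∧ s1 ≤ t1 ∧ 0 < ((t1 : ℤ) - s1) * P + u1 ∧ u1 < s1 * P)
    (hs2 : 0 < s2 ∧ s2 ≤ t2 ∧ 0 < ((t2 : ℤ) - s2) * P + u2 ∧ u2 < s2 * P)
    (hs3 : 0 < s3 ∧ s3 ≤ t3 ∧ 0 < ((t3 : ℤ) - s3) * P + u3 ∧ u3 < s3 * P)
    (hx1 : 0 < x1 ∧ x1 ≤ w1 ∧ 0 < ((w1 : ℤ) - x1) * P + y1 ∧ y1 < x1 * P)
    (hx2 : 0 < x2 ∧ x2 ≤ w2 ∧ 0 < ((w2 : ℤ) - x2) * P + y2 ∧ y2 < x2 * P)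
    (hc : 0 < c ∧ c < P)
    (hm1 : t1 ∣ m) (hm2 : t2 ∣ m) (hm3 : t3 ∣ m) (hn1 : w1 ∣ m) (hn2 : w2 ∣ m)
    (hr1 : (t1 : ℤ) ∣ s1 * r - u1) (hr2 : (t2 : ℤ) ∣ s2 * r - u2) (hr3 : (t3 : ℤ) ∣ s3 * r - u3)
    (hq1 : (w1 : ℤ) ∣ x1 * r - y1) (hq2 : (w2 : ℤ) ∣ x2 * r - y2)
    (hg : c * (t1 * t2 * t3) = g * (w1 * w2))
    (e3 : g * (x1 * x2) = s1 * s2 * s3)
    (e2 : (g : ℤ) * (x1 * y2 + x2 * y1) = u1 * (s2 * s3) + u2 * (s1 * s3) + u3 * (s1 * s2))
    (e1 : (g : ℤ) * (y1 * y2) = u1 * u2 * s3 + u1 * u3 * s2 + u2 * u3 * s1)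
    (e0 : (u1 * u2 * u3).natAbs = t1 * t2 * t3)
    (hC : |2 * (u1 * (s2 * s3) + u2 * (s1 * s3) + u3 * (s1 * s2)) - 3 * (t1 * t2 * t3)| * (P : ℤ) +
      |2 * (u1 * u2 * s3 + u1 * u3 * s2 + u2 * u3 * s1) - 3 * (t1 * t2 * t3)| +
      |2 * (u1 * u2 * u3) + 3 * (t1 * t2 * t3)| ≤
        (2 * (s1 * s2 * s3) - t1 * t2 * t3) * ((P : ℤ) * P)) (hP : 1 ≤ P) : PE P r m := by
  intro p hpp hPp hpm
  have key : ∀ (t s : ℕ) (u : ℤ), t ∣ m → (t : ℤ) ∣ s * r - u → (t : ℤ) ∣ s * p - u := by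
    intro t s u h1 h2
    have h4 : (m : ℤ) ∣ (p : ℤ) - r := (Nat.modEq_iff_dvd.1 (show r ≡ p [MOD m] from hpm.symm))
    have h5 : (t : ℤ) ∣ (p : ℤ) - r := (Int.natCast_dvd_natCast.2 h1).trans h4
    have h6 : (s : ℤ) * p - u = (s * r - u) + s * (p - r) := by ring
    rw [h6]
    exact dvd_add h2 (h5.mul_left _)
  have hT : 0 < t1 * t2 * t3 := Nat.mul_pos (Nat.mul_pos (by omega) (by omega)) (by omega)
  obtain ⟨a1, ha1, ha1', ha1''⟩ := form_mem hs1.1 hs1.2.1 hs1.2.2.1 hs1.2.2.2 hPp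
    (key t1 s1 u1 hm1 hr1)
  obtain ⟨a2, ha2, ha2', ha2''⟩ := form_mem hs2.1 hs2.2.1 hs2.2.2.1 hs2.2.2.2 hPp
    (key t2 s2 u2 hm2 hr2)
  obtain ⟨a3, ha3, ha3', ha3''⟩ := form_mem hs3.1 hs3.2.1 hs3.2.2.1 hs3.2.2.2 hPp
    (key t3 s3 u3 hm3 hr3)
  obtain ⟨b1, hb1, hb1', hb1''⟩ := form_mem hx1.1 hx1.2.1 hx1.2.2.1 hx1.2.2.2 hPp
    (key w1 x1 y1 hn1 hq1)
  obtain ⟨b2, hb2, hb2', hb2''⟩ := form_mem hx2.1 hx2.2.1 hx2.2.2.1 hx2.2.2.2 hPp
    (key w2 x2 y2 hn2 hq2)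
  have eU : (a1 * a2 * a3 - p * (b1 * b2 * c) : ℤ) * (t1 * t2 * t3) = - (u1 * u2 * u3) := by
    have hgz : (c : ℤ) * (t1 * t2 * t3) = g * (w1 * w2) := by exact_mod_cast hg
    have he3 : (g : ℤ) * (x1 * x2) = s1 * s2 * s3 := by exact_mod_cast e3
    have h7 : (a1 * a2 * a3 : ℤ) * (t1 * t2 * t3) =
        (s1 * p - u1) * (s2 * p - u2) * (s3 * p - u3) := by
      rw [← ha1'', ← ha2'', ← ha3'']; ring
    have h8 : (p * (b1 * b2 * c) : ℤ) * (t1 * t2 * t3) =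
        p * (g * ((x1 * p - y1) * (x2 * p - y2))) := by
      rw [← hb1'', ← hb2'']
      linear_combination ((p : ℤ) * b1 * b2) * hgz
    rw [sub_mul, h7, h8]
    linear_combination (-(p : ℤ) ^ 3) * he3 + (p : ℤ) ^ 2 * e2 - (p : ℤ) * e1
  have hone : ((a1 * a2 * a3 - p * (b1 * b2 * c) : ℤ)).natAbs = 1 := by
    have hint : ((a1 * a2 * a3 - p * (b1 * b2 * c) : ℤ) * (t1 * t2 * t3)).natAbs =
        t1 * t2 * t3 := by
      rw [eU, Int.natAbs_neg, e0]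
    rw [Int.natAbs_mul] at hint
    have h9 : ((t1 : ℤ) * t2 * t3).natAbs = t1 * t2 * t3 := by
      rw [Int.natAbs_mul, Int.natAbs_mul]; rfl
    rw [h9] at hint
    exact Nat.eq_of_mul_eq_mul_right hT (by rw [hint, one_mul])
  refine ⟨![a1, a2, a3], ![b1, b2, c], ?_, ?_, ?_, ?_⟩
  · intro i; fin_cases i
    · exact ⟨ha1, ha1'⟩
    · exact ⟨ha2, ha2'⟩
    · exact ⟨ha3, ha3'⟩
  · intro i; fin_cases i
    · exact ⟨hb1, hb1'⟩
    · exact ⟨hb2, hb2'⟩
    · exact ⟨hc.1, by show c ≤ p - 1; omega⟩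
  · rw [Fin.prod_univ_three, Fin.prod_univ_three]
    exact hone
  · rw [Fin.prod_univ_three]
    show (p - 1) ^ 3 + 2 ≤ 2 * (p * (b1 * b2 * c))
    have hp1 : 1 ≤ p := hpp.one_lt.le
    -- `2 a₁a₂a₃ ≥ (p-1)³ + 4`
    have hA : (a1 * a2 * a3 : ℤ) * (t1 * t2 * t3) =
        (s1 * p - u1) * (s2 * p - u2) * (s3 * p - u3) := by
      rw [← ha1'', ← ha2'', ← ha3'']; ring
    obtain ⟨E, hE⟩ : ∃ E : ℤ, E = 2 * (u1 * (s2 * s3) + u2 * (s1 * s3) + u3 * (s1 * s2)) -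
      3 * (t1 * t2 * t3) := ⟨_, rfl⟩
    obtain ⟨F, hF⟩ : ∃ F : ℤ, F = 2 * (u1 * u2 * s3 + u1 * u3 * s2 + u2 * u3 * s1) -
      3 * (t1 * t2 * t3) := ⟨_, rfl⟩
    obtain ⟨U, hU⟩ : ∃ U : ℤ, U = 2 * (u1 * u2 * u3) + 3 * (t1 * t2 * t3) := ⟨_, rfl⟩
    obtain ⟨S, hS⟩ : ∃ S : ℤ, S = 2 * (s1 * s2 * s3) - t1 * t2 * t3 := ⟨_, rfl⟩
    rw [← hE, ← hF, ← hU, ← hS] at hC
    have hTz : (0 : ℤ) < (t1 : ℤ) * t2 * t3 := by exact_mod_cast hT
    have hPz : (1 : ℤ) ≤ P := by exact_mod_cast hP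
    have hPpz : (P : ℤ) ≤ p := by exact_mod_cast hPp
    obtain ⟨q, hq⟩ : ∃ q : ℤ, q = p := ⟨_, rfl⟩
    rw [← hq] at hPpz
    have hq1 : 1 ≤ q := by linarith
    have p1 : 0 ≤ |E| := abs_nonneg _
    have p2 : 0 ≤ |F| := abs_nonneg _
    have p3 : 0 ≤ |U| := abs_nonneg _
    have hS0 : 0 ≤ S := by
      by_contra hcon
      push Not at hcon
      have h1 : S * ((P : ℤ) * P) < 0 := mul_neg_of_neg_of_pos hcon (by positivity)
      have h2 : 0 ≤ |E| * (P : ℤ) := by positivity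
      linarith
    -- step: `|E| q + |F| + |U| ≤ S q²`
    have hstep : |E| * q + |F| + |U| ≤ S * (q * q) := by
      have h1 : (|E| * P + |F| + |U|) * q ≤ S * ((P : ℤ) * P) * q :=
        mul_le_mul_of_nonneg_right hC (by linarith)
      have h2 : (|E| * q + |F| + |U|) * P ≤ (|E| * P + |F| + |U|) * q := by
        have h3 : |F| * (P : ℤ) ≤ |F| * q := mul_le_mul_of_nonneg_left hPpz p2
        have h4 : |U| * (P : ℤ) ≤ |U| * q := mul_le_mul_of_nonneg_left hPpz p3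
        linarith
      have h5 : S * ((P : ℤ) * P) * q ≤ S * (q * q) * P := by
        have h6 : S * q * P * (P : ℤ) ≤ S * q * P * q :=
          mul_le_mul_of_nonneg_left hPpz (by positivity)
        linarith
      have h7 : (|E| * q + |F| + |U|) * P ≤ S * (q * q) * P := by linarith
      exact le_of_mul_le_mul_right h7 (by linarith)
    have hstep2 : E * (q * q) - F * q + U ≤ S * (q * q * q) := by
      have h1 : (|E| * q + |F| + |U|) * q ≤ S * (q * q) * q :=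
        mul_le_mul_of_nonneg_right hstep (by linarith)
      have h2 : E * (q * q) ≤ |E| * (q * q) :=
        mul_le_mul_of_nonneg_right (le_abs_self E) (by positivity)
      have h3 : -F * q ≤ |F| * q := mul_le_mul_of_nonneg_right (neg_le_abs F) (by linarith)
      have h4 : U * 1 ≤ |U| * q :=
        (mul_le_mul_of_nonneg_right (le_abs_self U) zero_le_one).trans
          (mul_le_mul_of_nonneg_left hq1 p3)
      linarith
    have h20 : ((q - 1) ^ 3 + 4) * ((t1 : ℤ) * t2 * t3) ≤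
        2 * (a1 * a2 * a3) * (t1 * t2 * t3) := by
      have h1 : (2 : ℤ) * (a1 * a2 * a3) * (t1 * t2 * t3) =
          2 * ((s1 * q - u1) * (s2 * q - u2) * (s3 * q - u3)) := by
        rw [hq, ← hA]; ring
      rw [h1]
      rw [hE, hF, hU, hS] at hstep2
      linarith
    have h21 : (q - 1) ^ 3 + 4 ≤ 2 * ((a1 : ℤ) * a2 * a3) := le_of_mul_le_mul_right h20 hTz
    have h22 : (a1 : ℤ) * a2 * a3 - p * (b1 * b2 * c) ≤ 1 := by
      have := Int.le_natAbs (a := (a1 : ℤ) * a2 * a3 - p * (b1 * b2 * c))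
      rw [hone] at this
      exact this
    zify [hp1]
    rw [hq] at h21
    linarith

/-! ### The checker -/

/-- conditions on one linear form -/
def fE (P s t : ℕ) (u : ℤ) : Bool :=
  Nat.blt 0 s && Nat.ble s t && decide (0 < ((t : ℤ) - s) * P + u) && decide (u < s * P)

theorem fE_spec {P s t : ℕ} {u : ℤ} (h : fE P s t u = true) :
    0 < s ∧ s ≤ t ∧ 0 < ((t : ℤ) - s) * P + u ∧ u < s * P := by
  simp only [fE, Bool.and_eq_true, Nat.blt_eq, Nat.ble_eq, decide_eq_true_eq] at h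
  exact ⟨h.1.1.1, h.1.1.2, h.1.2, h.2⟩

def w1 (c : ℕ) : ℕ := c / 2 ^ 214 % 16777216
def w2 (c : ℕ) : ℕ := c / 2 ^ 238 % 16777216

/-- `u` from its code -/
def un (o v : ℕ) : ℤ := (v : ℤ) - o

def cc (c : ℕ) : ℕ := g c * (w1 c * w2 c) / T c

/-- the inequality -/
def iE (P : ℕ) (S T : ℤ) (s1 s2 s3 u1 u2 u3 : ℤ) : Bool :=
  decide (|2 * (u1 * (s2 * s3) + u2 * (s1 * s3) + u3 * (s1 * s2)) - 3 * T| * (P : ℤ) +
      |2 * (u1 * u2 * s3 + u1 * u3 * s2 + u2 * u3 * s1) - 3 * T| +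
      |2 * (u1 * u2 * u3) + 3 * T| ≤ (2 * S - T) * ((P : ℤ) * P))

/-- check of an entry which does not depend on the residue class -/
def idE (P c : ℕ) : Bool :=
  fE P (s1 c) (t1 c) (un 131072 (v1 c)) && fE P (s2 c) (t2 c) (un 131072 (v2 c)) &&
  fE P (s3 c) (t3 c) (un 131072 (v3 c)) && fE P (x1 c) (w1 c) (un 134217728 (z1 c)) &&
  fE P (x2 c) (w2 c) (un 134217728 (z2 c)) &&
  Nat.beq (g c * (w1 c * w2 c) % T c) 0 && Nat.blt 0 (cc c) && Nat.blt (cc c) P &&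
  pOK (S c) (T c) (g c) (x1 c) (x2 c) (s1 c) (s2 c) (s3 c) (un 131072 (v1 c))
    (un 131072 (v2 c)) (un 131072 (v3 c)) (un 134217728 (z1 c)) (un 134217728 (z2 c)) &&
  iE P (s1 c * s2 c * s3 c) (t1 c * t2 c * t3 c) (s1 c) (s2 c) (s3 c) (un 131072 (v1 c))
    (un 131072 (v2 c)) (un 131072 (v3 c))

/-- check of the residue class -/
def lE (c r m : ℕ) : Bool :=
  dOK 131072 (s1 c) (t1 c) (v1 c) r m && dOK 131072 (s2 c) (t2 c) (v2 c) r m &&
  dOK 131072 (s3 c) (t3 c) (v3 c) r m && dOK 134217728 (x1 c) (w1 c) (z1 c) r m &&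
  dOK 134217728 (x2 c) (w2 c) (z2 c) r m

theorem lE_spec {P c r m : ℕ} (h1 : idE P c = true) (h2 : lE c r m = true) (hP : 1 ≤ P) :
    PE P r m := by
  simp only [idE, pOK, iE, Bool.and_eq_true, Nat.beq_eq, Nat.ble_eq, Nat.blt_eq,
    decide_eq_true_eq] at h1
  simp only [lE, Bool.and_eq_true] at h2
  obtain ⟨⟨⟨⟨⟨⟨⟨⟨⟨a1, a2⟩, a3⟩, a4⟩, a5⟩, a6⟩, a7⟩, a8⟩, ⟨⟨b1, b2⟩, b3⟩, b4⟩, b5⟩ := h1
  obtain ⟨⟨⟨⟨c1, c2⟩, c3⟩, c4⟩, c5⟩ := h2
  exact leafE (c := cc c) (g := g c) (fE_spec a1) (fE_spec a2) (fE_spec a3) (fE_spec a4)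
    (fE_spec a5) ⟨a7, a8⟩ (dOK_spec c1).1 (dOK_spec c2).1 (dOK_spec c3).1 (dOK_spec c4).1
    (dOK_spec c5).1 (dOK_spec c1).2 (dOK_spec c2).2 (dOK_spec c3).2 (dOK_spec c4).2
    (dOK_spec c5).2 (Nat.div_mul_cancel (Nat.dvd_of_mod_eq_zero a6)) b1 b2 b3 b4 b5 hP

/-- the entry `i` of the table `D` -/
def entE (D i : ℕ) : ℕ := D / 2 ^ (262 * i) % 2 ^ 262

/-- check of the first `n` entries of the table -/
def tabE (P D : ℕ) : ℕ → Bool
  | 0 => true
  | n + 1 => idE P (entE D n) && tabE P D n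

theorem tabE_spec {P D : ℕ} {n : ℕ} (h : tabE P D n = true) :
    ∀ i < n, idE P (entE D i) = true := by
  induction n with
  | zero => intro i hi; omega
  | succ n ih =>
    rw [tabE, Bool.and_eq_true] at h
    intro i hi
    rcases Nat.lt_succ_iff_lt_or_eq.1 hi with h2 | h2
    · exact ih h.2 i h2
    · subst h2; exact h.1

theorem splitE {P r m q : ℕ} (hq : 1 < q) (hqP : q < P)
    (h : ∀ j < q, (q ∣ r + j * m ∧ q ≠ 1) ∨ PE P (r + j * m) (m * q)) : PE P r m := by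
  intro p hpp hPp hpm
  -- write `p = r + j m` modulo `m q`
  have hj : ∃ j < q, p % (m * q) = (r + j * m) % (m * q) := by
    rcases Nat.le_total r p with hrp | hrp
    · have h3 : m ∣ p - r := (Nat.modEq_iff_dvd' hrp).1 hpm.symm
      obtain ⟨k, hk⟩ := h3
      refine ⟨k % q, Nat.mod_lt _ (by omega), ?_⟩
      have h5 : p = r + m * k := by omega
      have h6 : p = (r + (k % q) * m) + (m * q) * (k / q) := by
        rw [h5]
        have := Nat.div_add_mod k q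
        calc r + m * k = r + m * (q * (k / q) + k % q) := by rw [this]
          _ = _ := by ring
      rw [h6, Nat.add_mul_mod_self_left]
    · have h3 : m ∣ r - p := (Nat.modEq_iff_dvd' hrp).1 hpm
      obtain ⟨k, hk⟩ := h3
      have h5 : r = p + m * k := by omega
      obtain ⟨j, hj, hjk⟩ : ∃ j < q, q ∣ k + j := by
        refine ⟨(q - k % q) % q, Nat.mod_lt _ (by omega), ?_⟩
        have h7 : k % q < q := Nat.mod_lt _ (by omega)
        rw [Nat.dvd_iff_mod_eq_zero, Nat.add_mod, Nat.mod_mod, ← Nat.add_mod,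
          Nat.add_mod]
        rcases Nat.eq_zero_or_pos (k % q) with h8 | h8
        · rw [h8]; simp
        · rw [Nat.mod_eq_of_lt (show q - k % q < q by omega)]
          rw [show k % q + (q - k % q) = q by omega, Nat.mod_self]
      obtain ⟨l, hl⟩ := hjk
      refine ⟨j, hj, ?_⟩
      have h6 : r + j * m = p + (m * q) * l := by
        rw [h5]
        calc p + m * k + j * m = p + m * (k + j) := by ring
          _ = _ := by rw [hl]; ring
      rw [h6, Nat.add_mul_mod_self_left]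
  obtain ⟨j, hjq, hjm⟩ := hj
  rcases h j hjq with h2 | h2
  · exfalso
    have h3 : q ∣ p := by
      have h4 : p % q = (r + j * m) % q := by
        have := congrArg (· % q) hjm
        simpa [Nat.mod_mul_left_mod] using this
      rw [Nat.dvd_iff_mod_eq_zero, h4]
      exact Nat.mod_eq_zero_of_dvd h2.1
    rcases (Nat.dvd_prime hpp).1 h3 with h5 | h5
    · exact h2.2 h5
    · omega
  · exact h2 p hpp hPp hjm

/-- the check of the covering -/
def covE (P D n : ℕ) (ts : List ℕ) : Bool :=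
  tabE P D n && run (fun k r m => Nat.blt k n && lE (entE D k) r m) ts [(0, 1)]

theorem covE_spec {P D n : ℕ} {ts : List ℕ} (hP : 256 ≤ P) (h : covE P D n ts = true) {p : ℕ}
    (hp : p.Prime) (hPp : P ≤ p) : HasGood p := by
  rw [covE, Bool.and_eq_true] at h
  have h1 := run_spec (P := PE P) (fun r m q h1 h2 h => splitE h1 (by omega) h)
    (ok := fun k r m => Nat.blt k n && lE (entE D k) r m) (by
      intro k r m h1
      rw [Bool.and_eq_true, Nat.blt_eq] at h1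
      exact lE_spec (tabE_spec h.1 k h1.1) h1.2 (by omega)) ts _ h.2 (0, 1) List.mem_cons_self
  exact h1 p hp hPp (by rw [Nat.mod_one, Nat.mod_one])

/-! ### Small primes -/

/-- check of a solution `[p, a₁, a₂, a₃, b₁, b₂, b₃]` -/
def crt (l : List ℕ) : Bool :=
  match l with
  | [p, a1, a2, a3, b1, b2, b3] =>
    Nat.blt 0 a1 && Nat.blt 0 a2 && Nat.blt 0 a3 && Nat.blt 0 b1 && Nat.blt 0 b2 &&
    Nat.blt 0 b3 && Nat.blt a1 p && Nat.blt a2 p && Nat.blt a3 p && Nat.blt b1 p &&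
    Nat.blt b2 p && Nat.blt b3 p &&
    (Nat.beq (a1 * a2 * a3) (p * (b1 * b2 * b3) + 1) ||
      Nat.beq (a1 * a2 * a3 + 1) (p * (b1 * b2 * b3))) &&
    Nat.ble ((p - 1) ^ 3 + 2) (2 * (p * (b1 * b2 * b3)))
  | _ => false

theorem crt_spec {l : List ℕ} (h : crt l = true) {p : ℕ} (hp : l.head? = some p) :
    HasGood p := by
  unfold crt at h
  split at h
  · rename_i p' a1 a2 a3 b1 b2 b3
    simp only [List.head?_cons, Option.some.injEq] at hp
    subst hp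
    simp only [Bool.and_eq_true, Bool.or_eq_true, Nat.blt_eq, Nat.ble_eq, Nat.beq_eq] at h
    obtain ⟨⟨⟨⟨⟨⟨⟨⟨⟨⟨⟨⟨⟨h1, h2⟩, h3⟩, h4⟩, h5⟩, h6⟩, h7⟩, h8⟩, h9⟩, h10⟩, h11⟩, h12⟩, h13⟩, h14⟩ := h
    refine ⟨![a1, a2, a3], ![b1, b2, b3], ?_, ?_, ?_, ?_⟩
    · intro i; fin_cases i
      · exact ⟨h1, by show a1 ≤ p' - 1; omega⟩
      · exact ⟨h2, by show a2 ≤ p' - 1; omega⟩
      · exact ⟨h3, by show a3 ≤ p' - 1; omega⟩
    · intro i; fin_cases i
      · exact ⟨h4, by show b1 ≤ p' - 1; omega⟩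
      · exact ⟨h5, by show b2 ≤ p' - 1; omega⟩
      · exact ⟨h6, by show b3 ≤ p' - 1; omega⟩
    · rw [Fin.prod_univ_three, Fin.prod_univ_three]
      show ((a1 : ℤ) * a2 * a3 - p' * (b1 * b2 * b3)).natAbs = 1
      rcases h13 with h13 | h13
      · have e : (a1 : ℤ) * a2 * a3 = p' * (b1 * b2 * b3) + 1 := by exact_mod_cast h13
        rw [e]; simp
      · have e : (a1 : ℤ) * a2 * a3 + 1 = p' * (b1 * b2 * b3) := by exact_mod_cast h13
        rw [← e]; simp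
    · rw [Fin.prod_univ_three]
      exact h14
  · exact absurd h (by simp)

/-- check of the numbers below `P`: primes have a solution in the list `L` or are in `E` -/
def smE (L : List (List ℕ)) (E : List ℕ) (n : ℕ) : Bool :=
  Nat.blt n 2 || E.any (fun e => Nat.beq e n) ||
  [2, 3, 5, 7, 11, 13, 17, 19].any (fun d => Nat.blt d n && Nat.beq (n % d) 0) ||
  L.any (fun l => (match l.head? with | some p => Nat.beq p n | none => false) && crt l)

theorem smE_spec {L : List (List ℕ)} {E : List ℕ} {n : ℕ} (h : smE L E n = true)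
    (hn : n.Prime) : n ∈ E ∨ HasGood n := by
  simp only [smE, Bool.or_eq_true, Nat.blt_eq, List.any_eq_true, Nat.beq_eq] at h
  rcases h with ((h | h) | h) | h
  · have := hn.two_le; omega
  · obtain ⟨e, he, rfl⟩ := h
    exact Or.inl he
  · obtain ⟨d, hd, h2⟩ := h
    rw [Bool.and_eq_true, Nat.blt_eq, Nat.beq_eq] at h2
    have h3 : d ∣ n := Nat.dvd_of_mod_eq_zero h2.2
    rcases (Nat.dvd_prime hn).1 h3 with h4 | h4
    · subst h4
      simp at hd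
    · omega
  · obtain ⟨l, -, h2⟩ := h
    rw [Bool.and_eq_true] at h2
    right
    rcases hl : l.head? with _ | p
    · rw [hl] at h2
      simp at h2
    · rw [hl] at h2
      simp only [Nat.beq_eq] at h2
      rw [h2.1] at hl
      exact crt_spec h2.2 hl

/-! ### The exceptions -/

/-- `n` is a product of three numbers between `1` and `q` -/
def prod3 (q n : ℕ) : Bool :=
  (List.range q).any fun i => Nat.beq (n % (i + 1)) 0 &&
    (List.range q).any fun j => Nat.beq (n / (i + 1) % (j + 1)) 0 &&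
      Nat.ble (n / (i + 1) / (j + 1)) q

theorem prod3_spec {q a b c : ℕ} (ha : 1 ≤ a ∧ a ≤ q) (hb : 1 ≤ b ∧ b ≤ q)
    (hc : 1 ≤ c ∧ c ≤ q) : prod3 q (a * b * c) = true := by
  simp only [prod3, List.any_eq_true, Bool.and_eq_true, Nat.beq_eq, Nat.ble_eq, List.mem_range]
  refine ⟨a - 1, by omega, ?_, b - 1, by omega, ?_, ?_⟩
  · rw [Nat.sub_add_cancel ha.1, mul_assoc]
    exact Nat.mul_mod_right _ _
  · rw [Nat.sub_add_cancel ha.1, Nat.sub_add_cancel hb.1, mul_assoc,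
      Nat.mul_div_cancel_left _ ha.1]
    exact Nat.mul_mod_right _ _
  · rw [Nat.sub_add_cancel ha.1, Nat.sub_add_cancel hb.1, mul_assoc,
      Nat.mul_div_cancel_left _ ha.1, Nat.mul_div_cancel_left _ hb.1]
    exact hc.2

/-- check of an exceptional prime -/
def exE (p N : ℕ) : Bool :=
  (List.range ((p - 1) ^ 2 + 1)).all fun B => !(prod3 (p - 1) B) ||
    (List.range ((p - 1) ^ 2 / N + 2)).all fun k => Nat.ble B (k * N) ||
      (!(prod3 (p - 1) (p * B + k)) && !(prod3 (p - 1) (p * B - k)))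

theorem exE_spec {p N : ℕ} (hp : 2 ≤ p) (hN : 1 ≤ N) (h : exE p N = true) (a b : Fin 3 → ℕ)
    (ha : ∀ i, 1 ≤ a i ∧ a i ≤ p - 1) (hb : ∀ i, 1 ≤ b i ∧ b i ≤ p - 1) :
    ∏ i, b i ≤ ((∏ i, (a i : ℤ)) - p * ∏ i, (b i : ℤ)).natAbs * N := by
  have hA : ∏ i, a i ≤ (p - 1) ^ 3 := prod_le ha
  have hA3 : prod3 (p - 1) (∏ i, a i) = true := by
    rw [Fin.prod_univ_three]; exact prod3_spec (ha 0) (ha 1) (ha 2)
  have hB3 : prod3 (p - 1) (∏ i, b i) = true := by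
    rw [Fin.prod_univ_three]; exact prod3_spec (hb 0) (hb 1) (hb 2)
  have e1 : ((∏ i, a i : ℕ) : ℤ) = ∏ i, (a i : ℤ) := by push_cast; rfl
  have e2 : ((∏ i, b i : ℕ) : ℤ) = ∏ i, (b i : ℤ) := by push_cast; rfl
  rw [← e1, ← e2]
  generalize ∏ i, a i = A at hA hA3 ⊢
  generalize ∏ i, b i = B at hB3 ⊢
  obtain ⟨k, hk⟩ : ∃ k : ℕ, k = ((A : ℤ) - p * B).natAbs := ⟨_, rfl⟩
  rw [← hk]
  rcases Nat.lt_or_ge ((p - 1) ^ 2) B with hB | hB
  · -- `A < (p - 1) B`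
    have h1 : B ≤ k := by
      have h2 : (p - 1) ^ 3 ≤ (p - 1) * B := by
        calc (p - 1) ^ 3 = (p - 1) * (p - 1) ^ 2 := by ring
          _ ≤ (p - 1) * B := Nat.mul_le_mul_left _ hB.le
      have h3 : A + B ≤ p * B := by
        obtain ⟨q, rfl⟩ : ∃ q, p = q + 1 := ⟨p - 1, by omega⟩
        rw [Nat.add_sub_cancel] at h2 hA
        rw [add_mul, one_mul]
        omega
      have h4 : (A : ℤ) + B ≤ p * B := by exact_mod_cast h3
      omega
    calc B ≤ k := h1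
      _ = k * 1 := (mul_one k).symm
      _ ≤ k * N := Nat.mul_le_mul_left _ hN
  · rcases Nat.lt_or_ge k ((p - 1) ^ 2 / N + 2) with hkl | hkl
    · simp only [exE, List.all_eq_true, List.mem_range, Bool.or_eq_true, Bool.not_eq_true',
        Bool.and_eq_true, Nat.ble_eq] at h
      rcases h B (by omega) with h1 | h1
      · rw [hB3] at h1; exact absurd h1 (by simp)
      · rcases h1 k hkl with h2 | h2
        · exact h2
        · exfalso
          rcases le_total (p * B) A with h3 | h3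
          · have h4 : A = p * B + k := by
              have : (k : ℤ) = (A : ℤ) - p * B := by
                rw [hk, Int.natAbs_of_nonneg]
                have : ((p * B : ℕ) : ℤ) ≤ A := by exact_mod_cast h3
                push_cast at this
                linarith
              zify
              linarith
            rw [h4] at hA3
            rw [hA3] at h2
            exact absurd h2.1 (by simp)
          · have h4 : A = p * B - k := by
              have h5 : (k : ℤ) = p * B - (A : ℤ) := by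
                have h6 : ((A : ℤ) - p * B).natAbs = ((p : ℤ) * B - A).natAbs := by
                  rw [← Int.natAbs_neg]; congr 1; ring
                rw [hk, h6, Int.natAbs_of_nonneg]
                have : ((A : ℕ) : ℤ) ≤ (p * B : ℕ) := by exact_mod_cast h3
                push_cast at this
                linarith
              have h7 : k ≤ p * B := by zify; linarith
              zify [h7]
              linarith
            rw [h4] at hA3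
            rw [hA3] at h2
            exact absurd h2.2 (by simp)
    · have h1 : (p - 1) ^ 2 < k * N := by
        have h2 : (p - 1) ^ 2 < ((p - 1) ^ 2 / N + 1) * N := by
          have := Nat.div_add_mod ((p - 1) ^ 2) N
          have h3 := Nat.mod_lt ((p - 1) ^ 2) hN
          rw [add_mul, one_mul, mul_comm ((p - 1) ^ 2 / N) N]
          omega
        calc (p - 1) ^ 2 < ((p - 1) ^ 2 / N + 1) * N := h2
          _ ≤ k * N := Nat.mul_le_mul_right _ (by omega)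
      omega

end MPf414f1.Rec
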